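import Pool.Agent.H31.PH.Defs

/-!
# Conflicting matchings
-/

set_option autoImplicit false

namespace Pool.H31.PH

open FirstOrder FirstOrder.Language Pool.H93.SY Pool.H31.SY Pool.Agent.H88.SY
open scoped Pointwise

variable {ψ : phpL.Sentence} [HasSits ψ] {s n K : ℕ}

/-- Two edges with a common end are not both present. -/
def LC (e e' : Ed s n) : Set (Lit (Nx ψ s n K)) := {(R e).neg, (R e').neg}

/-- Some edge at the vertex is present. -/
def LV (v : Vx s n) : Set (Lit (Nx ψ s n K)) := {x | ∃ e, Inc v e ∧ x = R e}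

/-- The signed node `M h`. -/
def Mp (h : Sl (Ed s n) K) (b : Bool) : Lit (Nx ψ s n K) := ⟨.M h, b⟩

/-- The negations of the edges of a set. -/
def NE (g : Finset (Ed s n)) : Set (Lit (Nx ψ s n K)) := {x | ∃ e ∈ g, x = (R e).neg}

theorem NE_smul (σ : Equiv.Perm (Fin n)) (h : Sl (Ed s n) K) :
    (NE (σ • h).set : Set (Lit (Nx ψ s n K))) = σ • NE h.set := by
  apply smul_set_of
  intro x
  constructor
  · rintro ⟨e, he, rfl⟩
    refine ⟨σ • e, mem_smul_sl.2 ⟨e, he, rfl⟩, ?_⟩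
    rw [R_smul]
    rfl
  · rintro ⟨e, he, hx⟩
    obtain ⟨f, hf, rfl⟩ := mem_smul_sl.1 he
    refine ⟨f, hf, ?_⟩
    apply MulAction.injective σ
    show σ • x = σ • (R f).neg
    rw [hx, SY.smul_neg, ← R_smul]

theorem Mp_smul (σ : Equiv.Perm (Fin n)) (h : Sl (Ed s n) K) (b : Bool) :
    σ • (Mp h b : Lit (Nx ψ s n K)) = Mp (σ • h) b := rfl

/-- The lines of the argument for two conflicting matchings. -/
def FC (ψ : phpL.Sentence) [HasSits ψ] {s n K : ℕ} :
    Fin 3 × Sl (Ed s n) K × Sl (Ed s n) K → Set (Lit (Nx ψ s n K))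
  | (0, h, h') => {Mp h false, Mp h' false} ∪ NE h.set ∪ NE h'.set
  | (1, h, h') => {Mp h false, Mp h' false} ∪ NE h.set
  | (2, h, h') => {Mp h false, Mp h' false}

theorem neg_image_edges (h : Sl (Ed s n) K) :
    Lit.neg '' {x : Lit (Nx ψ s n K) | ∃ e ∈ h.set, x = R e} = NE h.set := by
  ext x
  constructor
  · rintro ⟨_, ⟨e, he, rfl⟩, rfl⟩
    exact ⟨e, he, rfl⟩
  · rintro ⟨e, he, rfl⟩
    exact ⟨R e, ⟨e, he, rfl⟩, rfl⟩

theorem conf_lines {m : ℕ} {D : Set (Atom phpL (Fin s ⊕ Fin n) × Bool)}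
    {Ls : Set (Set (Lit (Nx ψ s n K)))} (hg : GoodD ψ D (pc ψ m s n K) Ls)
    (hLC : ∀ e e', Cf e e' → LC e e' ∈ Ls) :
    ∃ Ls' : Set (Set (Lit (Nx ψ s n K))), GoodD ψ D (pc ψ m s n K) Ls' ∧ Ls ⊆ Ls' ∧
      (∀ h h' : Sl (Ed s n) K, (∃ e ∈ h.set, ∃ e' ∈ h'.set, Cf e e') →
        {Mp h false, Mp h' false} ∈ Ls') ∧
      Ls'.ncard ≤ Ls.ncard + 3 * Nat.card (Sl (Ed s n) K) ^ 2 := by
  let J : Set (Fin 3 × Sl (Ed s n) K × Sl (Ed s n) K) :=
    {t | ∃ e ∈ t.2.1.set, ∃ e' ∈ t.2.2.set, Cf e e'}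
  have key : GoodD ψ D (pc ψ m s n K) (Ls ∪ FC ψ '' J) := by
    refine goodD_family (C := pc ψ m s n K) (FC ψ) J (fun t => t.1.val) hg ?_ ?_
    · rintro σ ⟨k, h, h'⟩ ⟨e, he, e', he', hc⟩
      refine ⟨(k, σ • h, σ • h'), ⟨σ • e, mem_smul_sl.2 ⟨e, he, rfl⟩, σ • e',
        mem_smul_sl.2 ⟨e', he', rfl⟩, (cf_smul σ).2 hc⟩, ?_⟩
      have h2 : ({Mp (σ • h) false, Mp (σ • h') false} : Set (Lit (Nx ψ s n K))) =
          σ • {Mp h false, Mp h' false} := by
        rw [Set.smul_set_insert, Set.smul_set_singleton]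
        rfl
      match k with
      | 0 =>
        show {Mp (σ • h) false, Mp (σ • h') false} ∪ NE (σ • h).set ∪ NE (σ • h').set =
          σ • ({Mp h false, Mp h' false} ∪ NE h.set ∪ NE h'.set)
        rw [Set.smul_set_union, Set.smul_set_union, NE_smul, NE_smul, h2]
      | 1 =>
        show {Mp (σ • h) false, Mp (σ • h') false} ∪ NE (σ • h).set =
          σ • ({Mp h false, Mp h' false} ∪ NE h.set)
        rw [Set.smul_set_union, NE_smul, h2]
      | 2 => exact h2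
    · rintro ⟨k, h, h'⟩ ⟨e, he, e', he', hc⟩
      match k with
      | 0 =>
        refine .weak (Or.inl (hLC e e' hc)) ?_
        rintro x (rfl | hx)
        · exact Or.inl (Or.inr ⟨e, he, rfl⟩)
        · obtain rfl : x = _ := hx
          exact Or.inr ⟨e', he', rfl⟩
      | 1 =>
        refine .andE (a := (.M h' : Nx ψ s n K)) (S := {x | ∃ e ∈ h'.set, x = R e}) rfl
          (Or.inl (Or.inr rfl)) (Or.inr ⟨(0, h, h'), ⟨e, he, e', he', hc⟩, ?_, ?_⟩)
        · show (0 : ℕ) < 1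
          norm_num
        · exact congrArg (fun T => {Mp h false, Mp h' false} ∪ NE h.set ∪ T) (neg_image_edges h')
      | 2 =>
        refine .andE (a := (.M h : Nx ψ s n K)) (S := {x | ∃ e ∈ h.set, x = R e}) rfl
          (Or.inl rfl) (Or.inr ⟨(1, h, h'), ⟨e, he, e', he', hc⟩, ?_, ?_⟩)
        · show (1 : ℕ) < 2
          norm_num
        · exact congrArg (fun T => {Mp h false, Mp h' false} ∪ T) (neg_image_edges h)
  refine ⟨_, key, Set.subset_union_left, ?_, ?_⟩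
  · rintro h h' hc
    exact Or.inr ⟨(2, h, h'), hc, rfl⟩
  · refine (Set.ncard_union_le _ _).trans (Nat.add_le_add_left ?_ _)
    refine (ncard_family (C := pc ψ m s n K) (FC ψ) J).trans ?_
    rw [Nat.card_prod, Nat.card_prod, Nat.card_eq_fintype_card, Fintype.card_fin]
    exact le_of_eq (by ring)

end Pool.H31.PH
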