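import Pool.Agent.H31.PH.Defs

/-!
# [H31 PH EMB] Derivations in a part of a circuit

PROOF. Order of a line `Γ'` of the new circuit: the order of its preimage `mapL ι ⁻¹' Γ'`
(`mapL ι` is injective, so the preimage of `mapL ι '' Γ` is `Γ`, `Set.preimage_image_eq`). Closed:
`mapL ι '' (σ • Γ) = σ • (mapL ι '' Γ)`. The steps, by cases on the rule.
-/

set_option autoImplicit false

namespace Pool.H31.PH

open FirstOrder FirstOrder.Language Pool.H93.SY Pool.H31.SY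
open scoped Pointwise

theorem mapL_injective {N N' : Type} {f : N → N'} (hf : Function.Injective f) :
    Function.Injective (mapL f) := by
  intro x y h
  have h1 : f x.node = f y.node := congrArg Lit.node h
  have h2 : (mapL f x).pos = (mapL f y).pos := congrArg Lit.pos h
  exact Lit.ext (hf h1) h2

theorem mapL_smul {n : ℕ} {N N' : Type} [MulAction (Equiv.Perm (Fin n)) N]
    [MulAction (Equiv.Perm (Fin n)) N'] (f : N → N')
    (hf : ∀ (σ : Equiv.Perm (Fin n)) (x : N), f (σ • x) = σ • f x) (σ : Equiv.Perm (Fin n))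
    (x : Lit N) : mapL f (σ • x) = σ • mapL f x :=
  Lit.ext (hf σ x.node) rfl

theorem mapL_image_smul {n : ℕ} {N N' : Type} [MulAction (Equiv.Perm (Fin n)) N]
    [MulAction (Equiv.Perm (Fin n)) N'] (f : N → N')
    (hf : ∀ (σ : Equiv.Perm (Fin n)) (x : N), f (σ • x) = σ • f x) (σ : Equiv.Perm (Fin n))
    (S : Set (Lit N)) : mapL f '' (σ • S) = σ • (mapL f '' S) := by
  ext x
  constructor
  · rintro ⟨y, hy, rfl⟩
    obtain ⟨z, hz, rfl⟩ := Set.mem_smul_set.1 hy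
    rw [mapL_smul f hf]
    exact Set.smul_mem_smul_set ⟨z, hz, rfl⟩
  · intro hx
    obtain ⟨_, ⟨z, hz, rfl⟩, rfl⟩ := Set.mem_smul_set.1 hx
    exact ⟨σ • z, Set.smul_mem_smul_set hz, mapL_smul f hf σ z⟩

variable {L : FirstOrder.Language.{0, 0}} [L.IsRelational] {ψ : L.Sentence} {m s n : ℕ}
  {D : Set (Atom L (Fin s ⊕ Fin n) × Bool)} {C₀ C : Circuit L m s n}

theorem rep_map (ι : C₀.N → C.N) (hι : ∀ a, C.gate (ι a) = mapG ι (C₀.gate a)) {k : ℕ}
    (φ : L.BoundedFormula Empty k) (v : Fin k → Fin s ⊕ Fin n) (x : Lit C₀.N)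
    (h : C₀.Rep φ v x) : C.Rep φ v (mapL ι x) := by
  induction φ generalizing x with
  | falsum =>
    refine ⟨h.1, ?_⟩
    show C.gate (ι x.node) = _
    rw [hι, h.2]
    exact congrArg Gate.and (Set.image_empty _)
  | equal t₁ t₂ =>
    refine ⟨h.1, ?_⟩
    show C.gate (ι x.node) = _
    rw [hι, h.2]
    exact congrArg Gate.and (Set.image_empty _)
  | rel R ts =>
    refine ⟨h.1, ?_⟩
    show C.gate (ι x.node) = _
    rw [hι, h.2]
    rfl
  | imp φ χ ih1 ih2 =>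
    obtain ⟨h1, y, z, h2, h3, h4⟩ := h
    refine ⟨h1, mapL ι y, mapL ι z, ih1 v y h2, ih2 v z h3, ?_⟩
    show C.gate (ι x.node) = _
    rw [hι, h4]
    exact congrArg Gate.and (Set.image_pair _ _ _)
  | all φ ih =>
    obtain ⟨h1, S, h2, h3, h4⟩ := h
    refine ⟨h1, mapL ι '' S, ?_, ?_, ?_⟩
    · show C.gate (ι x.node) = _
      rw [hι, h2]
      rfl
    · intro b
      obtain ⟨y, hy, hy2⟩ := h3 b
      exact ⟨mapL ι y, ⟨y, hy, rfl⟩, ih _ y hy2⟩
    · rintro _ ⟨y, hy, rfl⟩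
      obtain ⟨b, hb⟩ := h4 y hy
      exact ⟨b, ih _ y hb⟩

theorem step_map (ι : C₀.N → C.N) (hinj : Function.Injective ι)
    (hι : ∀ a, C.gate (ι a) = mapG ι (C₀.gate a)) {P : Set (Set (Lit C₀.N))}
    {Γ : Set (Lit C₀.N)} (h : Step ψ D C₀ P Γ) :
    Step ψ D C ((fun Γ => mapL ι '' Γ) '' P) (mapL ι '' Γ) := by
  have hand : ∀ (a : C₀.N) (S : Set (Lit C₀.N)), C₀.gate a = .and S →
      C.gate (ι a) = .and (mapL ι '' S) := by
    intro a S h
    rw [hι, h]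
    rfl
  have hmod : ∀ (a : C₀.N) (c : ZMod m) (S : Set (Lit C₀.N)), C₀.gate a = .mod c S →
      C.gate (ι a) = .mod c (mapL ι '' S) := by
    intro a c S h
    rw [hι, h]
    rfl
  cases h with
  | @hyp x h1 h2 => exact .hyp (rep_map ι hι ψ default x h1) ⟨x, h2, rfl⟩
  | @fact a v b h1 h2 h3 =>
    refine .fact (a := ι a) (v := v) (b := b) ?_ h2 ⟨_, h3, rfl⟩
    rw [hι, h1]
    rfl
  | @ident a b h1 h2 h3 =>
    refine .ident (a := ι a) (b := ι b) ?_ ⟨_, h2, rfl⟩ ⟨_, h3, rfl⟩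
    rw [hι, hι, h1]
  | @weak Δ h1 h2 => exact .weak ⟨Δ, h1, rfl⟩ (Set.image_mono h2)
  | @cut a h1 h2 =>
    refine .cut (a := ι a) ⟨_, h1, ?_⟩ ⟨_, h2, ?_⟩
    · exact Set.image_insert_eq
    · exact Set.image_insert_eq
  | @andI S a h1 h2 h3 =>
    refine .andI (a := ι a) (hand a S h1) ⟨_, h2, rfl⟩ ?_
    rintro _ ⟨x, hx, rfl⟩
    exact ⟨_, h3 x hx, Set.image_insert_eq⟩
  | @andE S a h1 h2 h3 =>
    refine .andE (a := ι a) (hand a S h1) ⟨_, h2, rfl⟩ ⟨_, h3, ?_⟩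
    show mapL ι '' (Γ ∪ Lit.neg '' S) = mapL ι '' Γ ∪ Lit.neg '' (mapL ι '' S)
    rw [Set.image_union, Set.image_image, Set.image_image]
    rfl
  | @total S h1 =>
    refine .total (S := mapL ι '' S) ?_
    intro c
    obtain ⟨a, h2, h3⟩ := h1 c
    exact ⟨ι a, hmod a c S h2, _, h3, rfl⟩
  | @excl S a b c d h1 h2 h3 h4 h5 =>
    exact .excl (hmod a c S h1) (hmod b d S h2) h3 ⟨_, h4, rfl⟩ ⟨_, h5, rfl⟩
  | @one a x h1 h2 h3 =>
    refine .one (a := ι a) (x := mapL ι x) ?_ ⟨_, h2, rfl⟩ ⟨_, h3, rfl⟩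
    rw [hmod a 1 {x} h1, Set.image_singleton]
  | @zero a x h1 h2 h3 =>
    refine .zero (a := ι a) (x := mapL ι x) ?_ ⟨_, h2, rfl⟩ ⟨_, h3, rfl⟩
    rw [hmod a 0 {x} h1, Set.image_singleton]
  | @sum a p T c S h1 h2 h3 h4 h5 h6 =>
    have e1 : ∀ b, Function.extend ι c 0 (ι b) = c b := fun b => hinj.extend_apply c 0 b
    have e2 : ∀ b, Function.extend ι (fun b => mapL ι '' S b) (fun _ => ∅) (ι b) =
        mapL ι '' S b := fun b => hinj.extend_apply _ _ b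
    refine .sum (a := ι a) (p := ι p) (T := ι '' T) (c := Function.extend ι c 0)
      (S := Function.extend ι (fun b => mapL ι '' S b) (fun _ => ∅)) ?_ ?_ ?_ ?_
      ⟨_, h5, rfl⟩ ⟨_, h6, rfl⟩
    · rintro _ ⟨b, hb, rfl⟩
      rw [e1, e2]
      exact hmod b _ _ (h1 b hb)
    · rintro _ ⟨b, hb, rfl⟩ _ ⟨b', hb', rfl⟩ hne
      have hbb : b ≠ b' := fun e => hne (congrArg ι e)
      show Disjoint (Function.extend ι (fun b => mapL ι '' S b) (fun _ => ∅) (ι b))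
        (Function.extend ι (fun b => mapL ι '' S b) (fun _ => ∅) (ι b'))
      rw [e2, e2, Set.disjoint_image_iff (mapL_injective hinj)]
      exact h2 hb hb' hbb
    · rw [hand p _ h3, Set.image_image, Set.image_image]
      rfl
    · rw [hmod a _ _ h4, finsum_mem_image hinj.injOn]
      congr 1
      · simp only [e1]
      · rw [Set.biUnion_image, Set.image_iUnion₂]
        simp only [e2]

/-- Derivations in a part of a circuit. -/
theorem goodD_map' (ι : C₀.N → C.N)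
    (hinj : Function.Injective ι) (hι : ∀ a, C.gate (ι a) = mapG ι (C₀.gate a))
    (hsm : ∀ (σ : Equiv.Perm (Fin n)) (a : C₀.N), ι (σ • a) = σ • ι a)
    {Ls : Set (Set (Lit C₀.N))} (h : GoodD ψ D C₀ Ls) :
    GoodD ψ D C ((fun Γ => mapL ι '' Γ) '' Ls) := by
  obtain ⟨hc, order, ho⟩ := h
  refine ⟨?_, fun Γ => order (mapL ι ⁻¹' Γ), ?_⟩
  · rintro σ _ ⟨Γ, hΓ, rfl⟩
    exact ⟨σ • Γ, hc σ Γ hΓ, mapL_image_smul ι hsm σ Γ⟩
  · rintro _ ⟨Γ, hΓ, rfl⟩
    refine step_more subset_rfl ?_ (step_map ι hinj hι (ho Γ hΓ))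
    rintro _ ⟨Δ, ⟨h1, h2⟩, rfl⟩
    refine ⟨⟨Δ, h1, rfl⟩, ?_⟩
    show order (mapL ι ⁻¹' (mapL ι '' Δ)) < order (mapL ι ⁻¹' (mapL ι '' Γ))
    rw [Set.preimage_image_eq _ (mapL_injective hinj), Set.preimage_image_eq _ (mapL_injective hinj)]
    exact h2

theorem goodD_map {L : FirstOrder.Language.{0, 0}} [L.IsRelational] {ψ : L.Sentence} {m s n : ℕ}
    {D : Set (Atom L (Fin s ⊕ Fin n) × Bool)} {C₀ C : Circuit L m s n} (ι : C₀.N → C.N)
    (hinj : Function.Injective ι) (hι : ∀ a, C.gate (ι a) = mapG ι (C₀.gate a))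
    (hsm : ∀ (σ : Equiv.Perm (Fin n)) (a : C₀.N), ι (σ • a) = σ • ι a)
    (_hno : ∀ a c S, C₀.gate a ≠ .mod c S) {Ls : Set (Set (Lit C₀.N))} (h : GoodD ψ D C₀ Ls) :
    GoodD ψ D C ((fun Γ => mapL ι '' Γ) '' Ls) :=
  goodD_map' ι hinj hι hsm h

end Pool.H31.PH
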