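import Pool.Agent.H31.PH.Kle
import Pool.Agent.H31.PH.Emb
import Pool.Agent.H31.PH.Cnf
import Pool.Agent.H31.SY.Upper
import Pool.Agent.H88.SY.PhpBij

/-!
# [H31 PH BAS] The basic lines from the sentence

`LC e e'`: `¬ R e ∨ ¬ R e'`. `LV v`: some edge at the vertex `v` is present (defined in `Cnf`).

PROOF. `kle` (once for `php`, once for `phpB = php ⊓ onto`) with `D = pigeons s n`,
`X = (Ed s n × Ed s n) ⊕ Vx s n`, and
`G (inl (e, e')) = {(atm e, false), (atm e', false)}`, `G (inr v) = {(atm e, true) | Inc v e}`,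
`V = {inl (e, e') | Cf e e'} ∪ {inr v | sd v = true}` for `php`, `V = {inl (e, e') | Cf e e'} ∪ {all inr v}` for `phpB`.
The conditions: `pigeons` is invariant
(`Sum.isRight (pm σ p) = Sum.isRight p`); `G` is equivariant (`atm (σ • e) = (atm e).act σ`, see `nod_smul`;
`inc_smul`, `cf_smul`). Forced: for `φ ⊓ θ = ∼(φ ⟹ ∼θ)`: forced to be false if `φ` or `θ` is; `∃' φ = ∼∀'∼φ`: forced to be
false if all instances are; `∼φ = φ ⟹ ⊥` (unfold the definitions; make lemmas `forced_inf_false`,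
`forced_ex_false`, `forced_not_*`, `forced_all_false`).  `pigF (&j)` under `v` is forced to be `(v j).isRight` by
`D` (`tv` of the variable `&j` is `v j`; vectors `![t]`, `![t, u]`: `fun i => tv v (![t, u] i)` equals `![tv v t, tv v u]`,
`funext`, `Fin.cases`).
 * `inr v`, `v` a pigeon `inr a`: the first conjunct `∀' (pigF &0 ⟹ ∃' (∼pigF &1 ⊓ sitsF &0 &1))` of `php` fails at
   `x0 = inr a`: `pigF` is
   true, and for every `x1`: if `x1` is a pigeon, `∼pigF &1` is false; if `x1 = inl b`, `sitsF` is the atom of the edge `(a, b)`,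
   incident with `v`, so its negation is forced (`(atm e, !false) ∈ G`).
 * `inr v`, `v` a hole: `onto` in the same way.
 * `inl (e, e')`, `e ≠ e'`, common hole (`en false`): the second conjunct of `php` at `x0 = inr e.1`, `x1 = inr e'.1`, `x2 = inl e.2`
   (`&0 =' &1` is false because `e.1 ≠ e'.1`); common pigeon: the third conjunct at `inr e.1`, `inl e.2`, `inl e'.2`.
So: prove `Forced … php … false` in the three cases; for `phpB` use `forced_inf_false`.
Then `goodD_map` (`Emb`) with `ι = Nx.base`: the lines are `mapL Nx.base '' gl ψ (G x)`, which are `LC e e'` and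
`LV v` (`gl`: a relation symbol `R : Rels ψ` with the atom `atm e` is `⟨⟨2, PRel.sits⟩, _⟩`; the node is `nod e`: proof
irrelevance).
Size: `Set.ncard_image_le`, `Nat.card X = (n s)^2 + (s + n)`, `card_nd` (`H31/SY/Upper`): `Nat.card (Nd ψ s n) ≤ c₁ (s+n)^K`.
-/

set_option autoImplicit false

namespace Pool.H31.PH

open FirstOrder FirstOrder.Language Pool.H93.SY Pool.H31.SY Pool.Agent.H88.SY
open scoped Pointwise

theorem subf_inf_left {k : ℕ} {φ θ : phpL.BoundedFormula Empty k}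
    {x : Σ k : ℕ, phpL.BoundedFormula Empty k} (h : x ∈ subf φ) : x ∈ subf (φ ⊓ θ) :=
  Or.inr (Or.inl (Or.inr (Or.inl h)))

theorem subf_inf_right {k : ℕ} {φ θ : phpL.BoundedFormula Empty k}
    {x : Σ k : ℕ, phpL.BoundedFormula Empty k} (h : x ∈ subf θ) : x ∈ subf (φ ⊓ θ) :=
  Or.inr (Or.inl (Or.inr (Or.inr (Or.inr (Or.inl h)))))

theorem subf_all {k : ℕ} {φ : phpL.BoundedFormula Empty (k + 1)}
    {x : Σ k : ℕ, phpL.BoundedFormula Empty k} (h : x ∈ subf φ) : x ∈ subf (∀' φ) :=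
  Or.inr h

theorem subf_ex {k : ℕ} {φ : phpL.BoundedFormula Empty (k + 1)}
    {x : Σ k : ℕ, phpL.BoundedFormula Empty k} (h : x ∈ subf φ) : x ∈ subf (∃' φ) :=
  Or.inr (Or.inl (Or.inr (Or.inr (Or.inl h))))

theorem subf_imp_right {k : ℕ} {φ θ : phpL.BoundedFormula Empty k}
    {x : Σ k : ℕ, phpL.BoundedFormula Empty k} (h : x ∈ subf θ) : x ∈ subf (φ ⟹ θ) :=
  Or.inr (Or.inr h)

instance hasSits_php : HasSits php where
  mem := ⟨2, ![&0, &1], subf_inf_left (subf_all (subf_imp_right (subf_ex (subf_inf_right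
    (self_mem_subf _)))))⟩

instance hasSits_phpB : HasSits phpB where
  mem := ⟨2, ![&0, &1], subf_inf_left (subf_inf_left (subf_all (subf_imp_right (subf_ex
    (subf_inf_right (self_mem_subf _))))))⟩

private abbrev bP (s n : ℕ) : Type := Fin s ⊕ Fin n

private def bG {s n : ℕ} : (Ed s n × Ed s n) ⊕ Vx s n → Set (Atom phpL (Fin s ⊕ Fin n) × Bool)
  | .inl p => {(atm p.1, false), (atm p.2, false)}
  | .inr v => {x | ∃ e, Inc v e ∧ x = (atm e, true)}

private theorem bas_atm {s n : ℕ} (σ : Equiv.Perm (Fin n)) (e : Ed s n) :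
    atm (σ • e) = (atm e).act σ := by
  have key : (![Sum.inr (σ e.1), Sum.inl e.2] : Fin 2 → Fin s ⊕ Fin n) =
      fun i => Sum.map id σ ((![Sum.inr e.1, Sum.inl e.2] : Fin 2 → Fin s ⊕ Fin n) i) := by
    funext i
    match i with
    | 0 => rfl
    | 1 => rfl
  show (⟨2, PRel.sits, ![Sum.inr (σ e.1), Sum.inl e.2]⟩ : Atom phpL (Fin s ⊕ Fin n)) =
    ⟨2, PRel.sits, fun i => Sum.map id σ ((![Sum.inr e.1, Sum.inl e.2] : Fin 2 → Fin s ⊕ Fin n) i)⟩
  rw [key]

private theorem bas_nod {ψ : phpL.Sentence} [HasSits ψ] {s n : ℕ} {e : Ed s n} {R : Rels ψ}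
    {w : Fin R.1.1 → Fin s ⊕ Fin n}
    (h : (⟨R.1.1, R.1.2, w⟩ : Atom phpL (Fin s ⊕ Fin n)) = atm e) :
    (⟨some (.inl R), w⟩ : Nd ψ s n) = nod e := by
  obtain ⟨⟨k, r⟩, hr⟩ := R
  have h' : (⟨k, r, w⟩ : Atom phpL (Fin s ⊕ Fin n)) =
    ⟨2, PRel.sits, ![Sum.inr e.1, Sum.inl e.2]⟩ := h
  cases h'
  rfl

private theorem bas_LC {ψ : phpL.Sentence} [HasSits ψ] {s n K : ℕ} (e e' : Ed s n) :
    mapL Nx.base '' (gl ψ (bG (.inl (e, e')))) = (LC e e' : Set (Lit (Nx ψ s n K))) := by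
  ext x
  constructor
  · rintro ⟨_, ⟨R, w, b, hG, rfl⟩, rfl⟩
    rcases hG with h | h
    · have h1 := congrArg Prod.fst h
      have h2 : b = false := congrArg Prod.snd h
      subst h2
      left
      show (⟨.base ⟨some (.inl R), w⟩, false⟩ : Lit (Nx ψ s n K)) = _
      rw [bas_nod h1]
      rfl
    · have h1 := congrArg Prod.fst h
      have h2 : b = false := congrArg Prod.snd h
      subst h2
      right
      show (⟨.base ⟨some (.inl R), w⟩, false⟩ : Lit (Nx ψ s n K)) = _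
      rw [bas_nod h1]
      rfl
  · rintro (h | h)
    · refine ⟨⟨nod e, false⟩, ⟨⟨⟨2, PRel.sits⟩, HasSits.mem⟩, _, false, Or.inl rfl, rfl⟩, h.symm⟩
    · refine ⟨⟨nod e', false⟩, ⟨⟨⟨2, PRel.sits⟩, HasSits.mem⟩, _, false, Or.inr rfl, rfl⟩, ?_⟩
      rw [Set.mem_singleton_iff] at h
      exact h.symm

private theorem bas_LV {ψ : phpL.Sentence} [HasSits ψ] {s n K : ℕ} (v : Vx s n) :
    mapL Nx.base '' (gl ψ (bG (.inr v))) = (LV v : Set (Lit (Nx ψ s n K))) := by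
  ext x
  constructor
  · rintro ⟨_, ⟨R, w, b, ⟨e, he, h⟩, rfl⟩, rfl⟩
    have h1 := congrArg Prod.fst h
    have h2 : b = true := congrArg Prod.snd h
    subst h2
    refine ⟨e, he, ?_⟩
    show (⟨.base ⟨some (.inl R), w⟩, true⟩ : Lit (Nx ψ s n K)) = _
    rw [bas_nod h1]
    rfl
  · rintro ⟨e, he, rfl⟩
    exact ⟨⟨nod e, true⟩, ⟨⟨⟨2, PRel.sits⟩, HasSits.mem⟩, _, true, ⟨e, he, rfl⟩, rfl⟩, rfl⟩

private theorem bas_D {s n : ℕ} (σ : Equiv.Perm (Fin n)) (v : Atom phpL (Fin s ⊕ Fin n)) (b : Bool)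
    (h : (v, b) ∈ pigeons s n) : (v.act σ, b) ∈ pigeons s n := by
  obtain ⟨p, hp⟩ := h
  rw [Prod.mk.injEq] at hp
  obtain ⟨rfl, rfl⟩ := hp
  refine ⟨Sum.map id σ p, ?_⟩
  rcases p with p | p <;> rfl

private theorem bas_cl {s n : ℕ} (σ : Equiv.Perm (Fin n)) (x : (Ed s n × Ed s n) ⊕ Vx s n) :
    bG (Sum.map (fun p => (σ • p.1, σ • p.2)) (σ • ·) x) =
      (fun w : Atom phpL (Fin s ⊕ Fin n) × Bool => (w.1.act σ, w.2)) '' bG x := by
  rcases x with p | v
  · show ({(atm (σ • p.1), false), (atm (σ • p.2), false)} : Set _) = _ '' {(atm p.1, false), (atm p.2, false)}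
    rw [Set.image_pair, bas_atm, bas_atm]
  · show {x | ∃ e, Inc (σ • v) e ∧ x = (atm e, true)} = _ '' {x | ∃ e, Inc v e ∧ x = (atm e, true)}
    ext x
    constructor
    · rintro ⟨e, he, rfl⟩
      refine ⟨(atm (σ⁻¹ • e), true), ⟨σ⁻¹ • e, ?_, rfl⟩, ?_⟩
      · rw [← inc_smul σ, smul_inv_smul]
        exact he
      · show ((atm (σ⁻¹ • e)).act σ, true) = _
        rw [← bas_atm, smul_inv_smul]
    · rintro ⟨_, ⟨e, he, rfl⟩, rfl⟩
      refine ⟨σ • e, (inc_smul σ).2 he, ?_⟩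
      show ((atm e).act σ, true) = _
      rw [← bas_atm]

section Forced

variable {s n : ℕ} {D G : Set (Atom phpL (Fin s ⊕ Fin n) × Bool)} {k : ℕ}
  {φ θ : phpL.BoundedFormula Empty k} {v : Fin k → Fin s ⊕ Fin n}

private theorem f_not_true (h : Forced D G φ v false) : Forced D G (∼φ) v true := Or.inl h

private theorem f_not_false (h : Forced D G φ v true) : Forced D G (∼φ) v false := ⟨h, rfl⟩

private theorem f_inf_left (h : Forced D G φ v false) : Forced D G (φ ⊓ θ) v false :=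
  ⟨Or.inl h, rfl⟩

private theorem f_inf_right (h : Forced D G θ v false) : Forced D G (φ ⊓ θ) v false :=
  ⟨Or.inr (f_not_true h), rfl⟩

private theorem f_imp (h1 : Forced D G φ v true) (h2 : Forced D G θ v false) :
    Forced D G (φ ⟹ θ) v false := ⟨h1, h2⟩

private theorem f_all {χ : phpL.BoundedFormula Empty (k + 1)} (p : Fin s ⊕ Fin n)
    (h : Forced D G χ (Fin.snoc v p) false) : Forced D G (∀' χ) v false := ⟨p, h⟩

private theorem f_ex {χ : phpL.BoundedFormula Empty (k + 1)}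
    (h : ∀ p, Forced D G χ (Fin.snoc v p) false) : Forced D G (∃' χ) v false :=
  ⟨fun p => f_not_true (h p), rfl⟩

private theorem f_pig {t : phpL.Term (Empty ⊕ Fin k)} {b : Bool} (p : Fin s ⊕ Fin n)
    (h : tv v t = p) (hb : p.isRight = b) : Forced (pigeons s n) G (pigF t) v b := by
  left
  refine ⟨p, ?_⟩
  have h1 : (fun i => tv v ((![t] : Fin 1 → phpL.Term (Empty ⊕ Fin k)) i)) = fun _ => p := by
    funext i
    rw [Matrix.cons_val_fin_one]
    exact h
  show ((⟨1, PRel.pig, fun i => tv v ((![t] : Fin 1 → phpL.Term (Empty ⊕ Fin k)) i)⟩ :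
    Atom phpL (Fin s ⊕ Fin n)), b) = _
  rw [h1, hb]

private theorem f_sits {t u : phpL.Term (Empty ⊕ Fin k)} {b : Bool} (e : Ed s n)
    (h1 : tv v t = Sum.inr e.1) (h2 : tv v u = Sum.inl e.2) (h : (atm e, !b) ∈ G) :
    Forced D G (sitsF t u) v b := by
  right
  have h3 : (fun i => tv v ((![t, u] : Fin 2 → phpL.Term (Empty ⊕ Fin k)) i)) =
      ![Sum.inr e.1, Sum.inl e.2] := by
    funext i
    match i with
    | 0 => exact h1
    | 1 => exact h2
  show ((⟨2, PRel.sits, fun i => tv v ((![t, u] : Fin 2 → phpL.Term (Empty ⊕ Fin k)) i)⟩ :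
    Atom phpL (Fin s ⊕ Fin n)), !b) ∈ G
  rw [h3]
  exact h

end Forced

private theorem bas_pig {s n : ℕ} (v : Vx s n) (hv : sd v = true) :
    Forced (pigeons s n) (bG (.inr v)) php default false := by
  rcases v with b | a
  · cases hv
  refine f_inf_left (f_all (Sum.inr a) (f_imp (f_pig (Sum.inr a) rfl rfl) (f_ex fun p => ?_)))
  rcases p with b | c
  · refine f_inf_right (f_sits (a, b) rfl rfl ⟨(a, b), ⟨true, rfl⟩, rfl⟩)
  · exact f_inf_left (f_not_false (f_pig (Sum.inr c) rfl rfl))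

private theorem bas_hole {s n : ℕ} (v : Vx s n) (hv : sd v = false) :
    Forced (pigeons s n) (bG (.inr v)) onto default false := by
  rcases v with b | a
  swap
  · cases hv
  refine f_all (Sum.inl b) (f_imp (f_not_true (f_pig (Sum.inl b) rfl rfl)) (f_ex fun p => ?_))
  rcases p with c | a
  · exact f_inf_left (f_pig (Sum.inl c) rfl rfl)
  · refine f_inf_right (f_sits (a, b) rfl rfl ⟨(a, b), ⟨false, rfl⟩, rfl⟩)

private theorem bas_cf {s n : ℕ} {e e' : Ed s n} (h : Cf e e') :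
    Forced (pigeons s n) (bG (.inl (e, e'))) php default false := by
  obtain ⟨hne, c, hc⟩ := h
  cases c with
  | false =>
    have h2 : e.2 = e'.2 := Sum.inl_injective hc
    have h1 : e.1 ≠ e'.1 := fun h => hne (Prod.ext h h2)
    refine f_inf_right (f_inf_left (f_all (Sum.inr e.1) (f_all (Sum.inr e'.1)
      (f_all (Sum.inl e.2) ?_))))
    refine f_imp (f_pig (Sum.inr e.1) rfl rfl) (f_imp (f_pig (Sum.inr e'.1) rfl rfl)
      (f_imp (f_not_true (f_pig (Sum.inl e.2) rfl rfl)) (f_imp (f_sits e rfl rfl (Or.inl rfl))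
      (f_imp (f_sits e' rfl (congrArg Sum.inl h2) (Or.inr rfl)) ?_))))
    refine ⟨fun h => absurd h Bool.false_ne_true, fun h => ?_⟩
    exact absurd (Sum.inr_injective h) h1
  | true =>
    have h2 : e.1 = e'.1 := Sum.inr_injective hc
    have h1 : e.2 ≠ e'.2 := fun h => hne (Prod.ext h2 h)
    refine f_inf_right (f_inf_right (f_all (Sum.inr e.1) (f_all (Sum.inl e.2)
      (f_all (Sum.inl e'.2) ?_))))
    refine f_imp (f_pig (Sum.inr e.1) rfl rfl) (f_imp (f_not_true (f_pig (Sum.inl e.2) rfl rfl))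
      (f_imp (f_not_true (f_pig (Sum.inl e'.2) rfl rfl)) (f_imp (f_sits e rfl rfl (Or.inl rfl))
      (f_imp (f_sits e' (congrArg Sum.inr h2) rfl (Or.inr rfl)) ?_))))
    refine ⟨fun h => absurd h Bool.false_ne_true, fun h => ?_⟩
    exact absurd (Sum.inl_injective h) h1

private theorem bas_gen (ψ : phpL.Sentence) [HasSits ψ] (c : Bool → Prop)
    (h1 : ∀ (s n : ℕ) (e e' : Ed s n), Cf e e' → Forced (pigeons s n) (bG (.inl (e, e'))) ψ default false)
    (h2 : ∀ (s n : ℕ) (v : Vx s n), c (sd v) → Forced (pigeons s n) (bG (.inr v)) ψ default false) :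
    ∃ c' : ℕ, ∀ m s n K : ℕ, 0 < s + n →
    ∃ Ls : Set (Set (Lit (Nx ψ s n K))), GoodD ψ (pigeons s n) (pc ψ m s n K) Ls ∧
      (∀ e e', Cf e e' → LC e e' ∈ Ls) ∧ (∀ v, c (sd v) → LV v ∈ Ls) ∧
      Ls.ncard ≤ c' * (s + n) ^ c' := by
  obtain ⟨K0, hK0⟩ := Finite.bddAbove_range (ar ψ)
  have hK : ∀ s : Sh ψ, ar ψ s ≤ K0 := fun s => hK0 ⟨s, rfl⟩
  refine ⟨1 + 16 * (Nat.card (Sh ψ) + 1) ^ 2 + 4 + 2 * K0, fun m s n K hsn => ?_⟩
  let V : Set ((Ed s n × Ed s n) ⊕ Vx s n) :=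
    {x | match x with
      | .inl p => Cf p.1 p.2
      | .inr v => c (sd v)}
  obtain ⟨Ls, hg, hm, hc⟩ := kle ψ (m := m) (D := pigeons s n) bas_D bG V (by
    rintro σ (p | v) hx
    · exact ⟨.inl (σ • p.1, σ • p.2), (cf_smul σ).2 hx, bas_cl σ (.inl p)⟩
    · refine ⟨.inr (σ • v), ?_, bas_cl σ (.inr v)⟩
      show c (sd (σ • v))
      rw [sd_smul]
      exact hx) (by
    rintro (p | v) hx
    · exact h1 s n p.1 p.2 hx
    · exact h2 s n v hx)
  refine ⟨(fun Γ => mapL Nx.base '' Γ) '' Ls, ?_, ?_, ?_, ?_⟩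
  · exact goodD_map' (C₀ := circ ψ m s n) (C := pc ψ m s n K) Nx.base
      (fun a b h => by injection h) (fun _ => rfl) (fun _ _ => rfl) hg
  · intro e e' h
    exact ⟨_, hm (.inl (e, e')) h, bas_LC e e'⟩
  · intro v h
    exact ⟨_, hm (.inr v) h, bas_LV v⟩
  · have hfin : Finite (Nd ψ s n) := inferInstance
    refine (Set.ncard_image_le (Set.toFinite _)).trans (hc.trans ?_)
    have h3 := card_nd hK hsn
    have h4 : Nat.card ((Ed s n × Ed s n) ⊕ Vx s n) = (n * s) ^ 2 + (s + n) := by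
      have e1 : Nat.card (Ed s n) = n * s := by
        show Nat.card (Fin n × Fin s) = _
        rw [Nat.card_prod, Nat.card_fin, Nat.card_fin]
      have e2 : Nat.card (Vx s n) = s + n := by
        show Nat.card (Fin s ⊕ Fin n) = _
        rw [Nat.card_sum, Nat.card_fin, Nat.card_fin]
      rw [Nat.card_sum, Nat.card_prod, e1, e2]
      ring
    rw [h4]
    obtain ⟨N, hN⟩ : ∃ N, N = s + n := ⟨_, rfl⟩
    obtain ⟨A, hA⟩ : ∃ A, A = Nat.card (Sh ψ) := ⟨_, rfl⟩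
    obtain ⟨B, hB⟩ : ∃ B, B = Nat.card (Nd ψ s n) := ⟨_, rfl⟩
    have h5 : (n * s) ^ 2 ≤ N ^ 4 := by
      have : n * s ≤ N ^ 2 := by rw [hN]; nlinarith
      calc (n * s) ^ 2 ≤ (N ^ 2) ^ 2 := Nat.pow_le_pow_left this 2
        _ = N ^ 4 := by ring
    rw [← hN] at h3 hsn ⊢
    rw [← hA, ← hB] at h3 ⊢
    have h6 : N ≤ N ^ 4 := by
      calc N = N ^ 1 := (pow_one N).symm
        _ ≤ N ^ 4 := Nat.pow_le_pow_right hsn (by norm_num)
    have h7 : 1 ≤ N ^ K0 := Nat.one_le_pow _ _ hsn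
    have h8 : B + 1 ≤ (A + 1) * N ^ K0 := by nlinarith
    have h9 : (B + 1) ^ 2 ≤ ((A + 1) * N ^ K0) ^ 2 := Nat.pow_le_pow_left h8 2
    have h10 : 1 + 8 * ((n * s) ^ 2 + N) * (B + 1) ^ 2 ≤
        1 + 8 * (2 * N ^ 4) * ((A + 1) * N ^ K0) ^ 2 := by
      refine Nat.add_le_add_left (Nat.mul_le_mul (Nat.mul_le_mul_left 8 (by omega)) h9) 1
    refine h10.trans ?_
    have h11 : 1 ≤ N ^ (4 + 2 * K0) := Nat.one_le_pow _ _ hsn
    have h12 : 1 + 8 * (2 * N ^ 4) * ((A + 1) * N ^ K0) ^ 2 =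
        1 + 16 * (A + 1) ^ 2 * N ^ (4 + 2 * K0) := by
      rw [pow_add, pow_mul']
      ring
    have h13 : N ^ (4 + 2 * K0) ≤ N ^ (1 + 16 * (A + 1) ^ 2 + 4 + 2 * K0) :=
      Nat.pow_le_pow_right hsn (by omega)
    rw [h12]
    calc 1 + 16 * (A + 1) ^ 2 * N ^ (4 + 2 * K0) ≤ (1 + 16 * (A + 1) ^ 2 + 4 + 2 * K0) * N ^ (4 + 2 * K0) := by
          nlinarith
      _ ≤ _ := Nat.mul_le_mul_left _ h13

/-- The basic lines of the functional pigeonhole principle. -/
theorem basic_fun : ∃ c : ℕ, ∀ m s n K : ℕ, 0 < s + n →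
    ∃ Ls : Set (Set (Lit (Nx php s n K))), GoodD php (pigeons s n) (pc php m s n K) Ls ∧
      (∀ e e', Cf e e' → LC e e' ∈ Ls) ∧ (∀ v, sd v = true → LV v ∈ Ls) ∧
      Ls.ncard ≤ c * (s + n) ^ c :=
  bas_gen php (fun b => b = true) (fun _ _ _ _ h => bas_cf h) (fun _ _ v h => bas_pig v h)

/-- The basic lines of the bijective pigeonhole principle. -/
theorem basic_bij : ∃ c : ℕ, ∀ m s n K : ℕ, 0 < s + n →
    ∃ Ls : Set (Set (Lit (Nx phpB s n K))), GoodD phpB (pigeons s n) (pc phpB m s n K) Ls ∧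
      (∀ e e', Cf e e' → LC e e' ∈ Ls) ∧ (∀ v, LV v ∈ Ls) ∧ Ls.ncard ≤ c * (s + n) ^ c := by
  obtain ⟨c, hc⟩ := bas_gen phpB (fun _ => True) (fun _ _ _ _ h => f_inf_left (bas_cf h))
    (fun s n v _ => by
      cases hv : sd v with
      | true => exact f_inf_left (bas_pig v hv)
      | false => exact f_inf_right (bas_hole v hv))
  refine ⟨c, fun m s n K h => ?_⟩
  obtain ⟨Ls, h1, h2, h3, h4⟩ := hc m s n K h
  exact ⟨Ls, h1, h2, fun v => h3 v trivial, h4⟩

end Pool.H31.PH
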