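import Pool.Agent.H31.PH.Tot

/-!
# All lines common to the functional and the bijective pigeonhole principle
-/

set_option autoImplicit false

namespace Pool.H31.PH

open FirstOrder FirstOrder.Language Pool.H93.SY Pool.H31.SY Pool.Agent.H88.SY
open scoped Pointwise

variable {ψ : phpL.Sentence} [HasSits ψ] {s n K : ℕ}

/-- The number `T` bounds the numbers of vertices, edges, and of small sets of them. -/
structure Bd (s n K T : ℕ) : Prop where
  v : Nat.card (Vx s n) ≤ T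
  e : Nat.card (Ed s n) ≤ T
  sv : Nat.card (Sl (Vx s n) K) ≤ T
  se : Nat.card (Sl (Ed s n) K) ≤ T
  k : K + 1 ≤ T

/-- The lines: no two conflicting matchings; covering lines; a matching matches its vertices; if
all vertices of a set on one side are matched then the number of the covering matchings is `1`
modulo `m`; the vertices of the sides in `S` are matched; the numbers of the matchings with `i` edges
modulo `m`, for the sides in `S`. -/
structure Lns (Ls : Set (Set (Lit (Nx ψ s n K)))) (S : Set Bool) : Prop where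
  conf : ∀ h h' : Sl (Ed s n) K, (∃ e ∈ h.set, ∃ e' ∈ h'.set, Cf e e') →
    {Mp h false, Mp h' false} ∈ Ls
  cov : ∀ (c : Bool) (A : Sl (Vx s n) K), (∀ v ∈ A.set, sd v = c) →
    insert ⟨.y A, false⟩ (TH A) ∈ Ls
  occ : ∀ (A : Sl (Vx s n) K) (h : Sl (Ed s n) K), h ∈ HA A.set →
    {⟨.y A, true⟩, Mp h false} ∈ Ls
  yb : ∀ A : Sl (Vx s n) K, OS A.set → YB A ∈ Ls
  z : ∀ v : Vx s n, sd v ∈ S → {⟨.z v, false⟩} ∈ Ls
  y : ∀ A : Sl (Vx s n) K, OT S A.set → {⟨.y A, true⟩} ∈ Ls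
  b : ∀ A : Sl (Vx s n) K, OT S A.set → {⟨.b A, true⟩} ∈ Ls
  th : ∀ A : Sl (Vx s n) K, OT S A.set → TH A ∈ Ls
  tot : ∀ c ∈ S, ∀ i : Fin (K + 1), {⟨.tot c i, true⟩} ∈ Ls

theorem common {m : ℕ} {D : Set (Atom phpL (Fin s ⊕ Fin n) × Bool)}
    {Ls : Set (Set (Lit (Nx ψ s n K)))} (hg : GoodD ψ D (pc ψ m s n K) Ls)
    (hLC : ∀ e e', Cf e e' → LC e e' ∈ Ls) (S : Set Bool)
    (hLV : ∀ v : Vx s n, sd v ∈ S → LV v ∈ Ls) {T : ℕ} (hT : Bd s n K T) :
    ∃ Ls' : Set (Set (Lit (Nx ψ s n K))), GoodD ψ D (pc ψ m s n K) Ls' ∧ Ls ⊆ Ls' ∧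
      Lns Ls' S ∧ Ls'.ncard ≤ Ls.ncard + 250 * T ^ 4 := by
  obtain ⟨L1, g1, s1, c1, n1⟩ := conf_lines hg hLC
  obtain ⟨L2, g2, s2, c2, n2⟩ := cover_lines g1 fun e e' h => s1 (hLC e e' h)
  obtain ⟨L3, g3, s3, c3, n3⟩ := occ_lines g2
  obtain ⟨L4, g4, s4, c4, n4⟩ := single_lines g3 (fun h h' hc => s3 (s2 (c1 h h' hc)))
    fun c A hA => s3 (c2 c A hA)
  obtain ⟨L5, g5, s5, c5, c6, c7, n5⟩ := tot_lines g4 S
    (fun v hv => s4 (s3 (s2 (s1 (hLV v hv))))) (fun c A hA => s4 (s3 (c2 c A hA))) c4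
  refine ⟨L5, g5, ?_, ⟨?_, ?_, ?_, ?_, c5, fun A hA => (c6 A hA).1, fun A hA => (c6 A hA).2.1,
    fun A hA => (c6 A hA).2.2, c7⟩, ?_⟩
  · exact fun x hx => s5 (s4 (s3 (s2 (s1 hx))))
  · exact fun h h' hc => s5 (s4 (s3 (s2 (c1 h h' hc))))
  · exact fun c A hA => s5 (s4 (s3 (c2 c A hA)))
  · exact fun A h hA => s5 (s4 (c3 A h hA))
  · exact fun A hA => s5 (c4 A hA)
  · have h1 : 1 ≤ T := le_trans (Nat.le_add_left 1 K) hT.k
    have t1 : T ^ 2 ≤ T ^ 4 := Nat.pow_le_pow_right h1 (by norm_num)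
    have t2 : T ^ 3 ≤ T ^ 4 := Nat.pow_le_pow_right h1 (by norm_num)
    have t3 : T ≤ T ^ 2 := by
      calc T = T ^ 1 := (pow_one T).symm
        _ ≤ T ^ 2 := Nat.pow_le_pow_right h1 (by norm_num)
    have e1 : 3 * Nat.card (Sl (Ed s n) K) ^ 2 ≤ 3 * T ^ 4 :=
      Nat.mul_le_mul_left 3 ((Nat.pow_le_pow_left hT.se 2).trans t1)
    have e2 : Nat.card (Kd s n) ≤ 6 * T ^ 2 := by
      refine card_kd.trans ?_
      have := Nat.mul_le_mul hT.v hT.e
      have h2 := hT.v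
      have h3 := hT.e
      rw [← pow_two] at this
      omega
    have e3 : Nat.card (Sl (Vx s n) K) * (Nat.card (Sl (Ed s n) K) * Nat.card (Kd s n)) ≤
        6 * T ^ 4 := by
      calc _ ≤ T * (T * (6 * T ^ 2)) := Nat.mul_le_mul hT.sv (Nat.mul_le_mul hT.se e2)
        _ = 6 * T ^ 4 := by ring
    have e4 : Nat.card (IO s n K) ≤ 6 * T ^ 4 :=
      (card_io h1 hT.v hT.e hT.sv hT.se).trans (Nat.mul_le_mul_left 6 t2)
    have e5 : Nat.card (IS s n K) ≤ 48 * T ^ 4 := by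
      refine card_is.trans ?_
      have h2 : Nat.card (Sl (Ed s n) K) + 1 ≤ 2 * T := by
        have := hT.se
        omega
      calc 12 * Nat.card (Sl (Vx s n) K) * (Nat.card (Sl (Ed s n) K) + 1) ^ 2
          ≤ 12 * T * (2 * T) ^ 2 :=
            Nat.mul_le_mul (Nat.mul_le_mul_left 12 hT.sv) (Nat.pow_le_pow_left h2 2)
        _ = 48 * T ^ 3 := by ring
        _ ≤ 48 * T ^ 4 := Nat.mul_le_mul_left 48 t2
    have e6 : Nat.card (IT s n K) ≤ 144 * T ^ 4 := by
      refine card_it.trans ?_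
      have h2 : Nat.card (Vx s n) + 1 ≤ 2 * T := by
        have := hT.v
        omega
      have h3 : Nat.card (Sl (Vx s n) K) + 1 ≤ 2 * T := by
        have := hT.sv
        omega
      have h4 : 2 * (K + 1) + 1 ≤ 3 * T := by
        have := hT.k
        omega
      calc 12 * (Nat.card (Vx s n) + 1) * (Nat.card (Sl (Vx s n) K) + 1) * (2 * (K + 1) + 1)
          ≤ 12 * (2 * T) * (2 * T) * (3 * T) :=
            Nat.mul_le_mul (Nat.mul_le_mul (Nat.mul_le_mul_left 12 h2) h3) h4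
        _ = 144 * T ^ 3 := by ring
        _ ≤ 144 * T ^ 4 := Nat.mul_le_mul_left 144 t2
    omega

/-! ### Numbers -/

theorem card_sl (α : Type) [Fintype α] (K : ℕ) :
    Nat.card (Sl α K) ≤ (Nat.card α + 1) ^ K := by
  classical
  have h1 : Nat.card (Fin K → Option α) = (Nat.card α + 1) ^ K := by
    rw [Nat.card_fun, Finite.card_option, Nat.card_eq_fintype_card (α := Fin K), Fintype.card_fin]
  rw [← h1]
  refine Nat.card_le_card_of_injective
    (fun (h : Sl α K) (i : Fin K) => h.set.toList[(i : ℕ)]?) ?_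
  intro h h' heq
  have key : ∀ (g g' : Sl α K), (∀ i : Fin K, g.set.toList[(i : ℕ)]? = g'.set.toList[(i : ℕ)]?) →
      g.set ⊆ g'.set := by
    intro g g' hgg x hx
    rw [← Finset.mem_toList, List.mem_iff_getElem?] at hx
    obtain ⟨i, hi⟩ := hx
    have hlt : i < g.set.toList.length := (List.getElem?_eq_some_iff.1 hi).1
    rw [Finset.length_toList] at hlt
    have h2 := hgg ⟨i, hlt.trans_le g.card⟩
    rw [← Finset.mem_toList, List.mem_iff_getElem?]
    exact ⟨i, h2 ▸ hi⟩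
  exact Sl.ext (Finset.Subset.antisymm (key h h' fun i => congrFun heq i)
    (key h' h fun i => (congrFun heq i).symm))

theorem card_vx : Nat.card (Vx s n) = s + n := by
  show Nat.card (Fin s ⊕ Fin n) = s + n
  rw [Nat.card_sum, Nat.card_eq_fintype_card, Nat.card_eq_fintype_card, Fintype.card_fin,
    Fintype.card_fin]

theorem card_ed : Nat.card (Ed s n) = n * s := by
  show Nat.card (Fin n × Fin s) = n * s
  rw [Nat.card_prod, Nat.card_eq_fintype_card, Nat.card_eq_fintype_card, Fintype.card_fin,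
    Fintype.card_fin]

theorem bd (hN : 2 ≤ s + n) (hK : 1 ≤ K) : Bd s n K ((s + n) ^ (3 * K)) := by
  have h0 : 1 ≤ s + n := by omega
  have h1 : (s + n) ^ 2 + 1 ≤ (s + n) ^ 3 := by
    have h2 : (s + n) ^ 2 * 2 ≤ (s + n) ^ 2 * (s + n) := Nat.mul_le_mul_left _ hN
    have h3 : 1 ≤ (s + n) ^ 2 := Nat.one_le_pow _ _ h0
    calc (s + n) ^ 2 + 1 ≤ (s + n) ^ 2 * 2 := by omega
      _ ≤ (s + n) ^ 2 * (s + n) := h2
      _ = (s + n) ^ 3 := by ring
  have h2 : n * s ≤ (s + n) ^ 2 := by nlinarith [Nat.zero_le s, Nat.zero_le n]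
  have h3 : (s + n) ^ 3 ≤ (s + n) ^ (3 * K) := Nat.pow_le_pow_right h0 (by omega)
  have h4 : s + n + 1 ≤ (s + n) ^ 3 := by
    refine le_trans ?_ h1
    have : s + n ≤ (s + n) ^ 2 := by
      rw [pow_two]
      exact Nat.le_mul_of_pos_left _ h0
    omega
  refine ⟨?_, ?_, ?_, ?_, ?_⟩
  · rw [card_vx]
    omega
  · rw [card_ed]
    omega
  · refine (card_sl _ K).trans ?_
    rw [card_vx, pow_mul]
    exact Nat.pow_le_pow_left h4 K
  · refine (card_sl _ K).trans ?_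
    rw [card_ed, pow_mul]
    exact Nat.pow_le_pow_left (by omega) K
  · calc K + 1 ≤ 2 ^ K := Nat.lt_two_pow_self
      _ ≤ (s + n) ^ K := Nat.pow_le_pow_left hN K
      _ ≤ (s + n) ^ (3 * K) := Nat.pow_le_pow_right h0 (by omega)

omit [HasSits ψ] in
theorem card_nx {T : ℕ} (hT : Bd s n K T) :
    Nat.card (Nx ψ s n K) ≤ Nat.card (Nd ψ s n) + 13 * T ^ 2 := by
  refine (Nat.card_le_card_of_injective _ Nx.code_injective).trans ?_
  rw [Nat.card_sum, Nat.card_sum, Nat.card_sum, Nat.card_sum, Nat.card_sum, Nat.card_sum,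
    Nat.card_sum, Nat.card_sum, Nat.card_sum, Nat.card_sum, Nat.card_prod, Nat.card_prod,
    Nat.card_eq_fintype_card (α := Bool), Nat.card_eq_fintype_card (α := Fin (K + 1)),
    Fintype.card_fin, Fintype.card_bool]
  have h1 : 1 ≤ T := le_trans (Nat.le_add_left 1 K) hT.k
  have t3 : T ≤ T ^ 2 := by
    calc T = T ^ 1 := (pow_one T).symm
      _ ≤ T ^ 2 := Nat.pow_le_pow_right h1 (by norm_num)
  have e1 := Nat.mul_le_mul hT.sv hT.se
  rw [← pow_two] at e1
  have e2 := hT.v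
  have e3 := hT.e
  have e4 := hT.sv
  have e5 := hT.se
  have e6 := hT.k
  omega

end Pool.H31.PH
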