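import Pool.Agent.H31.PH.Defs

/-!
# Matchings and sets of vertices on one side
-/

set_option autoImplicit false

namespace Pool.H31.PH

variable {s n K : ℕ}

theorem sd_en (c : Bool) (e : Ed s n) : sd (en c e) = c := by
  cases c <;> rfl

theorem inc_iff {c : Bool} {v : Vx s n} (hv : sd v = c) {e : Ed s n} : Inc v e ↔ en c e = v := by
  constructor
  · rintro ⟨c', h⟩
    have h1 : c' = c := by
      rw [← sd_en c' e, h, hv]
    rw [← h1]
    exact h
  · intro h
    exact ⟨c, h⟩

theorem ha_eq {c : Bool} {A : Finset (Vx s n)} (hA : ∀ v ∈ A, sd v = c) {h : Sl (Ed s n) K}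
    (h1 : h ∈ HA A) : A = h.set.image (en c) := by
  obtain ⟨h2, h3, h4⟩ := h1
  apply Finset.eq_of_subset_of_card_le
  · intro v hv
    obtain ⟨e, he, h5⟩ := h4 v hv
    exact Finset.mem_image.2 ⟨e, he, (inc_iff (hA v hv)).1 h5⟩
  · rw [← h2]
    exact Finset.card_image_le

theorem ha_cf {c : Bool} {A : Finset (Vx s n)} (hA : ∀ v ∈ A, sd v = c) {h h' : Sl (Ed s n) K}
    (h1 : h ∈ HA A) (h2 : h' ∈ HA A) (hne : h ≠ h') :
    ∃ e ∈ h.set, ∃ e' ∈ h'.set, Cf e e' := by
  by_contra hcon
  push Not at hcon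
  apply hne
  apply Sl.ext
  apply Finset.eq_of_subset_of_card_le
  · intro e he
    have h3 : en c e ∈ A := by
      rw [ha_eq hA h1]
      exact Finset.mem_image_of_mem _ he
    obtain ⟨e', he', h4⟩ := h2.2.2 _ h3
    rw [inc_iff (sd_en c e)] at h4
    by_cases h5 : e = e'
    · rw [h5]
      exact he'
    · exact absurd ⟨h5, c, h4.symm⟩ (hcon e he e' he')
  · rw [h1.1, h2.1]

theorem ha_unique {c : Bool} {A A' : Finset (Vx s n)} (hA : ∀ v ∈ A, sd v = c)
    (hA' : ∀ v ∈ A', sd v = c) {h : Sl (Ed s n) K} (h1 : h ∈ HA A) (h2 : h ∈ HA A') : A = A' := by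
  rw [ha_eq hA h1, ha_eq hA' h2]

theorem en_inj {h : Finset (Ed s n)} (hm : Mt h) (c : Bool) :
    Set.InjOn (en c : Ed s n → Vx s n) (h : Set (Ed s n)) := by
  intro e he e' he' heq
  by_contra hne
  exact hm e (Finset.mem_coe.1 he) e' (Finset.mem_coe.1 he') ⟨hne, c, heq⟩

theorem exists_ha (c : Bool) {h : Sl (Ed s n) K} (hm : Mt h.set) :
    ∃ A : Sl (Vx s n) K, (∀ v ∈ A.set, sd v = c) ∧ A.set.card = h.set.card ∧ h ∈ HA A.set := by
  have hc : (h.set.image (en c)).card = h.set.card := Finset.card_image_of_injOn (en_inj hm c)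
  refine ⟨⟨h.set.image (en c), hc.trans_le h.card⟩, ?_, hc, hc.symm, hm, ?_⟩
  · intro v hv
    obtain ⟨e, -, rfl⟩ := Finset.mem_image.1 hv
    exact sd_en c e
  · intro v hv
    obtain ⟨e, he, rfl⟩ := Finset.mem_image.1 hv
    exact ⟨e, he, c, rfl⟩

theorem card_side (s n : ℕ) {K i : ℕ} (hi : i ≤ K) (c : Bool) :
    {A : Sl (Vx s n) K | (∀ v ∈ A.set, sd v = c) ∧ A.set.card = i}.ncard =
      (if c then n else s).choose i := by
  classical
  have key : ∀ (α : Type) [Fintype α] [DecidableEq α] (f : α → Vx s n)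
      (hf : Function.Injective f) (hs : ∀ v : Vx s n, sd v = c ↔ ∃ x, f x = v),
      {A : Sl (Vx s n) K | (∀ v ∈ A.set, sd v = c) ∧ A.set.card = i}.ncard =
        (Fintype.card α).choose i := by
    intro α _ _ f hf hs
    rw [← Finset.card_univ, ← Finset.card_powersetCard, ← Set.ncard_coe_finset]
    symm
    refine Set.ncard_congr (fun (B : Finset α) hB => (⟨B.image f, by
      rw [Finset.card_image_of_injective _ hf, (Finset.mem_powersetCard.1 (Finset.mem_coe.1 hB)).2]
      exact hi⟩ : Sl (Vx s n) K)) ?_ ?_ ?_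
    · intro B hB
      have h1 := (Finset.mem_powersetCard.1 (Finset.mem_coe.1 hB)).2
      refine ⟨?_, ?_⟩
      · intro v hv
        obtain ⟨x, -, rfl⟩ := Finset.mem_image.1 hv
        exact (hs _).2 ⟨x, rfl⟩
      · show (B.image f).card = i
        rw [Finset.card_image_of_injective _ hf, h1]
    · intro B B' hB hB' heq
      exact Finset.image_injective hf (congrArg Sl.set heq)
    · rintro A ⟨h1, h2⟩
      have h3 : (Finset.univ.filter fun x => f x ∈ A.set).image f = A.set := by
        ext v
        rw [Finset.mem_image]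
        constructor
        · rintro ⟨x, hx, rfl⟩
          exact (Finset.mem_filter.1 hx).2
        · intro hv
          obtain ⟨x, rfl⟩ := (hs v).1 (h1 v hv)
          exact ⟨x, Finset.mem_filter.2 ⟨Finset.mem_univ _, hv⟩, rfl⟩
      refine ⟨Finset.univ.filter fun x => f x ∈ A.set, ?_, Sl.ext h3⟩
      rw [Finset.mem_coe, Finset.mem_powersetCard]
      refine ⟨Finset.subset_univ _, ?_⟩
      rw [← Finset.card_image_of_injective _ hf, h3, h2]
  cases c with
  | true =>
    rw [key (Fin n) (fun x => (Sum.inr x : Fin s ⊕ Fin n)) Sum.inr_injective, Fintype.card_fin]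
    · rfl
    · intro v
      cases v with
      | inl x =>
        constructor
        · intro h
          exact absurd h (by simp [sd])
        · rintro ⟨y, hy⟩
          cases hy
      | inr x => exact ⟨fun _ => ⟨x, rfl⟩, fun _ => rfl⟩
  | false =>
    rw [key (Fin s) (fun x => (Sum.inl x : Fin s ⊕ Fin n)) Sum.inl_injective, Fintype.card_fin]
    · rfl
    · intro v
      cases v with
      | inl x => exact ⟨fun _ => ⟨x, rfl⟩, fun _ => rfl⟩
      | inr x =>
        constructor
        · intro h
          exact absurd h (by simp [sd])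
        · rintro ⟨y, hy⟩
          cases hy

theorem exists_free {c : Bool} {A : Finset (Vx s n)} {g : Finset (Ed s n)}
    (hlt : g.card < A.card) : ∃ v ∈ A, ∀ e ∈ g, en c e ≠ v := by
  by_contra hcon
  push Not at hcon
  have h1 : A ⊆ g.image (en c) := by
    intro v hv
    obtain ⟨e, he, h2⟩ := hcon v hv
    exact Finset.mem_image.2 ⟨e, he, h2⟩
  have h2 := (Finset.card_le_card h1).trans Finset.card_image_le
  omega

theorem full_ha {c : Bool} {A : Finset (Vx s n)} {g : Sl (Ed s n) K}
    (hc : g.set.card = A.card) (hm : Mt g.set) (hg : ∀ e ∈ g.set, en c e ∈ A) : g ∈ HA A := by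
  have h1 : g.set.image (en c) = A := by
    apply Finset.eq_of_subset_of_card_le
    · intro v hv
      obtain ⟨e, he, rfl⟩ := Finset.mem_image.1 hv
      exact hg e he
    · rw [Finset.card_image_of_injOn (en_inj hm c), hc]
  refine ⟨hc, hm, ?_⟩
  intro v hv
  rw [← h1] at hv
  obtain ⟨e, he, rfl⟩ := Finset.mem_image.1 hv
  exact ⟨e, he, c, rfl⟩

theorem add_edge {g : Finset (Ed s n)} (hm : Mt g) (e : Ed s n) :
    (∃ e' ∈ g, Cf e' e) ∨ Mt (insert e g) := by
  by_cases h : ∃ e' ∈ g, Cf e' e
  · exact Or.inl h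
  · right
    push Not at h
    intro f hf f' hf' hc
    rcases Finset.mem_insert.1 hf with hfe | hfg
    · rcases Finset.mem_insert.1 hf' with hfe' | hfg'
      · exact hc.1 (hfe.trans hfe'.symm)
      · obtain ⟨h1, c, h2⟩ := hc
        rw [hfe] at h1 h2
        exact h f' hfg' ⟨fun e => h1 e.symm, c, h2.symm⟩
    · rcases Finset.mem_insert.1 hf' with hfe' | hfg'
      · rw [hfe'] at hc
        exact h f hfg hc
      · exact hm f hfg f' hfg' hc

/-- A matching with more edges than there are vertices on a side does not exist. -/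
theorem card_le_of_mt {h : Finset (Ed s n)} (hm : Mt h) (c : Bool) :
    h.card ≤ if c then n else s := by
  classical
  rw [← Finset.card_image_of_injOn (en_inj hm c)]
  cases c with
  | true =>
    have h1 : h.image (en true) ⊆ (Finset.univ : Finset (Fin n)).image
        (fun x => (Sum.inr x : Vx s n)) := by
      intro v hv
      obtain ⟨e, -, rfl⟩ := Finset.mem_image.1 hv
      exact Finset.mem_image.2 ⟨e.1, Finset.mem_univ _, rfl⟩
    refine (Finset.card_le_card h1).trans (Finset.card_image_le.trans ?_)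
    rw [Finset.card_univ, Fintype.card_fin]
    exact le_rfl
  | false =>
    have h1 : h.image (en false) ⊆ (Finset.univ : Finset (Fin s)).image
        (fun x => (Sum.inl x : Vx s n)) := by
      intro v hv
      obtain ⟨e, -, rfl⟩ := Finset.mem_image.1 hv
      exact Finset.mem_image.2 ⟨e.2, Finset.mem_univ _, rfl⟩
    refine (Finset.card_le_card h1).trans (Finset.card_image_le.trans ?_)
    rw [Finset.card_univ, Fintype.card_fin]
    exact le_rfl

end Pool.H31.PH
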