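import Pool.Agent.H31.PH.Cnf
import Pool.Agent.H31.PH.Comb

/-!
# If all vertices of a set on one side are matched, one of the matchings which cover it is present
-/

set_option autoImplicit false

namespace Pool.H31.PH

open FirstOrder FirstOrder.Language Pool.H93.SY Pool.H31.SY Pool.Agent.H88.SY
open scoped Pointwise

variable {ψ : phpL.Sentence} [HasSits ψ] {s n K : ℕ}

omit [HasSits ψ] in
/-- The line of all matchings which cover `A`. -/
def TH (A : Sl (Vx s n) K) : Set (Lit (Nx ψ s n K)) := {x | ∃ h, h ∈ HA A.set ∧ x = Mp h true}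

theorem TH_smul (σ : Equiv.Perm (Fin n)) (A : Sl (Vx s n) K) :
    (TH (σ • A) : Set (Lit (Nx ψ s n K))) = σ • TH A :=
  mset_smul σ true fun _ => (ha_smul σ).symm

/-- The vertices of `A` are not matched. -/
def ZT (A : Sl (Vx s n) K) : Set (Lit (Nx ψ s n K)) := {x | ∃ v ∈ A.set, x = ⟨.z v, true⟩}

theorem ZT_smul (σ : Equiv.Perm (Fin n)) (A : Sl (Vx s n) K) :
    (ZT (σ • A) : Set (Lit (Nx ψ s n K))) = σ • ZT A := by
  apply smul_set_of
  intro x
  constructor
  · rintro ⟨v, hv, rfl⟩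
    exact ⟨σ • v, mem_smul_sl.2 ⟨v, hv, rfl⟩, rfl⟩
  · rintro ⟨v, hv, hx⟩
    obtain ⟨w, hw, rfl⟩ := mem_smul_sl.1 hv
    exact ⟨w, hw, MulAction.injective σ hx⟩

theorem neg_image_y (A : Sl (Vx s n) K) :
    Lit.neg '' {x : Lit (Nx ψ s n K) | ∃ v ∈ A.set, x = ⟨.z v, false⟩} = ZT A := by
  ext x
  constructor
  · rintro ⟨_, ⟨v, hv, rfl⟩, rfl⟩
    exact ⟨v, hv, rfl⟩
  · rintro ⟨v, hv, rfl⟩
    exact ⟨⟨.z v, false⟩, ⟨v, hv, rfl⟩, rfl⟩

/-- The kinds of lines. -/
inductive Kd (s n : ℕ) : Type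
  | k5
  | k4 (e : Ed s n)
  | k6 (v : Vx s n) (e : Ed s n)
  | k7 (v : Vx s n)
  | k8 (v : Vx s n)
  | k9 (v : Vx s n)

/-- The kinds as a sum type. -/
def Kd.code : Kd s n → Unit ⊕ Ed s n ⊕ (Vx s n × Ed s n) ⊕ Vx s n ⊕ Vx s n ⊕ Vx s n
  | .k5 => .inl ()
  | .k4 e => .inr (.inl e)
  | .k6 v e => .inr (.inr (.inl (v, e)))
  | .k7 v => .inr (.inr (.inr (.inl v)))
  | .k8 v => .inr (.inr (.inr (.inr (.inl v))))
  | .k9 v => .inr (.inr (.inr (.inr (.inr v))))

theorem Kd.code_injective : Function.Injective (Kd.code : Kd s n → _) := by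
  intro x y h
  cases x <;> cases y <;> simp_all [Kd.code]

instance : Finite (Kd s n) := Finite.of_injective Kd.code Kd.code_injective

theorem card_kd : Nat.card (Kd s n) ≤
    1 + Nat.card (Ed s n) + Nat.card (Vx s n) * Nat.card (Ed s n) + 3 * Nat.card (Vx s n) := by
  refine (Nat.card_le_card_of_injective _ Kd.code_injective).trans ?_
  rw [Nat.card_sum, Nat.card_sum, Nat.card_sum, Nat.card_sum, Nat.card_sum, Nat.card_prod,
    Nat.card_unique]
  omega

/-- Permutation of a kind. -/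
def Kd.act (σ : Equiv.Perm (Fin n)) : Kd s n → Kd s n
  | .k5 => .k5
  | .k4 e => .k4 (σ • e)
  | .k6 v e => .k6 (σ • v) (σ • e)
  | .k7 v => .k7 (σ • v)
  | .k8 v => .k8 (σ • v)
  | .k9 v => .k9 (σ • v)

/-- The line of `A` and `g`. -/
def LL (A : Sl (Vx s n) K) (g : Sl (Ed s n) K) : Set (Lit (Nx ψ s n K)) :=
  insert ⟨.y A, false⟩ (NE g.set ∪ TH A)

theorem LL_smul (σ : Equiv.Perm (Fin n)) (A : Sl (Vx s n) K) (g : Sl (Ed s n) K) :
    (LL (σ • A) (σ • g) : Set (Lit (Nx ψ s n K))) = σ • LL A g := by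
  unfold LL
  rw [Set.smul_set_insert, Set.smul_set_union, NE_smul, TH_smul]
  rfl

/-- The lines. -/
def FV (ψ : phpL.Sentence) [HasSits ψ] {s n K : ℕ} :
    Sl (Vx s n) K × Sl (Ed s n) K × Kd s n → Set (Lit (Nx ψ s n K))
  | (A, g, .k5) => LL A g
  | (A, g, .k4 e) => insert (R e) (LL A g)
  | (A, g, .k6 v e) => insert (R e).neg (insert ⟨.z v, true⟩ (LL A g))
  | (A, g, .k7 v) => insert ⟨.z v, true⟩ (LL A g)
  | (A, g, .k8 v) => insert ⟨.z v, false⟩ (LL A g) ∪ ZT A
  | (A, g, .k9 v) => insert ⟨.z v, false⟩ (LL A g)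

/-- The ranks. -/
def rV : Sl (Vx s n) K × Sl (Ed s n) K × Kd s n → ℕ
  | (_, g, .k5) => 6 * (K - g.set.card) + 2
  | (_, _, .k4 _) => 0
  | (_, g, .k6 _ _) => 6 * (K - g.set.card)
  | (_, g, .k7 _) => 6 * (K - g.set.card) + 1
  | (_, g, .k8 _) => 6 * (K - g.set.card)
  | (_, g, .k9 _) => 6 * (K - g.set.card) + 1

/-- The condition on a kind. -/
def Kd.Ok (c : Bool) (A : Finset (Vx s n)) (g : Finset (Ed s n)) : Kd s n → Prop
  | .k5 => True
  | .k4 e => e ∈ g
  | .k6 v e => g.card < A.card ∧ v ∈ A ∧ (∀ e' ∈ g, en c e' ≠ v) ∧ en c e = v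
  | .k7 v => g.card < A.card ∧ v ∈ A ∧ ∀ e' ∈ g, en c e' ≠ v
  | .k8 v => v ∈ A
  | .k9 v => v ∈ A

/-- The valid indices. -/
def JV (s n K : ℕ) : Set (Sl (Vx s n) K × Sl (Ed s n) K × Kd s n) :=
  {t | ∃ c, (∀ v ∈ t.1.set, sd v = c) ∧ Mt t.2.1.set ∧ (∀ e ∈ t.2.1.set, en c e ∈ t.1.set) ∧
    t.2.2.Ok c t.1.set t.2.1.set}

theorem neg_image_z (v : Vx s n) :
    Lit.neg '' {x : Lit (Nx ψ s n K) | ∃ e, Inc v e ∧ x = (R e).neg} = LV v := by
  ext x
  constructor
  · rintro ⟨_, ⟨e, he, rfl⟩, rfl⟩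
    exact ⟨e, he, neg_neg _⟩
  · rintro ⟨e, he, rfl⟩
    exact ⟨(R e).neg, ⟨e, he, rfl⟩, neg_neg _⟩

theorem jv_act (σ : Equiv.Perm (Fin n)) {A : Sl (Vx s n) K} {g : Sl (Ed s n) K} {k : Kd s n}
    (h : (A, g, k) ∈ JV s n K) : (σ • A, σ • g, k.act σ) ∈ JV s n K := by
  obtain ⟨c, h1, h2, h3, h4⟩ := h
  have hfree : ∀ v : Vx s n, (∀ e' ∈ g.set, en c e' ≠ v) →
      ∀ e' ∈ (σ • g).set, en c e' ≠ σ • v := by
    intro v hv e' he' heq
    obtain ⟨f, hf, rfl⟩ := mem_smul_sl.1 he'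
    rw [en_smul] at heq
    exact hv f hf (MulAction.injective σ heq)
  have hmem : ∀ v : Vx s n, v ∈ A.set → σ • v ∈ (σ • A).set := fun v hv =>
    mem_smul_sl.2 ⟨v, hv, rfl⟩
  have hcard : g.set.card < A.set.card → (σ • g).set.card < (σ • A).set.card := by
    intro h
    rwa [card_smul_sl, card_smul_sl]
  refine ⟨c, side_smul σ h1, (mt_smul σ).2 h2, ?_, ?_⟩
  · intro e he
    obtain ⟨f, hf, rfl⟩ := mem_smul_sl.1 he
    show en c (σ • f) ∈ (σ • A).set
    rw [en_smul]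
    exact hmem _ (h3 f hf)
  · cases k with
    | k5 => trivial
    | k4 e => exact mem_smul_sl.2 ⟨e, h4, rfl⟩
    | k6 v e =>
      refine ⟨hcard h4.1, hmem v h4.2.1, hfree v h4.2.2.1, ?_⟩
      show en c (σ • e) = σ • v
      rw [en_smul, h4.2.2.2]
    | k7 v => exact ⟨hcard h4.1, hmem v h4.2.1, hfree v h4.2.2⟩
    | k8 v => exact hmem v h4
    | k9 v => exact hmem v h4

theorem FV_act (σ : Equiv.Perm (Fin n)) (A : Sl (Vx s n) K) (g : Sl (Ed s n) K) (k : Kd s n) :
    FV ψ (σ • A, σ • g, k.act σ) = σ • FV ψ (A, g, k) := by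
  have hz : ∀ (v : Vx s n) (b : Bool),
      (⟨.z (σ • v), b⟩ : Lit (Nx ψ s n K)) = σ • (⟨.z v, b⟩ : Lit (Nx ψ s n K)) :=
    fun _ _ => rfl
  cases k with
  | k5 => exact LL_smul σ A g
  | k4 e =>
    show insert (R (σ • e)) (LL (σ • A) (σ • g)) = σ • insert (R e) (LL A g)
    rw [Set.smul_set_insert, LL_smul, R_smul]
  | k6 v e =>
    show insert (R (σ • e)).neg (insert ⟨.z (σ • v), true⟩ (LL (σ • A) (σ • g))) =
      σ • insert (R e).neg (insert ⟨.z v, true⟩ (LL A g))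
    rw [Set.smul_set_insert, Set.smul_set_insert, LL_smul, R_smul, hz, SY.smul_neg]
  | k7 v =>
    show insert ⟨.z (σ • v), true⟩ (LL (σ • A) (σ • g)) = σ • insert ⟨.z v, true⟩ (LL A g)
    rw [Set.smul_set_insert, LL_smul, hz]
  | k8 v =>
    show insert ⟨.z (σ • v), false⟩ (LL (σ • A) (σ • g)) ∪ ZT (σ • A) =
      σ • (insert ⟨.z v, false⟩ (LL A g) ∪ ZT A)
    rw [Set.smul_set_union, Set.smul_set_insert, LL_smul, ZT_smul, hz]
  | k9 v =>
    show insert ⟨.z (σ • v), false⟩ (LL (σ • A) (σ • g)) = σ • insert ⟨.z v, false⟩ (LL A g)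
    rw [Set.smul_set_insert, LL_smul, hz]

theorem cover_lines {m : ℕ} {D : Set (Atom phpL (Fin s ⊕ Fin n) × Bool)}
    {Ls : Set (Set (Lit (Nx ψ s n K)))} (hg : GoodD ψ D (pc ψ m s n K) Ls)
    (hLC : ∀ e e', Cf e e' → LC e e' ∈ Ls) :
    ∃ Ls' : Set (Set (Lit (Nx ψ s n K))), GoodD ψ D (pc ψ m s n K) Ls' ∧ Ls ⊆ Ls' ∧
      (∀ (c : Bool) (A : Sl (Vx s n) K), (∀ v ∈ A.set, sd v = c) →
        insert ⟨.y A, false⟩ (TH A) ∈ Ls') ∧
      Ls'.ncard ≤ Ls.ncard +
        Nat.card (Sl (Vx s n) K) * (Nat.card (Sl (Ed s n) K) * Nat.card (Kd s n)) := by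
  have key : GoodD ψ D (pc ψ m s n K) (Ls ∪ FV ψ '' JV s n K) := by
    refine goodD_family (C := pc ψ m s n K) (FV ψ) (JV s n K) rV hg ?_ ?_
    · rintro σ ⟨A, g, k⟩ ht
      exact ⟨_, jv_act σ ht, FV_act σ A g k⟩
    · rintro ⟨A, g, k⟩ ⟨c, h1, h2, h3, h4⟩
      have h1' : ∀ v ∈ A.set, sd v = c := h1
      have h2' : Mt g.set := h2
      have h3' : ∀ e ∈ g.set, en c e ∈ A.set := h3
      cases k with
      | k5 =>
        rcases Nat.lt_or_ge g.set.card A.set.card with hlt | hge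
        · obtain ⟨v, hv, hfree⟩ := exists_free (c := c) hlt
          refine .cut (a := (.z v : Nx ψ s n K)) ?_ ?_
          · refine Or.inr ⟨(A, g, .k7 v), ⟨c, h1, h2, h3, hlt, hv, hfree⟩, ?_, rfl⟩
            show 6 * (K - g.set.card) + 1 < 6 * (K - g.set.card) + 2
            omega
          · refine Or.inr ⟨(A, g, .k9 v), ⟨c, h1, h2, h3, hv⟩, ?_, rfl⟩
            show 6 * (K - g.set.card) + 1 < 6 * (K - g.set.card) + 2
            omega
        · have hcard : g.set.card = A.set.card := by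
            refine le_antisymm ?_ hge
            rw [← Finset.card_image_of_injOn (en_inj h2' c)]
            apply Finset.card_le_card
            intro v hv
            obtain ⟨e, he, rfl⟩ := Finset.mem_image.1 hv
            exact h3' e he
          have hfull : g ∈ HA A.set := full_ha hcard h2' h3'
          refine .andI (a := (.M g : Nx ψ s n K))
            (S := {x | ∃ e ∈ g.set, x = R e}) rfl (Or.inr (Or.inr ⟨_, hfull, rfl⟩)) ?_
          rintro x ⟨e, he, rfl⟩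
          refine Or.inr ⟨(A, g, .k4 e), ⟨c, h1, h2, h3, he⟩, ?_, rfl⟩
          show 0 < 6 * (K - g.set.card) + 2
          omega
      | k4 e =>
        exact .ident (a := (.base (nod e) : Nx ψ s n K)) (b := (.base (nod e) : Nx ψ s n K)) rfl
          (Or.inl rfl) (Or.inr (Or.inr (Or.inl ⟨e, h4, rfl⟩)))
      | k6 v e =>
        obtain ⟨hlt, hv, hfree, hev⟩ := h4
        rcases add_edge h2' e with ⟨e', he', hc⟩ | hm
        · refine .weak (Or.inl (hLC e' e hc)) ?_
          rintro x (rfl | hx)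
          · exact Or.inr (Or.inr (Or.inr (Or.inl ⟨e', he', rfl⟩)))
          · obtain rfl : x = _ := hx
            exact Or.inl rfl
        · have heg : e ∉ g.set := fun h => hfree e h hev
          have hcard : (insert e g.set).card = g.set.card + 1 := Finset.card_insert_of_notMem heg
          have hlt' : g.set.card < A.set.card := hlt
          have hAK : A.set.card ≤ K := A.card
          have hle : (insert e g.set).card ≤ K := by omega
          refine .weak (Δ := LL A ⟨insert e g.set, hle⟩) (Or.inr ⟨(A, ⟨insert e g.set, hle⟩, .k5),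
            ⟨c, h1, hm, ?_, trivial⟩, ?_, rfl⟩) ?_
          · intro f hf
            rcases Finset.mem_insert.1 hf with rfl | hf
            · show en c f ∈ A.set
              rw [hev]
              exact hv
            · exact h3' f hf
          · show 6 * (K - (insert e g.set).card) + 2 < 6 * (K - g.set.card)
            rw [hcard]
            omega
          · rintro x (rfl | ⟨f, hf, rfl⟩ | hx)
            · exact Or.inr (Or.inr (Or.inl rfl))
            · rcases Finset.mem_insert.1 hf with rfl | hf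
              · exact Or.inl rfl
              · exact Or.inr (Or.inr (Or.inr (Or.inl ⟨f, hf, rfl⟩)))
            · exact Or.inr (Or.inr (Or.inr (Or.inr hx)))
      | k7 v =>
        obtain ⟨hlt, hv, hfree⟩ := h4
        refine .andI (a := (.z v : Nx ψ s n K)) (S := {x | ∃ e, Inc v e ∧ x = (R e).neg}) rfl
          (Or.inl rfl) ?_
        rintro x ⟨e, he, rfl⟩
        refine Or.inr ⟨(A, g, .k6 v e), ⟨c, h1, h2, h3, hlt, hv, hfree,
          (inc_iff (h1' v hv)).1 he⟩, ?_, rfl⟩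
        show 6 * (K - g.set.card) < 6 * (K - g.set.card) + 1
        omega
      | k8 v =>
        exact .ident (a := (.z v : Nx ψ s n K)) (b := (.z v : Nx ψ s n K)) rfl
          (Or.inr ⟨v, h4, rfl⟩) (Or.inl (Or.inl rfl))
      | k9 v =>
        refine .andE (a := (.y A : Nx ψ s n K)) (S := {x | ∃ v ∈ A.set, x = ⟨.z v, false⟩}) rfl
          (Or.inr (Or.inl rfl)) (Or.inr ⟨(A, g, .k8 v), ⟨c, h1, h2, h3, h4⟩, ?_, ?_⟩)
        · show 6 * (K - g.set.card) < 6 * (K - g.set.card) + 1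
          omega
        · exact congrArg (fun T => insert (⟨.z v, false⟩ : Lit (Nx ψ s n K)) (LL A g) ∪ T)
            (neg_image_y A)
  refine ⟨_, key, Set.subset_union_left, ?_, ?_⟩
  · intro c A hA
    refine Or.inr ⟨(A, ⟨∅, Nat.zero_le _⟩, .k5), ⟨c, hA, ?_, ?_, trivial⟩, ?_⟩
    · intro e he
      exact absurd he (Finset.notMem_empty _)
    · intro e he
      exact absurd he (Finset.notMem_empty _)
    · show insert ⟨.y A, false⟩ (NE ∅ ∪ TH A) = insert ⟨.y A, false⟩ (TH A)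
      have h0 : (NE ∅ : Set (Lit (Nx ψ s n K))) = ∅ := by
        ext x
        constructor
        · rintro ⟨e, he, -⟩
          exact absurd he (Finset.notMem_empty _)
        · intro hx
          exact absurd hx (Set.notMem_empty _)
      rw [h0, Set.empty_union]
  · refine (Set.ncard_union_le _ _).trans (Nat.add_le_add_left ?_ _)
    refine (ncard_family (C := pc ψ m s n K) (FV ψ) (JV s n K)).trans ?_
    rw [Nat.card_prod, Nat.card_prod]

end Pool.H31.PH
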