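import Pool.Agent.H31.PH.Fam
import Pool.Agent.H88.SY.PhpModel

set_option autoImplicit false

/-!
# The circuit of the short symmetric refutations of the pigeonhole principle

The edges are the pairs (pigeon, hole), the vertices are the pigeons and the holes. For every set
`h` of at most `K` edges there is a node `M h` (all edges of `h` are present). If all vertices of a
set `A` on one side are matched then exactly one `M h` with `h ∈ HA A` is true.
-/

namespace Pool.H31.PH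

open FirstOrder FirstOrder.Language Pool.H93.SY Pool.H31.SY Pool.Agent.H88.SY
open scoped Pointwise

/-- The relation `sits` occurs in the sentence. -/
class HasSits (ψ : phpL.Sentence) : Prop where
  mem : ∃ (j : ℕ) (ts : Fin 2 → phpL.Term (Empty ⊕ Fin j)),
    (⟨j, .rel (PRel.sits : phpL.Relations 2) ts⟩ : Σ k : ℕ, phpL.BoundedFormula Empty k) ∈
      subf ψ

/-! ### Edges, vertices, matchings -/

/-- The edges: pigeon, hole. -/
def Ed (s n : ℕ) : Type := Fin n × Fin s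

/-- The vertices: holes and pigeons. -/
def Vx (s n : ℕ) : Type := Fin s ⊕ Fin n

instance (s n : ℕ) : DecidableEq (Ed s n) := inferInstanceAs (DecidableEq (Fin n × Fin s))
instance (s n : ℕ) : Fintype (Ed s n) := inferInstanceAs (Fintype (Fin n × Fin s))
instance (s n : ℕ) : DecidableEq (Vx s n) := inferInstanceAs (DecidableEq (Fin s ⊕ Fin n))
instance (s n : ℕ) : Fintype (Vx s n) := inferInstanceAs (Fintype (Fin s ⊕ Fin n))

instance (s n : ℕ) : MulAction (Equiv.Perm (Fin n)) (Ed s n) where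
  smul σ e := (σ e.1, e.2)
  one_smul _ := rfl
  mul_smul _ _ _ := rfl

instance (s n : ℕ) : MulAction (Equiv.Perm (Fin n)) (Vx s n) where
  smul σ v := pm σ v
  one_smul v := pm_one v
  mul_smul g h v := pm_mul g h v

/-- The end of an edge: the pigeon (`true`), the hole (`false`). -/
def en {s n : ℕ} : Bool → Ed s n → Vx s n
  | true, e => Sum.inr e.1
  | false, e => Sum.inl e.2

/-- The side of a vertex. -/
def sd {s n : ℕ} (v : Vx s n) : Bool := Sum.isRight v

/-- `v` is an end of `e`. -/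
def Inc {s n : ℕ} (v : Vx s n) (e : Ed s n) : Prop := ∃ c, en c e = v

/-- Two different edges with a common end. -/
def Cf {s n : ℕ} (e e' : Ed s n) : Prop := e ≠ e' ∧ ∃ c, en c e = en c e'

/-- Matchings. -/
def Mt {s n : ℕ} (h : Finset (Ed s n)) : Prop := ∀ e ∈ h, ∀ e' ∈ h, ¬ Cf e e'

/-- Sets with at most `K` elements. -/
@[ext] structure Sl (α : Type) (K : ℕ) where
  /-- the set -/
  set : Finset α
  card : set.card ≤ K

instance (α : Type) [Finite α] (K : ℕ) : Finite (Sl α K) :=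
  Finite.of_injective Sl.set fun _ _ h => Sl.ext h

instance (α : Type) [DecidableEq α] {G : Type} [Group G] [MulAction G α] (K : ℕ) :
    MulAction G (Sl α K) where
  smul g h := ⟨h.set.image (g • ·), Finset.card_image_le.trans h.card⟩
  one_smul h := Sl.ext (by
    show h.set.image ((1 : G) • ·) = h.set
    simp)
  mul_smul g g' h := Sl.ext (by
    show h.set.image ((g * g') • ·) = (h.set.image (g' • ·)).image (g • ·)
    rw [Finset.image_image]
    congr 1
    funext x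
    exact mul_smul g g' x)

theorem mem_smul_sl {α : Type} [DecidableEq α] {G : Type} [Group G] [MulAction G α] {K : ℕ}
    {g : G} {h : Sl α K} {x : α} : x ∈ (g • h).set ↔ ∃ y ∈ h.set, g • y = x :=
  Finset.mem_image

theorem card_smul_sl {α : Type} [DecidableEq α] {G : Type} [Group G] [MulAction G α] {K : ℕ}
    (g : G) (h : Sl α K) : (g • h).set.card = h.set.card :=
  Finset.card_image_of_injective _ (MulAction.injective g)

/-- The matchings with as many edges as `A` has elements which cover `A`. -/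
def HA {s n K : ℕ} (A : Finset (Vx s n)) : Set (Sl (Ed s n) K) :=
  {h | h.set.card = A.card ∧ Mt h.set ∧ ∀ v ∈ A, ∃ e ∈ h.set, Inc v e}

variable {s n K : ℕ}

theorem en_smul (σ : Equiv.Perm (Fin n)) (c : Bool) (e : Ed s n) : en c (σ • e) = σ • en c e := by
  cases c <;> rfl

theorem sd_smul (σ : Equiv.Perm (Fin n)) (v : Vx s n) : sd (σ • v) = sd v := by
  rcases v with v | v <;> rfl

theorem inc_smul (σ : Equiv.Perm (Fin n)) {v : Vx s n} {e : Ed s n} :
    Inc (σ • v) (σ • e) ↔ Inc v e := by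
  refine exists_congr fun c => ?_
  rw [en_smul]
  exact (MulAction.injective σ).eq_iff

theorem cf_smul (σ : Equiv.Perm (Fin n)) {e e' : Ed s n} :
    Cf (σ • e) (σ • e') ↔ Cf e e' := by
  unfold Cf
  rw [(MulAction.injective σ).ne_iff]
  refine and_congr_right fun _ => exists_congr fun c => ?_
  rw [en_smul, en_smul]
  exact (MulAction.injective σ).eq_iff

theorem mt_smul (σ : Equiv.Perm (Fin n)) {h : Sl (Ed s n) K} :
    Mt (σ • h).set ↔ Mt h.set := by
  constructor
  · intro h1 e he e' he' hc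
    exact h1 _ (mem_smul_sl.2 ⟨e, he, rfl⟩) _ (mem_smul_sl.2 ⟨e', he', rfl⟩)
      ((cf_smul σ).2 hc)
  · intro h1 e he e' he' hc
    obtain ⟨f, hf, rfl⟩ := mem_smul_sl.1 he
    obtain ⟨f', hf', rfl⟩ := mem_smul_sl.1 he'
    exact h1 f hf f' hf' ((cf_smul σ).1 hc)

theorem ha_smul (σ : Equiv.Perm (Fin n)) {A : Sl (Vx s n) K} {h : Sl (Ed s n) K} :
    σ • h ∈ HA (σ • A).set ↔ h ∈ HA A.set := by
  constructor
  · rintro ⟨h0, h1, h2⟩
    refine ⟨?_, (mt_smul σ).1 h1, fun v hv => ?_⟩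
    · rwa [card_smul_sl, card_smul_sl] at h0
    obtain ⟨e, he, h3⟩ := h2 (σ • v) (mem_smul_sl.2 ⟨v, hv, rfl⟩)
    obtain ⟨f, hf, rfl⟩ := mem_smul_sl.1 he
    exact ⟨f, hf, (inc_smul σ).1 h3⟩
  · rintro ⟨h0, h1, h2⟩
    refine ⟨?_, (mt_smul σ).2 h1, fun v hv => ?_⟩
    · rwa [card_smul_sl, card_smul_sl]
    obtain ⟨w, hw, rfl⟩ := mem_smul_sl.1 hv
    obtain ⟨e, he, h3⟩ := h2 w hw
    exact ⟨σ • e, mem_smul_sl.2 ⟨e, he, rfl⟩, (inc_smul σ).2 h3⟩

/-! ### The nodes -/

/-- The nodes: instances of the subformulas of `ψ`, and the nodes of the argument. -/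
inductive Nx (ψ : phpL.Sentence) (s n K : ℕ) : Type
  | base (a : Nd ψ s n)
  | M (h : Sl (Ed s n) K)
  | m1 (h : Sl (Ed s n) K)
  | m0 (h : Sl (Ed s n) K)
  | z (v : Vx s n)
  | q (A : Sl (Vx s n) K)
  | b (A : Sl (Vx s n) K)
  | y (A : Sl (Vx s n) K)
  | p (A : Sl (Vx s n) K) (h : Sl (Ed s n) K)
  | r (c : Bool) (i : Fin (K + 1))
  | tot (c : Bool) (i : Fin (K + 1))

variable {ψ : phpL.Sentence}

instance : MulAction (Equiv.Perm (Fin n)) (Nx ψ s n K) where
  smul σ x := match x with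
    | .base a => .base (σ • a)
    | .M h => .M (σ • h)
    | .m1 h => .m1 (σ • h)
    | .m0 h => .m0 (σ • h)
    | .z v => .z (σ • v)
    | .q A => .q (σ • A)
    | .b A => .b (σ • A)
    | .y A => .y (σ • A)
    | .p A h => .p (σ • A) (σ • h)
    | .r c i => .r c i
    | .tot c i => .tot c i
  one_smul x := by
    cases x with
    | base a => exact congrArg Nx.base (one_smul _ a)
    | M h => exact congrArg Nx.M (one_smul _ h)
    | m1 h => exact congrArg Nx.m1 (one_smul _ h)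
    | m0 h => exact congrArg Nx.m0 (one_smul _ h)
    | z v => exact congrArg Nx.z (one_smul _ v)
    | q A => exact congrArg Nx.q (one_smul _ A)
    | b A => exact congrArg Nx.b (one_smul _ A)
    | y A => exact congrArg Nx.y (one_smul _ A)
    | p A h => exact congrArg₂ Nx.p (one_smul _ A) (one_smul _ h)
    | r c i => rfl
    | tot c i => rfl
  mul_smul g g' x := by
    cases x with
    | base a => exact congrArg Nx.base (mul_smul g g' a)
    | M h => exact congrArg Nx.M (mul_smul g g' h)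
    | m1 h => exact congrArg Nx.m1 (mul_smul g g' h)
    | m0 h => exact congrArg Nx.m0 (mul_smul g g' h)
    | z v => exact congrArg Nx.z (mul_smul g g' v)
    | q A => exact congrArg Nx.q (mul_smul g g' A)
    | b A => exact congrArg Nx.b (mul_smul g g' A)
    | y A => exact congrArg Nx.y (mul_smul g g' A)
    | p A h => exact congrArg₂ Nx.p (mul_smul g g' A) (mul_smul g g' h)
    | r c i => rfl
    | tot c i => rfl

/-- The nodes as a sum type. -/
def Nx.code : Nx ψ s n K → Nd ψ s n ⊕ Sl (Ed s n) K ⊕ Sl (Ed s n) K ⊕ Sl (Ed s n) K ⊕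
    Vx s n ⊕ Sl (Vx s n) K ⊕ Sl (Vx s n) K ⊕ Sl (Vx s n) K ⊕ (Sl (Vx s n) K × Sl (Ed s n) K) ⊕
    (Bool × Fin (K + 1)) ⊕ (Bool × Fin (K + 1))
  | .base a => .inl a
  | .M h => .inr (.inl h)
  | .m1 h => .inr (.inr (.inl h))
  | .m0 h => .inr (.inr (.inr (.inl h)))
  | .z v => .inr (.inr (.inr (.inr (.inl v))))
  | .q A => .inr (.inr (.inr (.inr (.inr (.inl A)))))
  | .b A => .inr (.inr (.inr (.inr (.inr (.inr (.inl A))))))
  | .y A => .inr (.inr (.inr (.inr (.inr (.inr (.inr (.inl A)))))))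
  | .p A h => .inr (.inr (.inr (.inr (.inr (.inr (.inr (.inr (.inl (A, h)))))))))
  | .r c i => .inr (.inr (.inr (.inr (.inr (.inr (.inr (.inr (.inr (.inl (c, i))))))))))
  | .tot c i => .inr (.inr (.inr (.inr (.inr (.inr (.inr (.inr (.inr (.inr (c, i))))))))))

theorem Nx.code_injective : Function.Injective (Nx.code : Nx ψ s n K → _) := by
  intro x y h
  cases x <;> cases y <;> simp_all [Nx.code]

instance : Finite (Nx ψ s n K) := Finite.of_injective Nx.code Nx.code_injective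

/-- The atom `sits a b` of an edge. -/
def atm (e : Ed s n) : Atom phpL (Fin s ⊕ Fin n) :=
  ⟨2, PRel.sits, ![Sum.inr e.1, Sum.inl e.2]⟩

variable [HasSits ψ]

/-- The node of the atom of an edge. -/
def nod (e : Ed s n) : Nd ψ s n :=
  ⟨some (.inl ⟨⟨2, PRel.sits⟩, HasSits.mem⟩), ![Sum.inr e.1, Sum.inl e.2]⟩

/-- The signed node of an edge. -/
def R (e : Ed s n) : Lit (Nx ψ s n K) := ⟨.base (nod e), true⟩

theorem nod_smul (σ : Equiv.Perm (Fin n)) (e : Ed s n) :
    (nod (σ • e) : Nd ψ s n) = σ • nod e := by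
  have key : ∀ j : Fin 2, (![Sum.inr (σ e.1), Sum.inl e.2] : Fin 2 → Fin s ⊕ Fin n) j =
      pm σ ((![Sum.inr e.1, Sum.inl e.2] : Fin 2 → Fin s ⊕ Fin n) j) := by
    intro j
    match j with
    | 0 => rfl
    | 1 => rfl
  exact nd_ext key

theorem R_smul (σ : Equiv.Perm (Fin n)) (e : Ed s n) :
    (R (σ • e) : Lit (Nx ψ s n K)) = σ • R e := by
  show (⟨.base (nod (σ • e)), true⟩ : Lit (Nx ψ s n K)) = ⟨.base (σ • nod e), true⟩
  rw [nod_smul]

/-- Signed nodes under a map. -/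
def mapL {N N' : Type} (f : N → N') (x : Lit N) : Lit N' := ⟨f x.node, x.pos⟩

/-- Labels under a map of the nodes. -/
def mapG {V N N' : Type} {m : ℕ} (f : N → N') : Gate V N m → Gate V N' m
  | .var v => .var v
  | .and S => .and (mapL f '' S)
  | .mod c S => .mod c (mapL f '' S)

omit [HasSits ψ] in
/-- The set of the nodes in the conjunction `p A h`. -/
def TP (A : Sl (Vx s n) K) (h : Sl (Ed s n) K) : Set (Nx ψ s n K) :=
  {x | x = .m1 h ∨ ∃ h' ∈ HA A.set, h' ≠ h ∧ x = .m0 h'}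

/-- The set of the nodes in the conjunction `r c i`. -/
def TR (c : Bool) (i : ℕ) : Set (Nx ψ s n K) :=
  {x | ∃ A : Sl (Vx s n) K, ((∀ v ∈ A.set, sd v = c) ∧ A.set.card = i) ∧ x = .b A}

/-- The label of a node. -/
noncomputable def gx (m : ℕ) : Nx ψ s n K → Gate (Atom phpL (Fin s ⊕ Fin n)) (Nx ψ s n K) m
  | .base a => mapG Nx.base (gateN ψ m a)
  | .M h => .and {x | ∃ e ∈ h.set, x = R e}
  | .m1 h => .mod 1 {⟨.M h, true⟩}
  | .m0 h => .mod 0 {⟨.M h, true⟩}
  | .z v => .and {x | ∃ e, Inc v e ∧ x = (R e).neg}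
  | .q A => .and {x | ∃ h ∈ HA A.set, x = ⟨.M h, false⟩}
  | .b A => .mod 1 {x | ∃ h ∈ HA A.set, x = ⟨.M h, true⟩}
  | .y A => .and {x | ∃ v ∈ A.set, x = ⟨.z v, false⟩}
  | .p A h => .and ((fun x => ⟨x, true⟩) '' TP A h)
  | .r c i => .and ((fun x => ⟨x, true⟩) '' TR c i)
  | .tot c i => .mod (((if c then n else s).choose i : ℕ) : ZMod m)
      {x | ∃ h : Sl (Ed s n) K, (Mt h.set ∧ h.set.card = i) ∧ x = ⟨.M h, true⟩}

/-- The level of a node. -/
def rx : Nx ψ s n K → ℕ
  | .base a => rk ψ a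
  | .M _ => dep ψ + 1
  | .z _ => dep ψ + 1
  | .m1 _ => dep ψ + 2
  | .m0 _ => dep ψ + 2
  | .q _ => dep ψ + 2
  | .b _ => dep ψ + 2
  | .y _ => dep ψ + 2
  | .tot _ _ => dep ψ + 2
  | .p _ _ => dep ψ + 3
  | .r _ _ => dep ψ + 3

theorem rx_lt (m : ℕ) (a : Nx ψ s n K) : ∀ x ∈ (gx m a).children, rx x.node < rx a := by
  have hb : ∀ a : Nd ψ s n, rk ψ a ≤ dep ψ := rk_le
  cases a with
  | base a =>
    intro x hx
    have h1 := rk_lt ψ m a
    cases hg : gateN ψ m a with
    | var v =>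
      have h2 : x ∈ (mapG Nx.base (gateN ψ m a)).children := hx
      rw [hg] at h2
      exact absurd h2 (Set.notMem_empty _)
    | and S =>
      have h2 : x ∈ (mapG Nx.base (gateN ψ m a)).children := hx
      rw [hg] at h2 h1
      obtain ⟨y, hy, rfl⟩ := h2
      exact h1 y hy
    | mod c S =>
      have h2 : x ∈ (mapG Nx.base (gateN ψ m a)).children := hx
      rw [hg] at h2 h1
      obtain ⟨y, hy, rfl⟩ := h2
      exact h1 y hy
  | M h =>
    rintro x ⟨e, -, rfl⟩
    exact Nat.lt_succ_of_le (hb (nod e))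
  | m1 h =>
    intro x hx
    obtain rfl : x = _ := hx
    exact Nat.lt_succ_self _
  | m0 h =>
    intro x hx
    obtain rfl : x = _ := hx
    exact Nat.lt_succ_self _
  | z v =>
    rintro x ⟨e, -, rfl⟩
    exact Nat.lt_succ_of_le (hb (nod e))
  | q A =>
    rintro x ⟨h, -, rfl⟩
    exact Nat.lt_succ_self _
  | b A =>
    rintro x ⟨h, -, rfl⟩
    exact Nat.lt_succ_self _
  | y A =>
    rintro x ⟨v, -, rfl⟩
    exact Nat.lt_succ_self _
  | p A h =>
    rintro x ⟨y, (rfl | ⟨h', -, -, rfl⟩), rfl⟩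
    · exact Nat.lt_succ_self _
    · exact Nat.lt_succ_self _
  | r c i =>
    rintro x ⟨y, ⟨A, -, rfl⟩, rfl⟩
    exact Nat.lt_succ_self _
  | tot c i =>
    rintro x ⟨h, -, rfl⟩
    exact Nat.lt_succ_self _

/-- A set defined by an equivariant condition. -/
theorem smul_set_of {X : Type} [MulAction (Equiv.Perm (Fin n)) X] {S S' : Set X}
    (σ : Equiv.Perm (Fin n)) (h : ∀ x, x ∈ S ↔ σ • x ∈ S') : S' = σ • S := by
  ext x
  rw [Set.mem_smul_set_iff_inv_smul_mem, h, smul_inv_smul]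

theorem mapG_act {N N' : Type} [MulAction (Equiv.Perm (Fin n)) N]
    [MulAction (Equiv.Perm (Fin n)) N'] {m : ℕ} (f : N → N')
    (hf : ∀ (σ : Equiv.Perm (Fin n)) (x : N), f (σ • x) = σ • f x) (σ : Equiv.Perm (Fin n))
    (g : Gate (Atom phpL (Fin s ⊕ Fin n)) N m) : mapG f (g.act σ) = (mapG f g).act σ := by
  have key : ∀ S : Set (Lit N), mapL f '' (σ • S) = σ • (mapL f '' S) := by
    intro S
    apply smul_set_of
    intro x
    constructor
    · rintro ⟨y, hy, rfl⟩
      refine ⟨σ • y, Set.smul_mem_smul_set hy, ?_⟩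
      show (⟨f (σ • y.node), y.pos⟩ : Lit N') = ⟨σ • f y.node, y.pos⟩
      rw [hf]
    · rintro ⟨y, hy, hyx⟩
      obtain ⟨w, hw, rfl⟩ := Set.mem_smul_set.1 hy
      refine ⟨w, hw, ?_⟩
      apply MulAction.injective σ
      show σ • mapL f w = σ • x
      rw [← hyx]
      show (⟨σ • f w.node, w.pos⟩ : Lit N') = ⟨f (σ • w.node), w.pos⟩
      rw [hf]
  cases g with
  | var v => rfl
  | and S => exact congrArg Gate.and (key S)
  | mod c S => exact congrArg (Gate.mod c) (key S)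

theorem lit_smul (σ : Equiv.Perm (Fin n)) (x : Nx ψ s n K) (b : Bool) :
    σ • (⟨x, b⟩ : Lit (Nx ψ s n K)) = ⟨σ • x, b⟩ := rfl

theorem lit_inj {N : Type} {x y : N} {b : Bool} (h : (⟨x, b⟩ : Lit N) = ⟨y, b⟩) : x = y :=
  congrArg Lit.node h

theorem inv_smul_eq {X : Type} [MulAction (Equiv.Perm (Fin n)) X] (σ : Equiv.Perm (Fin n))
    (x : X) : σ • σ⁻¹ • x = x := smul_inv_smul σ x

theorem tp_smul (σ : Equiv.Perm (Fin n)) (A : Sl (Vx s n) K) (h : Sl (Ed s n) K)
    (x : Nx ψ s n K) : x ∈ TP A h ↔ σ • x ∈ TP (σ • A) (σ • h) := by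
  constructor
  · rintro (rfl | ⟨h', h1, h2, rfl⟩)
    · exact Or.inl rfl
    · exact Or.inr ⟨σ • h', (ha_smul σ).2 h1, fun e => h2 (MulAction.injective σ e), rfl⟩
  · rintro (h1 | ⟨h', h1, h2, h3⟩)
    · left
      apply MulAction.injective σ
      exact h1
    · right
      refine ⟨σ⁻¹ • h', ?_, ?_, ?_⟩
      · rw [← ha_smul σ, inv_smul_eq]
        exact h1
      · rintro rfl
        exact h2 (inv_smul_eq σ h').symm
      · apply MulAction.injective σ
        show σ • x = Nx.m0 (σ • σ⁻¹ • h')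
        rw [inv_smul_eq, h3]

theorem side_smul (σ : Equiv.Perm (Fin n)) {A : Sl (Vx s n) K} {c : Bool}
    (h : ∀ v ∈ A.set, sd v = c) : ∀ v ∈ (σ • A).set, sd v = c := by
  intro v hv
  obtain ⟨w, hw, rfl⟩ := mem_smul_sl.1 hv
  rw [sd_smul]
  exact h w hw

theorem tr_smul' (σ : Equiv.Perm (Fin n)) (c : Bool) (i : ℕ) (x : Nx ψ s n K) :
    x ∈ (TR c i : Set (Nx ψ s n K)) ↔ σ • x ∈ (TR c i : Set (Nx ψ s n K)) := by
  constructor
  · rintro ⟨A, ⟨h1, h2⟩, rfl⟩
    exact ⟨σ • A, ⟨side_smul σ h1, (card_smul_sl σ A).trans h2⟩, rfl⟩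
  · rintro ⟨A, ⟨h1, h2⟩, h3⟩
    refine ⟨σ⁻¹ • A, ⟨side_smul σ⁻¹ h1, (card_smul_sl σ⁻¹ A).trans h2⟩, ?_⟩
    apply MulAction.injective σ
    show σ • x = Nx.b (σ • σ⁻¹ • A)
    rw [inv_smul_eq, h3]

theorem image_pos_smul (σ : Equiv.Perm (Fin n)) {S S' : Set (Nx ψ s n K)}
    (h : ∀ x, x ∈ S ↔ σ • x ∈ S') :
    (fun x => (⟨x, true⟩ : Lit (Nx ψ s n K))) '' S' =
      σ • ((fun x => (⟨x, true⟩ : Lit (Nx ψ s n K))) '' S) := by
  apply smul_set_of
  intro x
  constructor
  · rintro ⟨y, hy, rfl⟩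
    exact ⟨σ • y, (h y).1 hy, rfl⟩
  · rintro ⟨y, hy, hyx⟩
    refine ⟨σ⁻¹ • y, (h _).2 ?_, ?_⟩
    · rw [inv_smul_eq]
      exact hy
    · apply MulAction.injective σ
      show (⟨σ • σ⁻¹ • y, true⟩ : Lit (Nx ψ s n K)) = σ • x
      rw [inv_smul_eq]
      exact hyx

/-- Sets of signed nodes of matchings. -/
theorem mset_smul (σ : Equiv.Perm (Fin n)) (c : Bool) {P P' : Sl (Ed s n) K → Prop}
    (h : ∀ x, P x ↔ P' (σ • x)) :
    {x : Lit (Nx ψ s n K) | ∃ g, P' g ∧ x = ⟨.M g, c⟩} =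
      σ • {x : Lit (Nx ψ s n K) | ∃ g, P g ∧ x = ⟨.M g, c⟩} := by
  apply smul_set_of
  intro x
  constructor
  · rintro ⟨g, hg, rfl⟩
    exact ⟨σ • g, (h g).1 hg, rfl⟩
  · rintro ⟨g, hg, hx⟩
    refine ⟨σ⁻¹ • g, (h _).2 ?_, ?_⟩
    · rw [inv_smul_eq]
      exact hg
    · apply MulAction.injective σ
      show σ • x = (⟨.M (σ • σ⁻¹ • g), c⟩ : Lit (Nx ψ s n K))
      rw [inv_smul_eq, hx]

theorem gx_smul (m : ℕ) (σ : Equiv.Perm (Fin n)) (a : Nx ψ s n K) :
    gx m (σ • a) = (gx m a).act σ := by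
  cases a with
  | base a =>
    show mapG Nx.base (gateN ψ m (σ • a)) = (mapG Nx.base (gateN ψ m a)).act σ
    rw [gateN_act]
    exact mapG_act Nx.base (fun _ _ => rfl) σ _
  | M h =>
    apply congrArg Gate.and
    apply smul_set_of
    intro x
    constructor
    · rintro ⟨e, he, rfl⟩
      exact ⟨σ • e, mem_smul_sl.2 ⟨e, he, rfl⟩, (R_smul σ e).symm⟩
    · rintro ⟨e, he, hx⟩
      obtain ⟨f, hf, rfl⟩ := mem_smul_sl.1 he
      refine ⟨f, hf, ?_⟩
      rw [R_smul] at hx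
      exact MulAction.injective σ hx
  | m1 h =>
    exact congrArg (Gate.mod 1) (Set.smul_set_singleton (a := σ)
      (b := (⟨.M h, true⟩ : Lit (Nx ψ s n K)))).symm
  | m0 h =>
    exact congrArg (Gate.mod 0) (Set.smul_set_singleton (a := σ)
      (b := (⟨.M h, true⟩ : Lit (Nx ψ s n K)))).symm
  | z v =>
    apply congrArg Gate.and
    apply smul_set_of
    intro x
    constructor
    · rintro ⟨e, he, rfl⟩
      refine ⟨σ • e, (inc_smul σ).2 he, ?_⟩
      rw [R_smul]
      rfl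
    · rintro ⟨e, he, hx⟩
      refine ⟨σ⁻¹ • e, ?_, ?_⟩
      · rw [← inc_smul σ, inv_smul_eq]
        exact he
      · apply MulAction.injective σ
        show σ • x = σ • (R (σ⁻¹ • e)).neg
        rw [hx, SY.smul_neg, ← R_smul, inv_smul_eq]
  | q A => exact congrArg Gate.and (mset_smul σ false fun h => (ha_smul σ).symm)
  | b A => exact congrArg (Gate.mod 1) (mset_smul σ true fun h => (ha_smul σ).symm)
  | p A h => exact congrArg Gate.and (image_pos_smul σ (tp_smul σ A h))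
  | y A =>
    apply congrArg Gate.and
    apply smul_set_of
    intro x
    constructor
    · rintro ⟨v, hv, rfl⟩
      exact ⟨σ • v, mem_smul_sl.2 ⟨v, hv, rfl⟩, rfl⟩
    · rintro ⟨v, hv, hx⟩
      obtain ⟨w, hw, rfl⟩ := mem_smul_sl.1 hv
      exact ⟨w, hw, MulAction.injective σ hx⟩
  | r c i => exact congrArg Gate.and (image_pos_smul σ (tr_smul' σ c i))
  | tot c i =>
    refine congrArg (Gate.mod _) (mset_smul σ true fun h => ?_)
    rw [mt_smul, card_smul_sl]

/-- The circuit. -/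
noncomputable def pc (ψ : phpL.Sentence) [HasSits ψ] (m s n K : ℕ) : Circuit phpL m s n where
  N := Nx ψ s n K
  gate := gx m
  rank := rx
  rank_lt := rx_lt m
  gate_smul := gx_smul m

end Pool.H31.PH
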