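import Pool.Agent.H31.SY.Mono

set_option autoImplicit false

/-!
# Sets of lines which can be derived in order, with facts; ranked families
-/

namespace Pool.H31.PH

open FirstOrder FirstOrder.Language Pool.H93.SY Pool.H31.SY
open scoped Pointwise

variable {L : FirstOrder.Language.{0, 0}} [L.IsRelational]

/-- The lines can be derived in some order, with the facts in `D`. -/
def GoodD (ψ : L.Sentence) {m s n : ℕ} (D : Set (Atom L (Fin s ⊕ Fin n) × Bool))
    (C : Circuit L m s n) (Ls : Set (Set (Lit C.N))) : Prop :=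
  Closed C Ls ∧ ∃ order : Set (Lit C.N) → ℕ,
    ∀ Γ ∈ Ls, Step ψ D C {Δ | Δ ∈ Ls ∧ order Δ < order Γ} Γ

variable {ψ : L.Sentence} {m s n : ℕ} {D : Set (Atom L (Fin s ⊕ Fin n) × Bool)}
  {C : Circuit L m s n} {Ls : Set (Set (Lit C.N))}

theorem goodD_empty : GoodD ψ D C ∅ :=
  ⟨fun _ _ h => absurd h (Set.notMem_empty _), fun _ => 0, fun _ h => absurd h (Set.notMem_empty _)⟩

open Classical in
/-- A family of lines `F i`, `i ∈ J`, with ranks `ρ i`, each of which follows from good lines and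
from members of the family of smaller rank. -/
theorem goodD_family {I : Type} (F : I → Set (Lit C.N)) (J : Set I) (ρ : I → ℕ)
    (h : GoodD ψ D C Ls) (hcl : ∀ σ : Equiv.Perm (Fin n), ∀ i ∈ J, ∃ j ∈ J, F j = σ • F i)
    (hs : ∀ i ∈ J, Step ψ D C (Ls ∪ {Λ | ∃ j ∈ J, ρ j < ρ i ∧ Λ = F j}) (F i)) :
    GoodD ψ D C (Ls ∪ F '' J) := by
  obtain ⟨hc, order, ho⟩ := h
  refine ⟨?_, ?_⟩
  · rintro σ Γ (h1 | ⟨i, hi, rfl⟩)
    · exact Or.inl (hc σ Γ h1)
    · obtain ⟨j, hj, h2⟩ := hcl σ i hi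
      exact Or.inr ⟨j, hj, h2⟩
  · obtain ⟨B, hB⟩ : ∃ B, ∀ Γ, order Γ ≤ B := by
      obtain ⟨B, hB⟩ := Finite.bddAbove_range order
      exact ⟨B, fun Γ => hB ⟨Γ, rfl⟩⟩
    have hex : ∀ Γ ∈ F '' J, ∃ k, ∃ i ∈ J, ρ i = k ∧ Γ = F i := by
      rintro Γ ⟨i, hi, rfl⟩
      exact ⟨ρ i, i, hi, rfl, rfl⟩
    refine ⟨fun Γ => if Γ ∈ Ls then order Γ else if h2 : Γ ∈ F '' J then
      B + 1 + Nat.find (hex Γ h2) else 0, ?_⟩
    intro Γ hΓ
    by_cases h1 : Γ ∈ Ls
    · refine step_more subset_rfl ?_ (ho Γ h1)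
      rintro Δ ⟨h2, h3⟩
      refine ⟨Or.inl h2, ?_⟩
      simp only [if_pos h1, if_pos h2]
      exact h3
    · have h2 : Γ ∈ F '' J := hΓ.resolve_left h1
      obtain ⟨i, hi, h3, h4⟩ := Nat.find_spec (hex Γ h2)
      have h5 := hs i hi
      rw [← h4] at h5
      refine step_more subset_rfl ?_ h5
      rintro Δ (h6 | ⟨j, hj, h6, rfl⟩)
      · refine ⟨Or.inl h6, ?_⟩
        simp only [if_neg h1, dif_pos h2, if_pos h6]
        have := hB Δ
        omega
      · have h7 : F j ∈ F '' J := ⟨j, hj, rfl⟩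
        refine ⟨Or.inr h7, ?_⟩
        by_cases h8 : F j ∈ Ls
        · simp only [if_neg h1, dif_pos h2, if_pos h8]
          have := hB (F j)
          omega
        · simp only [if_neg h1, dif_pos h2, if_neg h8, dif_pos h7]
          have h9 : Nat.find (hex (F j) h7) ≤ ρ j := Nat.find_min' _ ⟨j, hj, rfl, rfl⟩
          omega

theorem ncard_family {I : Type} [Finite I] (F : I → Set (Lit C.N)) (J : Set I) :
    (F '' J).ncard ≤ Nat.card I := by
  refine (Set.ncard_image_le (Set.toFinite _)).trans ?_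
  rw [← Set.ncard_univ]
  exact Set.ncard_le_ncard (Set.subset_univ _) (Set.toFinite _)

end Pool.H31.PH
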