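import Pool.Agent.H31.PH.Com
import Pool.Agent.H31.PH.Bas

/-!
# The upper bound for the bijective pigeonhole principle
-/

set_option autoImplicit false

namespace Pool.H31.PH

open FirstOrder FirstOrder.Language Pool.H93.SY Pool.H31.SY Pool.Agent.H88.SY
open scoped Pointwise

/-- The refutation given by a set of lines. -/
noncomputable def toRef {ψ : phpL.Sentence} {m s n : ℕ}
    {D : Set (Atom phpL (Fin s ⊕ Fin n) × Bool)} {C : Circuit phpL m s n}
    {Ls : Set (Set (Lit C.N))} (hg : GoodD ψ D C Ls) (he : ∅ ∈ Ls) : Refutation ψ m s n D :=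
  ⟨C, Ls, hg.1, Classical.choose hg.2, Classical.choose_spec hg.2, he⟩

variable {ψ : phpL.Sentence} [HasSits ψ] {s n K : ℕ}

/-- The last lines, if the two numbers of matchings are different modulo `m`. -/
def FE (ψ : phpL.Sentence) {s n K : ℕ} (i : Fin (K + 1)) : Fin 4 → Set (Lit (Nx ψ s n K))
  | 0 => insert ⟨.tot false i, true⟩ {⟨.tot true i, false⟩}
  | 1 => insert ⟨.tot false i, false⟩ {⟨.tot true i, false⟩}
  | 2 => {⟨.tot true i, false⟩}
  | 3 => ∅

theorem end_lines {m : ℕ} {D : Set (Atom phpL (Fin s ⊕ Fin n) × Bool)}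
    {Ls : Set (Set (Lit (Nx ψ s n K)))} (hg : GoodD ψ D (pc ψ m s n K) Ls)
    (h : Lns Ls Set.univ) (i : Fin (K + 1))
    (hne : ((n.choose i : ℕ) : ZMod m) ≠ ((s.choose i : ℕ) : ZMod m)) :
    ∃ Ls' : Set (Set (Lit (Nx ψ s n K))), GoodD ψ D (pc ψ m s n K) Ls' ∧ ∅ ∈ Ls' ∧
      Ls'.ncard ≤ Ls.ncard + 4 := by
  have key : GoodD ψ D (pc ψ m s n K) (Ls ∪ FE ψ i '' Set.univ) := by
    refine goodD_family (C := pc ψ m s n K) (FE ψ i) Set.univ (fun k => k.val) hg ?_ ?_
    · intro σ k _
      refine ⟨k, trivial, ?_⟩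
      match k with
      | 0 =>
        show _ = σ • (insert ⟨.tot false i, true⟩ {⟨.tot true i, false⟩} :
          Set (Lit (Nx ψ s n K)))
        rw [Set.smul_set_insert, Set.smul_set_singleton]
        rfl
      | 1 =>
        show _ = σ • (insert ⟨.tot false i, false⟩ {⟨.tot true i, false⟩} :
          Set (Lit (Nx ψ s n K)))
        rw [Set.smul_set_insert, Set.smul_set_singleton]
        rfl
      | 2 =>
        show _ = σ • ({⟨.tot true i, false⟩} : Set (Lit (Nx ψ s n K)))
        rw [Set.smul_set_singleton]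
        rfl
      | 3 =>
        show (∅ : Set (Lit (Nx ψ s n K))) = σ • (∅ : Set (Lit (Nx ψ s n K)))
        rw [Set.smul_set_empty]
    · intro k _
      match k with
      | 0 =>
        refine .weak (Or.inl (h.tot false trivial i)) ?_
        intro x hx
        exact Or.inl hx
      | 1 =>
        refine .excl (a := (.tot true i : Nx ψ s n K)) (b := (.tot false i : Nx ψ s n K))
          (c := ((n.choose i : ℕ) : ZMod m)) (d := ((s.choose i : ℕ) : ZMod m))
          (S := {x | ∃ h : Sl (Ed s n) K, (Mt h.set ∧ h.set.card = i) ∧ x = ⟨.M h, true⟩})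
          rfl rfl hne (Or.inr rfl) (Or.inl rfl)
      | 2 =>
        refine .cut (a := (.tot false i : Nx ψ s n K)) (Or.inr ⟨0, trivial, ?_, rfl⟩)
          (Or.inr ⟨1, trivial, ?_, rfl⟩)
        · show 0 < 2
          norm_num
        · show 1 < 2
          norm_num
      | 3 =>
        refine .cut (a := (.tot true i : Nx ψ s n K)) (Or.inl ?_) (Or.inr ⟨2, trivial, ?_, ?_⟩)
        · have h1 := h.tot true trivial i
          have h2 : (insert ⟨.tot true i, true⟩ ∅ : Set (Lit (Nx ψ s n K))) =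
              {⟨.tot true i, true⟩} := insert_empty_eq _
          exact h2 ▸ h1
        · show 2 < 3
          norm_num
        · exact (insert_empty_eq _ : (insert ⟨.tot true i, false⟩ ∅ : Set (Lit (Nx ψ s n K))) =
            {⟨.tot true i, false⟩})
  refine ⟨_, key, Or.inr ⟨3, trivial, rfl⟩, ?_⟩
  refine (Set.ncard_union_le _ _).trans (Nat.add_le_add_left ?_ _)
  refine (ncard_family (C := pc ψ m s n K) (FE ψ i) Set.univ).trans ?_
  rw [Nat.card_eq_fintype_card, Fintype.card_fin]

omit [HasSits ψ] in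
/-- If there is no matching with `i` edges but a side with at least `i` vertices, the empty line is
already there. -/
theorem empty_of_min {Ls : Set (Set (Lit (Nx ψ s n K)))} (h : Lns Ls Set.univ) {i : ℕ}
    (hi : i ≤ K) (h1 : min n s < i) (h2 : i ≤ max n s) : ∅ ∈ Ls := by
  obtain ⟨c, hc⟩ : ∃ c : Bool, i ≤ if c then n else s := by
    rcases le_total s n with h3 | h3
    · exact ⟨true, by rwa [max_eq_left h3] at h2⟩
    · exact ⟨false, by rwa [max_eq_right h3] at h2⟩
  have h4 := card_side s n hi c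
  have h5 : 0 < (if c then n else s).choose i := Nat.choose_pos hc
  rw [← h4] at h5
  obtain ⟨A, hA, hAi⟩ := Set.nonempty_of_ncard_ne_zero h5.ne'
  have h6 := h.th A ⟨c, trivial, hA⟩
  have h7 : (TH A : Set (Lit (Nx ψ s n K))) = ∅ := by
    rw [Set.eq_empty_iff_forall_notMem]
    rintro x ⟨g, hg, rfl⟩
    have h8 := card_le_of_mt hg.2.1 true
    have h9 := card_le_of_mt hg.2.1 false
    have h10 := hg.1
    simp only [if_true, Bool.false_eq_true, if_false] at h8 h9
    omega
  rwa [h7] at h6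

/-- **Upper bound** for the bijective pigeonhole principle. -/
theorem upper_bij : ∃ c : ℕ, ∀ m s n i : ℕ, 2 ≤ s + n → 1 ≤ i →
    (((n.choose i : ℕ) : ZMod m) ≠ ((s.choose i : ℕ) : ZMod m) ∨
      (min n s < i ∧ i ≤ max n s)) →
    ∃ R : Refutation phpB m s n (pigeons s n), R.size ≤ (s + n) ^ (c * i) ∧
      ∀ a, R.C.rank a ≤ c := by
  obtain ⟨c0, hb⟩ := basic_bij
  obtain ⟨k1, hk1⟩ : ∃ k1, ∀ x : Sh phpB, ar phpB x ≤ k1 := by
    obtain ⟨k1, hk1⟩ := Finite.bddAbove_range (ar phpB)
    exact ⟨k1, fun x => hk1 ⟨x, rfl⟩⟩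
  refine ⟨2 * c0 + Nat.card (Sh phpB) + k1 + 23 + dep phpB, ?_⟩
  intro m s n i hN hi hcase
  obtain ⟨L0, g0, a0, b0, n0⟩ := hb m s n i (by omega)
  have hbd := bd (s := s) (n := n) hN hi
  obtain ⟨L1, g1, s1, l1, n1⟩ := common g0 a0 Set.univ (fun v _ => b0 v) hbd
  obtain ⟨L2, g2, e2, n2⟩ : ∃ L2 : Set (Set (Lit (Nx phpB s n i))),
      GoodD phpB (pigeons s n) (pc phpB m s n i) L2 ∧ ∅ ∈ L2 ∧ L2.ncard ≤ L1.ncard + 4 := by
    rcases hcase with h1 | ⟨h1, h2⟩
    · exact end_lines g1 l1 (⟨i, Nat.lt_succ_self i⟩ : Fin (i + 1)) h1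
    · exact ⟨L1, g1, empty_of_min l1 le_rfl h1 h2, Nat.le_add_right _ _⟩
  refine ⟨toRef g2 e2, ?_, ?_⟩
  · show Nat.card (Nx phpB s n i) + L2.ncard ≤ _
    have h3 := card_nx (ψ := phpB) hbd
    have h4 := card_nd (ψ := phpB) (r := s) (n := n) hk1 (by omega)
    have h0 : 1 ≤ s + n := by omega
    have hp : ∀ a b : ℕ, a ≤ b → (s + n) ^ a ≤ (s + n) ^ b := fun a b h =>
      Nat.pow_le_pow_right h0 h
    have h2p : ∀ a : ℕ, 2 ^ a ≤ (s + n) ^ a := fun a => Nat.pow_le_pow_left hN a
    have hl : ∀ a : ℕ, a ≤ (s + n) ^ a := fun a =>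
      (Nat.lt_two_pow_self).le.trans (h2p a)
    obtain ⟨Q, hQ⟩ : ∃ Q, Q = (2 * c0 + Nat.card (Sh phpB) + k1 + 20) * i := ⟨_, rfl⟩
    have hQi : 2 * c0 + Nat.card (Sh phpB) + k1 + 20 * i ≤ Q := by
      rw [hQ, add_mul]
      exact Nat.add_le_add_right (Nat.le_mul_of_pos_right _ hi) _
    have t1 : Nat.card (Sh phpB) * (s + n) ^ k1 ≤ (s + n) ^ Q := by
      refine (Nat.mul_le_mul_right _ (hl _)).trans ?_
      rw [← pow_add]
      exact hp _ _ (by omega)
    have t2 : 13 * ((s + n) ^ (3 * i)) ^ 2 ≤ (s + n) ^ Q := by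
      have : 13 ≤ (s + n) ^ 4 := le_trans (by norm_num) (h2p 4)
      refine (Nat.mul_le_mul_right _ this).trans ?_
      rw [← pow_mul, ← pow_add]
      exact hp _ _ (by omega)
    have t3 : c0 * (s + n) ^ c0 ≤ (s + n) ^ Q := by
      refine (Nat.mul_le_mul_right _ (hl _)).trans ?_
      rw [← pow_add]
      exact hp _ _ (by omega)
    have t4 : 250 * ((s + n) ^ (3 * i)) ^ 4 ≤ (s + n) ^ Q := by
      have : 250 ≤ (s + n) ^ 8 := le_trans (by norm_num) (h2p 8)
      refine (Nat.mul_le_mul_right _ this).trans ?_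
      rw [← pow_mul, ← pow_add]
      exact hp _ _ (by omega)
    have t5 : 4 ≤ (s + n) ^ Q := le_trans (by norm_num) ((h2p 2).trans (hp _ _ (by omega)))
    have t6 : 8 * (s + n) ^ Q ≤
        (s + n) ^ ((2 * c0 + Nat.card (Sh phpB) + k1 + 23 + dep phpB) * i) := by
      have : 8 ≤ (s + n) ^ 3 := le_trans (by norm_num) (h2p 3)
      refine (Nat.mul_le_mul_right _ this).trans ?_
      rw [← pow_add]
      refine hp _ _ ?_
      have e1 : (2 * c0 + Nat.card (Sh phpB) + k1 + 23 + dep phpB) * i =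
          (2 * c0 + Nat.card (Sh phpB) + k1 + 20) * i + 3 * i + dep phpB * i := by ring
      rw [e1, ← hQ]
      have e2 := Nat.zero_le (dep phpB * i)
      omega
    omega
  · intro a
    show rx a ≤ _
    have h5 : ∀ x : Nx phpB s n i, rx x ≤ dep phpB + 3 := by
      intro x
      cases x with
      | base a => exact (rk_le a).trans (Nat.le_add_right _ _)
      | M h => exact Nat.add_le_add_left (by norm_num) _
      | z v => exact Nat.add_le_add_left (by norm_num) _
      | m1 h => exact Nat.add_le_add_left (by norm_num) _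
      | m0 h => exact Nat.add_le_add_left (by norm_num) _
      | q A => exact Nat.add_le_add_left (by norm_num) _
      | b A => exact Nat.add_le_add_left (by norm_num) _
      | y A => exact Nat.add_le_add_left (by norm_num) _
      | tot c j => exact Nat.add_le_add_left (by norm_num) _
      | p A h => exact le_rfl
      | r c j => exact le_rfl
    have h6 := h5 a
    omega

/-! ### The first binomial coefficient which is not divisible by `m` -/

theorem choose_add_cast {m s d i : ℕ} (hi : 0 < i)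
    (h : ∀ j, 0 < j → j < i → m ∣ d.choose j) :
    (((s + d).choose i : ℕ) : ZMod m) = ((s.choose i : ℕ) : ZMod m) +
      ((d.choose i : ℕ) : ZMod m) := by
  rw [Nat.add_choose_eq, Nat.cast_sum, Finset.sum_eq_add (i, 0) (0, i)]
  · simp
  · intro heq
    rw [Prod.mk.injEq] at heq
    omega
  · rintro ⟨a, b⟩ hab ⟨h1, h2⟩
    rw [Finset.HasAntidiagonal.mem_antidiagonal] at hab
    have hab' : a + b = i := hab
    have hb0 : b ≠ 0 := by
      rintro rfl
      exact h1 (Prod.ext (by simpa using hab') rfl)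
    have hbi : b ≠ i := by
      rintro rfl
      exact h2 (Prod.ext (show a = 0 by omega) rfl)
    have h3 := h b (Nat.pos_of_ne_zero hb0) (by omega)
    show ((s.choose a * d.choose b : ℕ) : ZMod m) = 0
    rw [ZMod.natCast_eq_zero_iff]
    exact Dvd.dvd.mul_left h3 _
  · intro hcon
    exact absurd (Finset.HasAntidiagonal.mem_antidiagonal.2 (add_zero i)) hcon
  · intro hcon
    exact absurd (Finset.HasAntidiagonal.mem_antidiagonal.2 (zero_add i)) hcon

/-- The condition of `upper_bij` for the first `i` such that `m` does not divide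
`C(|n - s|, i)`. -/
theorem choose_ne_of_first {m s n i : ℕ} (hi : 0 < i)
    (h : ∀ j, 0 < j → j < i → m ∣ (max n s - min n s).choose j)
    (hn : ¬ m ∣ (max n s - min n s).choose i) :
    ((n.choose i : ℕ) : ZMod m) ≠ ((s.choose i : ℕ) : ZMod m) := by
  have hn' : (((max n s - min n s).choose i : ℕ) : ZMod m) ≠ 0 := by
    rwa [Ne, ZMod.natCast_eq_zero_iff]
  rcases le_total s n with h1 | h1
  · rw [max_eq_left h1, min_eq_right h1] at h hn'
    have h2 := choose_add_cast (s := s) hi h
    rw [Nat.add_sub_cancel' h1] at h2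
    rw [h2]
    intro h3
    exact hn' (by simpa using h3)
  · rw [max_eq_right h1, min_eq_left h1] at h hn'
    have h2 := choose_add_cast (s := n) hi h
    rw [Nat.add_sub_cancel' h1] at h2
    rw [h2]
    intro h3
    exact hn' (by simpa using h3.symm)

end Pool.H31.PH
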