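import Pool.Agent.H31.PH.Fam

/-!
# [H31 PH KLE] Lines whose negation together with the facts refutes the sentence

`Forced D G φ v b`: if all signed atoms in `G` are false and those in `D` are true, then the instance
of `φ` under `v` has the truth value `b`, by evaluation of the connectives. `gl ψ G` is the line of
the signed atoms in `G` (in the circuit `circ ψ m s n` of `H31/SY/Circ`, with nodes `Nd ψ s n`).
THEOREM `kle`. If all `G x`, `x ∈ V`, force `ψ` to be false, and the family is closed under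
permutations, then the lines `gl ψ (G x)` have a derivation from `ψ` of polynomial size.

PROOF. The lines are (for `x ∈ V`, `Γ = gl ψ (G x)`, `sg` as in `H31/SY/Good`, subformula instances
`φ`, `v` (`hs : ⟨k, φ⟩ ∈ subf ψ`), `b` with `Forced D (G x) φ v b`):
 (1) `insert (sg b (lit ψ φ hs v)) Γ`;
 (2) `insert y (insert (sg b (lit ψ φ hs v)) Γ)` for every signed node `y` for which
   `insert y Γ` is a line (1) (of an instance of smaller depth);
 (3) `insert (sg b (lit ψ φ hs v)) Γ ∪ Lit.neg '' S`, if the gate of `(lit ψ φ hs v).node` is `.and S`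
   and some member of `Lit.neg '' S` is a `y` as in (2);
 (4) `{x₀}`, `x₀ = lit ψ ψ _ default` (rule `hyp` with `rep_lit`), and `Γ` itself (cut on `x₀.node`
   of `insert x₀.neg Γ` (line (1), `sg false`), and `insert x₀ Γ`, a weakening of `{x₀}`).
Derivations, by induction on the depth of `φ` (`dep`), for example with `goodD_family` of `Fam`
(index type `X × (Lit (Nd ψ s n) …)`, rank `3 * dep φ + …`), or by adding the lines of depth `≤ d` for
`d = 0, 1, …, dep ψ` with `goodD_family` (rank 0):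
 `falsum` (`b = false`): `sg false (lit …) = ⟨⟨none, _⟩, true⟩`, gate `.and ∅`: `andI`.
 `equal`: the same node; `sg b ⟨⟨none,_⟩, decide …⟩` is the positive one since `b` is the truth value.
 `rel`: if `(w, b) ∈ D`: rule `fact` (for `b = true` the signed node is `⟨node, true⟩`, for
   `b = false` it is `⟨node, false⟩`); if `(w, !b) ∈ G`: `⟨node, !b⟩ ∈ Γ` and
   `⟨node, b⟩` is in the line: rule `ident`.
 `imp φ χ`, `lit = ⟨node, false⟩`, gate `.and {lit φ, (lit χ).neg}`: `b = true`: `andE` from (3), which is a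
   weakening of (1) for `(φ, false)` or `(χ, true)`; `b = false`: `andI` from (2), weakenings of (1) for
   `(φ, true)` and `(χ, false)`.
 `all φ`, `lit = ⟨node, true⟩`, gate `.and (range fun p => lit φ (snoc v p))`: `b = true`: `andI` from (2);
   `b = false`: `andE` from (3).
Closed under permutations: `lit_act`, `smul_sg`, `Forced` is invariant (`hD`, `hcl`; a small induction on
`φ`, as in `gateF_act`), `gl` of the image is `σ • gl`.
The number of the lines: `ncard_family`: the index type has at most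
`1 + |X| (1 + 2 N + (2 N)^2 + N)` elements, `N = Nat.card (Nd ψ s n)` (`Lit N` has `2 N` elements).
-/

set_option autoImplicit false

namespace Pool.H31.PH

open FirstOrder FirstOrder.Language Pool.H93.SY Pool.H31.SY
open scoped Pointwise

variable {L : FirstOrder.Language.{0, 0}} [L.IsRelational]

/-- The truth value `b` is forced. -/
def Forced {P : Type} (D G : Set (Atom L P × Bool)) :
    ∀ {k : ℕ}, L.BoundedFormula Empty k → (Fin k → P) → Bool → Prop
  | _, .falsum, _, b => b = false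
  | _, .equal t₁ t₂, v, b => (b = true ↔ tv v t₁ = tv v t₂)
  | _, .rel R ts, v, b => ((⟨_, R, fun i => tv v (ts i)⟩ : Atom L P), b) ∈ D ∨
      ((⟨_, R, fun i => tv v (ts i)⟩ : Atom L P), !b) ∈ G
  | _, .imp φ χ, v, true => Forced D G φ v false ∨ Forced D G χ v true
  | _, .imp φ χ, v, false => Forced D G φ v true ∧ Forced D G χ v false
  | _, .all φ, v, true => ∀ p, Forced D G φ (Fin.snoc v p) true
  | _, .all φ, v, false => ∃ p, Forced D G φ (Fin.snoc v p) false

/-- The line of the signed atoms in `G`. -/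
def gl (ψ : L.Sentence) {s n : ℕ} (G : Set (Atom L (Fin s ⊕ Fin n) × Bool)) :
    Set (Lit (Nd ψ s n)) :=
  {x | ∃ (R : Rels ψ) (w : Fin R.1.1 → Fin s ⊕ Fin n) (b : Bool),
    ((⟨R.1.1, R.1.2, w⟩ : Atom L (Fin s ⊕ Fin n)), b) ∈ G ∧ x = ⟨⟨some (.inl R), w⟩, b⟩}

section aux

variable {ψ : L.Sentence} {m s n : ℕ} {D : Set (Atom L (Fin s ⊕ Fin n) × Bool)}

private theorem nneg {N : Type} (x : Lit N) : x.neg.neg = x := by
  obtain ⟨a, s⟩ := x
  cases s <;> rfl

/-- The signed node is forced. -/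
private def Fo (ψ : L.Sentence) (D G : Set (Atom L (Fin s ⊕ Fin n) × Bool))
    (y : Lit (Nd ψ s n)) : Prop :=
  ∃ (k : ℕ) (φ : L.BoundedFormula Empty k)
    (hs : (⟨k, φ⟩ : Σ k : ℕ, L.BoundedFormula Empty k) ∈ subf ψ)
    (v : Fin k → Fin s ⊕ Fin n) (b : Bool), Forced D G φ v b ∧ y = sg b (lit ψ φ hs v)

/-- The image under a permutation. -/
private def im (σ : Equiv.Perm (Fin n)) (G : Set (Atom L (Fin s ⊕ Fin n) × Bool)) :
    Set (Atom L (Fin s ⊕ Fin n) × Bool) :=
  (fun w : Atom L (Fin s ⊕ Fin n) × Bool => (w.1.act σ, w.2)) '' G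

private theorem forced_act (σ : Equiv.Perm (Fin n)) {G : Set (Atom L (Fin s ⊕ Fin n) × Bool)}
    (hD : ∀ (v : Atom L (Fin s ⊕ Fin n)) (b : Bool), (v, b) ∈ D → (v.act σ, b) ∈ D)
    {k : ℕ} (φ : L.BoundedFormula Empty k) : ∀ (v : Fin k → Fin s ⊕ Fin n) (b : Bool),
    Forced D G φ v b → Forced D (im σ G) φ (fun i => pm σ (v i)) b := by
  induction φ with
  | falsum => exact fun _ _ h => h
  | equal t₁ t₂ =>
    intro v b h
    change b = true ↔ tv (fun i => pm σ (v i)) t₁ = tv (fun i => pm σ (v i)) t₂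
    rw [tv_comp (pm σ) v t₁, tv_comp (pm σ) v t₂, (pm_inj σ).eq_iff]
    exact h
  | @rel k l R ts =>
    intro v b h
    have h0 : (⟨_, R, fun i => tv (fun i => pm σ (v i)) (ts i)⟩ : Atom L (Fin s ⊕ Fin n)) =
        Atom.act σ ⟨_, R, fun i => tv v (ts i)⟩ := by
      unfold Atom.act
      simp only [tv_comp (pm σ) v]
    change ((⟨_, R, fun i => tv (fun i => pm σ (v i)) (ts i)⟩ : Atom L (Fin s ⊕ Fin n)), b) ∈ D ∨
      ((⟨_, R, fun i => tv (fun i => pm σ (v i)) (ts i)⟩ : Atom L (Fin s ⊕ Fin n)), !b) ∈ im σ G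
    rw [h0]
    rcases h with h | h
    · exact Or.inl (hD _ _ h)
    · exact Or.inr ⟨_, h, rfl⟩
  | imp φ χ ih1 ih2 =>
    intro v b h
    cases b with
    | true => exact h.imp (ih1 v false) (ih2 v true)
    | false => exact ⟨ih1 v true h.1, ih2 v false h.2⟩
  | all φ ih =>
    intro v b h
    cases b with
    | true =>
      intro p
      have h1 := ih _ true (h (pm σ⁻¹ p))
      rw [snoc_comp, pm_pm_inv] at h1
      exact h1
    | false =>
      obtain ⟨p, hp⟩ := h
      refine ⟨pm σ p, ?_⟩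
      have h1 := ih _ false hp
      rw [snoc_comp] at h1
      exact h1

private theorem fo_act (σ : Equiv.Perm (Fin n)) {G : Set (Atom L (Fin s ⊕ Fin n) × Bool)}
    (hD : ∀ (v : Atom L (Fin s ⊕ Fin n)) (b : Bool), (v, b) ∈ D → (v.act σ, b) ∈ D)
    {y : Lit (Nd ψ s n)} (h : Fo ψ D G y) : Fo ψ D (im σ G) (σ • y) := by
  obtain ⟨k, φ, hs, v, b, h, rfl⟩ := h
  exact ⟨k, φ, hs, fun i => pm σ (v i), b, forced_act σ hD φ v b h, by rw [smul_sg, lit_act]⟩

omit [L.IsRelational] in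
private theorem act_act (σ : Equiv.Perm (Fin n)) (a : Atom L (Fin s ⊕ Fin n)) :
    Atom.act σ⁻¹ (Atom.act σ a) = a := by
  obtain ⟨k, R, w⟩ := a
  have h0 : (fun i => pm σ⁻¹ (pm σ (w i))) = w := by
    funext i
    have h1 := pm_pm_inv σ⁻¹ (w i)
    rw [inv_inv] at h1
    exact h1
  change (⟨k, R, fun i => pm σ⁻¹ (pm σ (w i))⟩ : Atom L (Fin s ⊕ Fin n)) = ⟨k, R, w⟩
  rw [h0]

omit [L.IsRelational] in
private theorem gl_act (σ : Equiv.Perm (Fin n)) (G : Set (Atom L (Fin s ⊕ Fin n) × Bool)) :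
    gl ψ (im σ G) = σ • gl ψ G := by
  ext x
  constructor
  · rintro ⟨R, w, b, ⟨⟨a, b'⟩, h, he⟩, rfl⟩
    have h1 : Atom.act σ a = ⟨R.1.1, R.1.2, w⟩ := congrArg Prod.fst he
    have h2 : b' = b := congrArg Prod.snd he
    subst h2
    have h3 : a = ⟨R.1.1, R.1.2, fun i => pm σ⁻¹ (w i)⟩ := by
      rw [← act_act σ a, h1]
      rfl
    refine Set.mem_smul_set.2 ⟨⟨⟨some (.inl R), fun i => pm σ⁻¹ (w i)⟩, b'⟩,
      ⟨R, fun i => pm σ⁻¹ (w i), b', ?_, rfl⟩, ?_⟩
    · rw [← h3]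
      exact h
    · have h4 : (fun i => pm σ (pm σ⁻¹ (w i))) = w := funext fun i => pm_pm_inv σ (w i)
      exact congrArg (fun u : Fin R.1.1 → Fin s ⊕ Fin n =>
        (⟨⟨some (.inl R), u⟩, b'⟩ : Lit (Nd ψ s n))) h4
  · intro hx
    obtain ⟨_, ⟨R, w, b, h, rfl⟩, rfl⟩ := Set.mem_smul_set.1 hx
    exact ⟨R, fun i => pm σ (w i), b, ⟨_, h, rfl⟩, rfl⟩

omit [L.IsRelational] in
private theorem rk_act (σ : Equiv.Perm (Fin n)) (a : Nd ψ s n) : rk ψ (σ • a) = rk ψ a := by
  obtain ⟨sh, v⟩ := a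
  rcases sh with _ | R | p <;> rfl

/-- The children. -/
private noncomputable def ch (ψ : L.Sentence) (m : ℕ) {s n : ℕ} (a : Nd ψ s n) : Set (Lit (Nd ψ s n)) :=
  (gateN ψ m a).children

private theorem ch_act (σ : Equiv.Perm (Fin n)) (a : Nd ψ s n) : ch ψ m (σ • a) = σ • ch ψ m a := by
  unfold ch
  rw [gateN_act]
  cases gateN ψ m a with
  | var v =>
    change ∅ = σ • (∅ : Set (Lit (Nd ψ s n)))
    rw [Set.smul_set_empty]
  | and S => rfl
  | mod c S => rfl

omit [L.IsRelational] in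
private theorem negim_act (σ : Equiv.Perm (Fin n)) (S : Set (Lit (Nd ψ s n))) :
    Lit.neg '' (σ • S) = σ • (Lit.neg '' S) := by
  ext x
  constructor
  · rintro ⟨y, hy, rfl⟩
    obtain ⟨z, hz, rfl⟩ := Set.mem_smul_set.1 hy
    exact Set.mem_smul_set.2 ⟨_, ⟨z, hz, rfl⟩, smul_neg σ z⟩
  · intro hx
    obtain ⟨_, ⟨z, hz, rfl⟩, rfl⟩ := Set.mem_smul_set.1 hx
    exact ⟨_, Set.smul_mem_smul_set hz, (smul_neg σ z).symm⟩

private theorem stepIdent {P : Set (Set (Lit (circ ψ m s n).N))} {Λ : Set (Lit (circ ψ m s n).N)}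
    {a : (circ ψ m s n).N} {b : Bool} (h1 : ⟨a, b⟩ ∈ Λ) (h2 : ⟨a, !b⟩ ∈ Λ) :
    Step ψ D (circ ψ m s n) P Λ := by
  cases b with
  | true => exact .ident (a := a) (b := a) rfl h1 h2
  | false => exact .ident (a := a) (b := a) rfl h2 h1

private theorem stepTop {P : Set (Set (Lit (circ ψ m s n).N))} {Λ : Set (Lit (circ ψ m s n).N)}
    {w : Fin 0 → Fin s ⊕ Fin n} (h : (⟨⟨none, w⟩, true⟩ : Lit (Nd ψ s n)) ∈ Λ) :
    Step ψ D (circ ψ m s n) P Λ :=
  .andI (S := ∅) (a := (⟨none, w⟩ : Nd ψ s n)) rfl h fun _ hx => absurd hx (Set.notMem_empty _)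

private theorem sg_self {N : Type} (a : N) (b : Bool) : sg b (⟨a, b⟩ : Lit N) = ⟨a, true⟩ := by
  cases b <;> rfl

private theorem sg_true {N : Type} (a : N) (b : Bool) : sg b (⟨a, true⟩ : Lit N) = ⟨a, b⟩ := by
  cases b <;> rfl

/-- A forced signed node. -/
private theorem stepF {G : Set (Atom L (Fin s ⊕ Fin n) × Bool)}
    {P : Set (Set (Lit (circ ψ m s n).N))} {y : Lit (Nd ψ s n)} (hy : Fo ψ D G y)
    (h1 : (∃ z ∈ Lit.neg '' ch ψ m y.node, Fo ψ D G z) →
      insert y (gl ψ G) ∪ Lit.neg '' ch ψ m y.node ∈ P)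
    (h2 : ∀ z ∈ ch ψ m y.node, Fo ψ D G z → insert z (insert y (gl ψ G)) ∈ P) :
    Step ψ D (circ ψ m s n) P (insert y (gl ψ G)) := by
  obtain ⟨k, φ, hs, v, b, hF, rfl⟩ := hy
  cases φ with
  | falsum =>
    have hb : b = false := hF
    subst hb
    exact stepTop (w := fun i => Fin.elim0 i) (Set.mem_insert _ _)
  | equal t₁ t₂ =>
    have hb : b = true ↔ tv v t₁ = tv v t₂ := hF
    have h3 : sg b (lit ψ (.equal t₁ t₂) hs v) =
        (⟨⟨none, fun i => Fin.elim0 i⟩, true⟩ : Lit (Nd ψ s n)) := by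
      have h4 : lit ψ (.equal t₁ t₂) hs v = (⟨⟨none, fun i => Fin.elim0 i⟩, b⟩ : Lit (Nd ψ s n)) := by
        have h5 : ∀ (_ : Decidable (tv v t₁ = tv v t₂)), decide (tv v t₁ = tv v t₂) = b := by
          intro _
          cases b with
          | true => exact decide_eq_true (hb.1 rfl)
          | false =>
            refine decide_eq_false fun h => ?_
            have := hb.2 h
            contradiction
        exact congrArg (fun c => (⟨⟨none, fun i => Fin.elim0 i⟩, c⟩ : Lit (Nd ψ s n))) (h5 _)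
      exact (congrArg (sg b) h4).trans (sg_self _ b)
    rw [h3]
    exact stepTop (w := fun i => Fin.elim0 i) (Set.mem_insert _ _)
  | rel R ts =>
    have h3 : sg b (lit ψ (.rel R ts) hs v) =
        (⟨⟨some (.inl ⟨⟨_, R⟩, ⟨k, ts, hs⟩⟩), fun i => tv v (ts i)⟩, b⟩ : Lit (Nd ψ s n)) :=
      sg_true _ b
    rw [h3]
    rcases hF with hF | hF
    · exact .fact (a := (⟨some (.inl ⟨⟨_, R⟩, ⟨k, ts, hs⟩⟩), fun i => tv v (ts i)⟩ : Nd ψ s n))
        rfl hF (Set.mem_insert _ _)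
    · refine stepIdent (a := (⟨some (.inl ⟨⟨_, R⟩, ⟨k, ts, hs⟩⟩), fun i => tv v (ts i)⟩ : Nd ψ s n))
        (Set.mem_insert _ _) (Set.mem_insert_of_mem _ ?_)
      exact ⟨⟨⟨_, R⟩, ⟨k, ts, hs⟩⟩, fun i => tv v (ts i), !b, hF, rfl⟩
  | imp φ χ =>
    have hch : ch ψ m (⟨some (.inr ⟨⟨k, .imp φ χ⟩, hs⟩), v⟩ : Nd ψ s n) =
      {lit ψ φ (sub_imp1 hs) v, (lit ψ χ (sub_imp2 hs) v).neg} := rfl
    cases b with
    | true =>
      refine .andE (S := {lit ψ φ (sub_imp1 hs) v, (lit ψ χ (sub_imp2 hs) v).neg})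
        (a := (⟨some (.inr ⟨⟨k, .imp φ χ⟩, hs⟩), v⟩ : Nd ψ s n)) rfl (Set.mem_insert _ _) ?_
      refine h1 ?_
      rcases hF with hF | hF
      · exact ⟨_, ⟨lit ψ φ (sub_imp1 hs) v, Or.inl rfl, rfl⟩, k, φ, sub_imp1 hs, v, false, hF, rfl⟩
      · exact ⟨_, ⟨(lit ψ χ (sub_imp2 hs) v).neg, Or.inr rfl, rfl⟩, k, χ, sub_imp2 hs, v, true, hF,
          nneg _⟩
    | false =>
      refine .andI (S := {lit ψ φ (sub_imp1 hs) v, (lit ψ χ (sub_imp2 hs) v).neg})
        (a := (⟨some (.inr ⟨⟨k, .imp φ χ⟩, hs⟩), v⟩ : Nd ψ s n)) rfl (Set.mem_insert _ _) ?_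
      intro x hx
      refine h2 x hx ?_
      rcases hx with hx | hx
      · exact ⟨k, φ, sub_imp1 hs, v, true, hF.1, hx⟩
      · exact ⟨k, χ, sub_imp2 hs, v, false, hF.2, hx⟩
  | all φ =>
    cases b with
    | true =>
      refine .andI (S := Set.range fun p => lit ψ φ (sub_all hs) (Fin.snoc v p))
        (a := (⟨some (.inr ⟨⟨k, .all φ⟩, hs⟩), v⟩ : Nd ψ s n)) rfl (Set.mem_insert _ _) ?_
      intro x hx
      refine h2 x hx ?_
      obtain ⟨p, hp⟩ := hx
      exact ⟨k + 1, φ, sub_all hs, Fin.snoc v p, true, hF p, hp.symm⟩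
    | false =>
      refine .andE (S := Set.range fun p => lit ψ φ (sub_all hs) (Fin.snoc v p))
        (a := (⟨some (.inr ⟨⟨k, .all φ⟩, hs⟩), v⟩ : Nd ψ s n)) rfl (Set.mem_insert _ _) ?_
      refine h1 ?_
      obtain ⟨p, hp⟩ := hF
      exact ⟨_, ⟨lit ψ φ (sub_all hs) (Fin.snoc v p), ⟨p, rfl⟩, rfl⟩, k + 1, φ, sub_all hs,
        Fin.snoc v p, false, hp, rfl⟩

/-- The lines. -/
private noncomputable def FF (ψ : L.Sentence) (m : ℕ) {s n : ℕ} {X : Type}
    (G : X → Set (Atom L (Fin s ⊕ Fin n) × Bool)) :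
    X × Lit (Nd ψ s n) × Option (Option (Lit (Nd ψ s n))) → Set (Lit (Nd ψ s n))
  | (x, y, none) => insert y (gl ψ (G x))
  | (x, y, some none) => insert y (gl ψ (G x)) ∪ Lit.neg '' ch ψ m y.node
  | (x, y, some (some z)) => insert z (insert y (gl ψ (G x)))

/-- The index set. -/
private def JJ (ψ : L.Sentence) (m : ℕ) {s n : ℕ} (D : Set (Atom L (Fin s ⊕ Fin n) × Bool))
    {X : Type} (G : X → Set (Atom L (Fin s ⊕ Fin n) × Bool)) (V : Set X) :
    X × Lit (Nd ψ s n) × Option (Option (Lit (Nd ψ s n))) → Prop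
  | (x, y, none) => x ∈ V ∧ Fo ψ D (G x) y
  | (x, y, some none) => x ∈ V ∧ ∃ z ∈ Lit.neg '' ch ψ m y.node, Fo ψ D (G x) z
  | (x, y, some (some z)) => x ∈ V ∧ rk ψ z.node < rk ψ y.node ∧ Fo ψ D (G x) z

/-- The ranks. -/
private def rr (ψ : L.Sentence) {s n : ℕ} {X : Type} :
    X × Lit (Nd ψ s n) × Option (Option (Lit (Nd ψ s n))) → ℕ
  | (_, y, none) => 3 * rk ψ y.node
  | (_, y, some _) => 3 * rk ψ y.node - 1

private theorem rk_ch {a : Nd ψ s n} {z : Lit (Nd ψ s n)} (h : z ∈ ch ψ m a) :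
    rk ψ z.node < rk ψ a := rk_lt ψ m a z h

private theorem rk_nch {a : Nd ψ s n} {z : Lit (Nd ψ s n)} (h : z ∈ Lit.neg '' ch ψ m a) :
    rk ψ z.node < rk ψ a := by
  obtain ⟨y, hy, rfl⟩ := h
  have h1 := rk_ch hy
  exact h1

end aux

theorem kle (ψ : L.Sentence) {m s n : ℕ} {D : Set (Atom L (Fin s ⊕ Fin n) × Bool)}
    (hD : ∀ (σ : Equiv.Perm (Fin n)) (v : Atom L (Fin s ⊕ Fin n)) (b : Bool),
      (v, b) ∈ D → (v.act σ, b) ∈ D)
    {X : Type} [Finite X] (G : X → Set (Atom L (Fin s ⊕ Fin n) × Bool)) (V : Set X)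
    (hcl : ∀ (σ : Equiv.Perm (Fin n)), ∀ x ∈ V, ∃ y ∈ V,
      G y = (fun w : Atom L (Fin s ⊕ Fin n) × Bool => (w.1.act σ, w.2)) '' G x)
    (hf : ∀ x ∈ V, Forced D (G x) ψ default false) :
    ∃ Ls : Set (Set (Lit (Nd ψ s n))), GoodD ψ D (circ ψ m s n) Ls ∧
      (∀ x ∈ V, gl ψ (G x) ∈ Ls) ∧
      Ls.ncard ≤ 1 + 8 * Nat.card X * (Nat.card (Nd ψ s n) + 1) ^ 2 := by
  classical
  -- the first family
  have h1 : GoodD ψ D (circ ψ m s n) (∅ ∪ FF ψ m G '' {i | JJ ψ m D G V i}) := by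
    refine goodD_family (C := circ ψ m s n) (FF ψ m G) {i | JJ ψ m D G V i} (rr ψ) goodD_empty ?_ ?_
    · rintro σ ⟨x, y, o⟩ hi
      have hD' := hD σ
      match o, hi with
      | none, hi =>
        obtain ⟨x', hx', he⟩ := hcl σ x hi.1
        refine ⟨(x', σ • y, none), ⟨hx', ?_⟩, ?_⟩
        · rw [he]
          exact fo_act σ hD' hi.2
        · change insert (σ • y) (gl ψ (G x')) = σ • insert y (gl ψ (G x))
          rw [he, Set.smul_set_insert]
          congr 1
          exact gl_act σ (G x)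
      | some none, hi =>
        obtain ⟨hx, z, hz, hz2⟩ := hi
        obtain ⟨x', hx', he⟩ := hcl σ x hx
        refine ⟨(x', σ • y, some none), ⟨hx', σ • z, ?_, ?_⟩, ?_⟩
        · have h3 : (σ • y).node = σ • y.node := rfl
          rw [h3, ch_act, negim_act]
          exact Set.smul_mem_smul_set hz
        · rw [he]
          exact fo_act σ hD' hz2
        · change insert (σ • y) (gl ψ (G x')) ∪ Lit.neg '' ch ψ m (σ • y.node) =
            σ • (insert y (gl ψ (G x)) ∪ Lit.neg '' ch ψ m y.node)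
          rw [he, ch_act, negim_act, Set.smul_set_union, Set.smul_set_insert]
          congr 2
          exact gl_act σ (G x)
      | some (some z), hi =>
        obtain ⟨hx, hr, hz2⟩ := hi
        obtain ⟨x', hx', he⟩ := hcl σ x hx
        refine ⟨(x', σ • y, some (some (σ • z))), ⟨hx', ?_, ?_⟩, ?_⟩
        · change rk ψ (σ • z.node) < rk ψ (σ • y.node)
          rw [rk_act, rk_act]
          exact hr
        · rw [he]
          exact fo_act σ hD' hz2
        · change insert (σ • z) (insert (σ • y) (gl ψ (G x'))) =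
            σ • (insert z (insert y (gl ψ (G x))))
          rw [he, Set.smul_set_insert, Set.smul_set_insert]
          congr 2
          exact gl_act σ (G x)
    · rintro ⟨x, y, o⟩ hi
      match o, hi with
      | none, hi =>
        refine stepF hi.2 ?_ ?_
        · rintro ⟨z, hz, hz2⟩
          refine Or.inr ⟨(x, y, some none), ⟨hi.1, z, hz, hz2⟩, ?_, rfl⟩
          have h3 := rk_nch hz
          change 3 * rk ψ y.node - 1 < 3 * rk ψ y.node
          omega
        · intro z hz hz2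
          have h3 := rk_ch hz
          refine Or.inr ⟨(x, y, some (some z)), ⟨hi.1, h3, hz2⟩, ?_, rfl⟩
          change 3 * rk ψ y.node - 1 < 3 * rk ψ y.node
          omega
      | some none, hi =>
        obtain ⟨hx, z, hz, hz2⟩ := hi
        have h3 := rk_nch hz
        refine .weak (Δ := insert z (gl ψ (G x))) (Or.inr ⟨(x, z, none), ⟨hx, hz2⟩, ?_, rfl⟩) ?_
        · change 3 * rk ψ z.node < 3 * rk ψ y.node - 1
          omega
        · rintro w (rfl | hw)
          · exact Or.inr hz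
          · exact Or.inl (Set.mem_insert_of_mem _ hw)
      | some (some z), hi =>
        obtain ⟨hx, hr, hz2⟩ := hi
        refine .weak (Δ := insert z (gl ψ (G x))) (Or.inr ⟨(x, z, none), ⟨hx, hz2⟩, ?_, rfl⟩) ?_
        · change 3 * rk ψ z.node < 3 * rk ψ y.node - 1
          omega
        · rintro w (rfl | hw)
          · exact Set.mem_insert _ _
          · exact Set.mem_insert_of_mem _ (Set.mem_insert_of_mem _ hw)
  -- the sentence
  have hs : (⟨0, ψ⟩ : Σ k : ℕ, L.BoundedFormula Empty k) ∈ subf ψ := self_mem_subf ψ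
  obtain ⟨x₀, hx₀⟩ : ∃ x₀ : Lit (Nd ψ s n), x₀ = lit ψ ψ hs default := ⟨_, rfl⟩
  have hx₀σ : ∀ σ : Equiv.Perm (Fin n), σ • x₀ = x₀ := by
    intro σ
    rw [hx₀, ← lit_act]
    congr 1
    funext i
    exact i.elim0
  have h2 := goodD_family (C := circ ψ m s n) (fun _ : Unit => ({x₀} : Set (Lit (Nd ψ s n)))) Set.univ (fun _ => 0) h1
    (fun σ i _ => ⟨i, Set.mem_univ _, by
      change {x₀} = σ • ({x₀} : Set (Lit (Nd ψ s n)))
      rw [Set.smul_set_singleton, hx₀σ]⟩)
    (fun i _ => .hyp (x := x₀) (by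
      rw [hx₀]
      exact rep_lit ψ m ψ hs default) (Set.mem_singleton _))
  have h3 := goodD_family (C := circ ψ m s n) (fun x : X => insert x₀ (gl ψ (G x))) V (fun _ => 0) h2
    (fun σ x hx => by
      obtain ⟨x', hx', he⟩ := hcl σ x hx
      refine ⟨x', hx', ?_⟩
      change insert x₀ (gl ψ (G x')) = σ • insert x₀ (gl ψ (G x))
      rw [he, Set.smul_set_insert, hx₀σ]
      congr 1
      exact gl_act σ (G x))
    (fun x hx => .weak (Δ := {x₀}) (Or.inl (Or.inr ⟨(), Set.mem_univ _, rfl⟩)) (by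
      rintro w rfl
      exact Set.mem_insert _ _))
  have h4 := goodD_family (C := circ ψ m s n) (fun x : X => gl ψ (G x)) V (fun _ => 0) h3
    (fun σ x hx => by
      obtain ⟨x', hx', he⟩ := hcl σ x hx
      refine ⟨x', hx', ?_⟩
      change gl ψ (G x') = σ • gl ψ (G x)
      rw [he]
      exact gl_act σ (G x))
    (fun x hx => by
      have e1 : insert x₀ (gl ψ (G x)) ∈ (∅ ∪ FF ψ m G '' {i | JJ ψ m D G V i}) ∪
          (fun _ : Unit => ({x₀} : Set (Lit (Nd ψ s n)))) '' Set.univ ∪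
          (fun x : X => insert x₀ (gl ψ (G x))) '' V := Or.inr ⟨x, hx, rfl⟩
      have e2 : insert x₀.neg (gl ψ (G x)) ∈ (∅ ∪ FF ψ m G '' {i | JJ ψ m D G V i}) ∪
          (fun _ : Unit => ({x₀} : Set (Lit (Nd ψ s n)))) '' Set.univ ∪
          (fun x : X => insert x₀ (gl ψ (G x))) '' V := by
        refine Or.inl (Or.inl (Or.inr ⟨(x, x₀.neg, none), ⟨hx, 0, ψ, hs, default, false, hf x hx, ?_⟩,
          rfl⟩))
        rw [hx₀]
        rfl
      obtain ⟨a, b⟩ := x₀
      cases b with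
      | true => exact .cut (a := a) (Or.inl e1) (Or.inl e2)
      | false => exact .cut (a := a) (Or.inl e2) (Or.inl e1))
  refine ⟨_, h4, fun x hx => Or.inr ⟨x, hx, rfl⟩, ?_⟩
  have hlit : Nat.card (Lit (Nd ψ s n)) = 2 * Nat.card (Nd ψ s n) := by
    have e : Lit (Nd ψ s n) ≃ Nd ψ s n × Bool :=
      { toFun := fun x => (x.node, x.pos)
        invFun := fun p => ⟨p.1, p.2⟩
        left_inv := fun _ => rfl
        right_inv := fun _ => rfl }
    rw [Nat.card_congr e, Nat.card_prod, Nat.card_eq_fintype_card (α := Bool), Fintype.card_bool,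
      mul_comm]
  have hfl : Finite (Lit (Nd ψ s n)) := finite_lit (circ ψ m s n)
  have c1 : (FF ψ m G '' {i | JJ ψ m D G V i}).ncard ≤
      Nat.card X * (2 * Nat.card (Nd ψ s n) * (2 * Nat.card (Nd ψ s n) + 2)) := by
    refine (ncard_family (C := circ ψ m s n) (FF ψ m G) {i | JJ ψ m D G V i}).trans ?_
    rw [Nat.card_prod, Nat.card_prod, hlit]
    have h5 : Nat.card (Option (Option (Lit (Nd ψ s n)))) = 2 * Nat.card (Nd ψ s n) + 2 := by
      rw [Finite.card_option, Finite.card_option, hlit]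
    rw [h5]
  have c2 : ((fun _ : Unit => ({x₀} : Set (Lit (Nd ψ s n)))) '' Set.univ).ncard ≤ 1 := by
    refine (ncard_family (C := circ ψ m s n) (fun _ : Unit => ({x₀} : Set (Lit (Nd ψ s n))))
      Set.univ).trans ?_
    rw [Nat.card_unique]
  have c3 : ((fun x : X => insert x₀ (gl ψ (G x))) '' V).ncard ≤ Nat.card X :=
    ncard_family (C := circ ψ m s n) (fun x : X => insert x₀ (gl ψ (G x))) V
  have c4 : ((fun x : X => gl ψ (G x)) '' V).ncard ≤ Nat.card X :=
    ncard_family (C := circ ψ m s n) (fun x : X => gl ψ (G x)) V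
  rw [Set.empty_union]
  refine (Set.ncard_union_le _ _).trans ?_
  refine (Nat.add_le_add_right (Set.ncard_union_le _ _) _).trans ?_
  refine (Nat.add_le_add_right (Nat.add_le_add_right (Set.ncard_union_le _ _) _) _).trans ?_
  have c5 := add_le_add (add_le_add (add_le_add c1 c2) c3) c4
  refine c5.trans ?_
  nlinarith [Nat.zero_le (Nat.card X * Nat.card (Nd ψ s n)), Nat.zero_le (Nat.card X),
    Nat.zero_le (Nat.card X * Nat.card (Nd ψ s n) ^ 2)]

end Pool.H31.PH
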