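import Pool.Agent.H31.PH.Cov

/-!
# If a matching is present then the vertices it covers are matched
-/

set_option autoImplicit false

namespace Pool.H31.PH

open FirstOrder FirstOrder.Language Pool.H93.SY Pool.H31.SY Pool.Agent.H88.SY
open scoped Pointwise

variable {ψ : phpL.Sentence} [HasSits ψ] {s n K : ℕ}

theorem LV_smul (σ : Equiv.Perm (Fin n)) (v : Vx s n) :
    (LV (σ • v) : Set (Lit (Nx ψ s n K))) = σ • LV v := by
  apply smul_set_of
  intro x
  constructor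
  · rintro ⟨e, he, rfl⟩
    exact ⟨σ • e, (inc_smul σ).2 he, (R_smul σ e).symm⟩
  · rintro ⟨e, he, hx⟩
    refine ⟨σ⁻¹ • e, ?_, ?_⟩
    · rw [← inc_smul σ, inv_smul_eq]
      exact he
    · apply MulAction.injective σ
      show σ • x = σ • R (σ⁻¹ • e)
      rw [hx, ← R_smul, inv_smul_eq]

/-- The indices of the lines. -/
inductive IO (s n K : ℕ) : Type
  | a0 (v : Vx s n) (e : Ed s n)
  | a1 (v : Vx s n) (e : Ed s n)
  | a2 (h : Sl (Ed s n) K) (v : Vx s n)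
  | a3 (h : Sl (Ed s n) K) (v : Vx s n)
  | a4 (A : Sl (Vx s n) K) (h : Sl (Ed s n) K) (v : Vx s n)
  | a5 (A : Sl (Vx s n) K) (h : Sl (Ed s n) K)

/-- The indices as a sum type. -/
def IO.code : IO s n K → (Vx s n × Ed s n) ⊕ (Vx s n × Ed s n) ⊕ (Sl (Ed s n) K × Vx s n) ⊕
    (Sl (Ed s n) K × Vx s n) ⊕ (Sl (Vx s n) K × Sl (Ed s n) K × Vx s n) ⊕
    (Sl (Vx s n) K × Sl (Ed s n) K)
  | .a0 v e => .inl (v, e)
  | .a1 v e => .inr (.inl (v, e))
  | .a2 h v => .inr (.inr (.inl (h, v)))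
  | .a3 h v => .inr (.inr (.inr (.inl (h, v))))
  | .a4 A h v => .inr (.inr (.inr (.inr (.inl (A, h, v)))))
  | .a5 A h => .inr (.inr (.inr (.inr (.inr (A, h)))))

theorem IO.code_injective : Function.Injective (IO.code : IO s n K → _) := by
  intro x y h
  cases x <;> cases y <;> simp_all [IO.code]

instance : Finite (IO s n K) := Finite.of_injective IO.code IO.code_injective

/-- Permutation of an index. -/
def IO.act (σ : Equiv.Perm (Fin n)) : IO s n K → IO s n K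
  | .a0 v e => .a0 (σ • v) (σ • e)
  | .a1 v e => .a1 (σ • v) (σ • e)
  | .a2 h v => .a2 (σ • h) (σ • v)
  | .a3 h v => .a3 (σ • h) (σ • v)
  | .a4 A h v => .a4 (σ • A) (σ • h) (σ • v)
  | .a5 A h => .a5 (σ • A) (σ • h)

/-- The valid indices. -/
def IO.Ok : IO s n K → Prop
  | .a0 v e => Inc v e
  | .a1 v e => Inc v e
  | .a2 h v => ∃ e ∈ h.set, Inc v e
  | .a3 h v => ∃ e ∈ h.set, Inc v e
  | .a4 A h v => h ∈ HA A.set ∧ v ∈ A.set
  | .a5 A h => h ∈ HA A.set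

/-- The ranks. -/
def IO.rk : IO s n K → ℕ
  | .a0 _ _ => 0
  | .a1 _ _ => 1
  | .a2 _ _ => 2
  | .a3 _ _ => 3
  | .a4 _ _ _ => 4
  | .a5 _ _ => 5

/-- The lines. -/
def FO (ψ : phpL.Sentence) [HasSits ψ] {s n K : ℕ} : IO s n K → Set (Lit (Nx ψ s n K))
  | .a0 v e => {(R e).neg, ⟨.z v, false⟩} ∪ LV v
  | .a1 v e => {(R e).neg, ⟨.z v, false⟩}
  | .a2 h v => {Mp h false, ⟨.z v, false⟩} ∪ NE h.set
  | .a3 h v => {Mp h false, ⟨.z v, false⟩}
  | .a4 A h v => {⟨.z v, false⟩, ⟨.y A, true⟩, Mp h false}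
  | .a5 A h => {⟨.y A, true⟩, Mp h false}

theorem IO.ok_act (σ : Equiv.Perm (Fin n)) {k : IO s n K} (h : k.Ok) : (k.act σ).Ok := by
  cases k with
  | a0 v e => exact (inc_smul σ).2 h
  | a1 v e => exact (inc_smul σ).2 h
  | a2 g v =>
    obtain ⟨e, he, h1⟩ := h
    exact ⟨σ • e, mem_smul_sl.2 ⟨e, he, rfl⟩, (inc_smul σ).2 h1⟩
  | a3 g v =>
    obtain ⟨e, he, h1⟩ := h
    exact ⟨σ • e, mem_smul_sl.2 ⟨e, he, rfl⟩, (inc_smul σ).2 h1⟩
  | a4 A g v => exact ⟨(ha_smul σ).2 h.1, mem_smul_sl.2 ⟨v, h.2, rfl⟩⟩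
  | a5 A g => exact (ha_smul σ).2 h

theorem FO_act (σ : Equiv.Perm (Fin n)) (k : IO s n K) : FO ψ (k.act σ) = σ • FO ψ k := by
  cases k with
  | a0 v e =>
    show ({(R (σ • e)).neg, ⟨.z (σ • v), false⟩} : Set (Lit (Nx ψ s n K))) ∪ LV (σ • v) =
      σ • (({(R e).neg, ⟨.z v, false⟩} : Set (Lit (Nx ψ s n K))) ∪ LV v)
    rw [Set.smul_set_union, Set.smul_set_insert, Set.smul_set_singleton, LV_smul, R_smul]
    rfl
  | a1 v e =>
    show ({(R (σ • e)).neg, ⟨.z (σ • v), false⟩} : Set (Lit (Nx ψ s n K))) =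
      σ • ({(R e).neg, ⟨.z v, false⟩} : Set (Lit (Nx ψ s n K)))
    rw [Set.smul_set_insert, Set.smul_set_singleton, R_smul]
    rfl
  | a2 h v =>
    show ({Mp (σ • h) false, ⟨.z (σ • v), false⟩} : Set (Lit (Nx ψ s n K))) ∪ NE (σ • h).set =
      σ • (({Mp h false, ⟨.z v, false⟩} : Set (Lit (Nx ψ s n K))) ∪ NE h.set)
    rw [Set.smul_set_union, Set.smul_set_insert, Set.smul_set_singleton, NE_smul]
    rfl
  | a3 h v =>
    show _ = σ • ({Mp h false, ⟨.z v, false⟩} : Set (Lit (Nx ψ s n K)))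
    rw [Set.smul_set_insert, Set.smul_set_singleton]
    rfl
  | a4 A h v =>
    show _ = σ • ({⟨.z v, false⟩, ⟨.y A, true⟩, Mp h false} : Set (Lit (Nx ψ s n K)))
    rw [Set.smul_set_insert, Set.smul_set_insert, Set.smul_set_singleton]
    rfl
  | a5 A h =>
    show _ = σ • ({⟨.y A, true⟩, Mp h false} : Set (Lit (Nx ψ s n K)))
    rw [Set.smul_set_insert, Set.smul_set_singleton]
    rfl

theorem occ_lines {m : ℕ} {D : Set (Atom phpL (Fin s ⊕ Fin n) × Bool)}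
    {Ls : Set (Set (Lit (Nx ψ s n K)))} (hg : GoodD ψ D (pc ψ m s n K) Ls) :
    ∃ Ls' : Set (Set (Lit (Nx ψ s n K))), GoodD ψ D (pc ψ m s n K) Ls' ∧ Ls ⊆ Ls' ∧
      (∀ (A : Sl (Vx s n) K) (h : Sl (Ed s n) K), h ∈ HA A.set →
        {⟨.y A, true⟩, Mp h false} ∈ Ls') ∧
      Ls'.ncard ≤ Ls.ncard + Nat.card (IO s n K) := by
  have key : GoodD ψ D (pc ψ m s n K) (Ls ∪ FO ψ '' {k | k.Ok}) := by
    refine goodD_family (C := pc ψ m s n K) (FO ψ) {k | k.Ok} IO.rk hg ?_ ?_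
    · intro σ k hk
      exact ⟨k.act σ, IO.ok_act σ hk, FO_act σ k⟩
    · intro k hk
      cases k with
      | a0 v e =>
        exact .ident (a := (.base (nod e) : Nx ψ s n K)) (b := (.base (nod e) : Nx ψ s n K)) rfl
          (Or.inr ⟨e, hk, rfl⟩) (Or.inl (Or.inl rfl))
      | a1 v e =>
        refine .andE (a := (.z v : Nx ψ s n K)) (S := {x | ∃ e, Inc v e ∧ x = (R e).neg}) rfl
          (Or.inr rfl) (Or.inr ⟨.a0 v e, hk, Nat.zero_lt_one, ?_⟩)
        exact congrArg (fun T => ({(R e).neg, ⟨.z v, false⟩} : Set (Lit (Nx ψ s n K))) ∪ T)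
          (neg_image_z v)
      | a2 h v =>
        obtain ⟨e, he, h1⟩ := hk
        refine .weak (Δ := FO ψ (.a1 v e : IO s n K)) (Or.inr ⟨.a1 v e, h1, ?_, rfl⟩) ?_
        · show 1 < 2
          norm_num
        · rintro x (rfl | hx)
          · exact Or.inr ⟨e, he, rfl⟩
          · obtain rfl : x = _ := hx
            exact Or.inl (Or.inr rfl)
      | a3 h v =>
        refine .andE (a := (.M h : Nx ψ s n K)) (S := {x | ∃ e ∈ h.set, x = R e}) rfl
          (Or.inl rfl) (Or.inr ⟨.a2 h v, hk, ?_, ?_⟩)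
        · show 2 < 3
          norm_num
        · exact congrArg (fun T => ({Mp h false, ⟨.z v, false⟩} : Set (Lit (Nx ψ s n K))) ∪ T)
            (neg_image_edges h)
      | a4 A h v =>
        obtain ⟨h1, h2⟩ := hk
        refine .weak (Δ := FO ψ (.a3 h v : IO s n K))
          (Or.inr ⟨.a3 h v, h1.2.2 v h2, ?_, rfl⟩) ?_
        · show 3 < 4
          norm_num
        · rintro x (rfl | hx)
          · exact Or.inr (Or.inr rfl)
          · obtain rfl : x = _ := hx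
            exact Or.inl rfl
      | a5 A h =>
        refine .andI (a := (.y A : Nx ψ s n K)) (S := {x | ∃ v ∈ A.set, x = ⟨.z v, false⟩}) rfl
          (Or.inl rfl) ?_
        rintro x ⟨v, hv, rfl⟩
        refine Or.inr ⟨.a4 A h v, ⟨hk, hv⟩, ?_, rfl⟩
        show 4 < 5
        norm_num
  refine ⟨_, key, Set.subset_union_left, ?_, ?_⟩
  · intro A h hA
    exact Or.inr ⟨.a5 A h, hA, rfl⟩
  · exact (Set.ncard_union_le _ _).trans (Nat.add_le_add_left
      (ncard_family (C := pc ψ m s n K) (FO ψ) {k | k.Ok}) _)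

theorem card_io {T : ℕ} (hT : 1 ≤ T) (h1 : Nat.card (Vx s n) ≤ T) (h2 : Nat.card (Ed s n) ≤ T)
    (h3 : Nat.card (Sl (Vx s n) K) ≤ T) (h4 : Nat.card (Sl (Ed s n) K) ≤ T) :
    Nat.card (IO s n K) ≤ 6 * T ^ 3 := by
  refine (Nat.card_le_card_of_injective _ IO.code_injective).trans ?_
  rw [Nat.card_sum, Nat.card_sum, Nat.card_sum, Nat.card_sum, Nat.card_sum, Nat.card_prod,
    Nat.card_prod, Nat.card_prod, Nat.card_prod, Nat.card_prod]
  have e1 : T * T ≤ T ^ 3 := by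
    calc T * T = T * T * 1 := by ring
      _ ≤ T * T * T := Nat.mul_le_mul_left _ hT
      _ = T ^ 3 := by ring
  have e2 := Nat.mul_le_mul h1 h2
  have e3 := Nat.mul_le_mul h4 h1
  have e4 := Nat.mul_le_mul h3 e3
  have e5 := Nat.mul_le_mul h3 h4
  have e6 : T * (T * T) = T ^ 3 := by ring
  omega

end Pool.H31.PH
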