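import Pool.Agent.H31.PH.Occ

/-!
# If all vertices of a set on one side are matched, exactly one covering matching is present
-/

set_option autoImplicit false

namespace Pool.H31.PH

open FirstOrder FirstOrder.Language Pool.H93.SY Pool.H31.SY Pool.Agent.H88.SY
open scoped Pointwise

variable {ψ : phpL.Sentence} [HasSits ψ] {s n K : ℕ}

/-- A set of vertices on one side. -/
def OS (A : Finset (Vx s n)) : Prop := ∃ c, ∀ v ∈ A, sd v = c

theorem os_smul (σ : Equiv.Perm (Fin n)) {A : Sl (Vx s n) K} (h : OS A.set) :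
    OS (σ • A).set := by
  obtain ⟨c, h⟩ := h
  exact ⟨c, side_smul σ h⟩

/-- The line of `M h` and `b A`. -/
def BB (A : Sl (Vx s n) K) (h : Sl (Ed s n) K) : Set (Lit (Nx ψ s n K)) :=
  {Mp h false, ⟨.b A, true⟩}

/-- The line of `M h`, `b A` and `p A h`. -/
def G0 (A : Sl (Vx s n) K) (h : Sl (Ed s n) K) : Set (Lit (Nx ψ s n K)) :=
  insert ⟨.p A h, true⟩ (BB A h)

/-- The line of `y A` and `b A`. -/
def YB (A : Sl (Vx s n) K) : Set (Lit (Nx ψ s n K)) := {⟨.y A, false⟩, ⟨.b A, true⟩}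

omit [HasSits ψ] in
theorem BB_smul (σ : Equiv.Perm (Fin n)) (A : Sl (Vx s n) K) (h : Sl (Ed s n) K) :
    (BB (σ • A) (σ • h) : Set (Lit (Nx ψ s n K))) = σ • BB A h := by
  unfold BB
  rw [Set.smul_set_insert, Set.smul_set_singleton]
  rfl

omit [HasSits ψ] in
theorem G0_smul (σ : Equiv.Perm (Fin n)) (A : Sl (Vx s n) K) (h : Sl (Ed s n) K) :
    (G0 (σ • A) (σ • h) : Set (Lit (Nx ψ s n K))) = σ • G0 A h := by
  unfold G0
  rw [Set.smul_set_insert, BB_smul]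
  rfl

omit [HasSits ψ] in
theorem YB_smul (σ : Equiv.Perm (Fin n)) (A : Sl (Vx s n) K) :
    (YB (σ • A) : Set (Lit (Nx ψ s n K))) = σ • YB A := by
  unfold YB
  rw [Set.smul_set_insert, Set.smul_set_singleton]
  rfl

/-- The indices of the lines. -/
inductive IS (s n K : ℕ) : Type
  | b1 (A : Sl (Vx s n) K) (h : Sl (Ed s n) K)
  | b2 (A : Sl (Vx s n) K) (h h' : Sl (Ed s n) K)
  | b3 (A : Sl (Vx s n) K) (h h' : Sl (Ed s n) K)
  | b4 (A : Sl (Vx s n) K) (h h' : Sl (Ed s n) K)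
  | b5 (A : Sl (Vx s n) K) (h : Sl (Ed s n) K)
  | b6 (A : Sl (Vx s n) K) (h : Sl (Ed s n) K)
  | b7 (A : Sl (Vx s n) K) (h : Sl (Ed s n) K)
  | c0 (A : Sl (Vx s n) K) (h : Sl (Ed s n) K)
  | c1 (A : Sl (Vx s n) K)
  | c2 (A : Sl (Vx s n) K)
  | c3 (A : Sl (Vx s n) K)
  | c4 (A : Sl (Vx s n) K)

/-- The indices as a set of tuples. -/
def IS.code : IS s n K → Fin 12 × Sl (Vx s n) K × Option (Sl (Ed s n) K) ×
    Option (Sl (Ed s n) K)
  | .b1 A h => (0, A, some h, none)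
  | .b2 A h h' => (1, A, some h, some h')
  | .b3 A h h' => (2, A, some h, some h')
  | .b4 A h h' => (3, A, some h, some h')
  | .b5 A h => (4, A, some h, none)
  | .b6 A h => (5, A, some h, none)
  | .b7 A h => (6, A, some h, none)
  | .c0 A h => (7, A, some h, none)
  | .c1 A => (8, A, none, none)
  | .c2 A => (9, A, none, none)
  | .c3 A => (10, A, none, none)
  | .c4 A => (11, A, none, none)

theorem IS.code_injective : Function.Injective (IS.code : IS s n K → _) := by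
  intro x y h
  cases x <;> cases y <;> simp_all [IS.code]

instance : Finite (IS s n K) := Finite.of_injective IS.code IS.code_injective

theorem card_is : Nat.card (IS s n K) ≤
    12 * Nat.card (Sl (Vx s n) K) * (Nat.card (Sl (Ed s n) K) + 1) ^ 2 := by
  refine (Nat.card_le_card_of_injective _ IS.code_injective).trans ?_
  rw [Nat.card_prod, Nat.card_prod, Nat.card_prod, Nat.card_eq_fintype_card, Fintype.card_fin,
    Finite.card_option]
  exact le_of_eq (by ring)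

/-- Permutation of an index. -/
def IS.act (σ : Equiv.Perm (Fin n)) : IS s n K → IS s n K
  | .b1 A h => .b1 (σ • A) (σ • h)
  | .b2 A h h' => .b2 (σ • A) (σ • h) (σ • h')
  | .b3 A h h' => .b3 (σ • A) (σ • h) (σ • h')
  | .b4 A h h' => .b4 (σ • A) (σ • h) (σ • h')
  | .b5 A h => .b5 (σ • A) (σ • h)
  | .b6 A h => .b6 (σ • A) (σ • h)
  | .b7 A h => .b7 (σ • A) (σ • h)
  | .c0 A h => .c0 (σ • A) (σ • h)
  | .c1 A => .c1 (σ • A)
  | .c2 A => .c2 (σ • A)
  | .c3 A => .c3 (σ • A)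
  | .c4 A => .c4 (σ • A)

/-- The valid indices. -/
def IS.Ok : IS s n K → Prop
  | .b1 A h => OS A.set ∧ h ∈ HA A.set
  | .b2 A h h' => OS A.set ∧ h ∈ HA A.set ∧ h' ∈ HA A.set ∧ h' ≠ h
  | .b3 A h h' => OS A.set ∧ h ∈ HA A.set ∧ h' ∈ HA A.set ∧ h' ≠ h
  | .b4 A h h' => OS A.set ∧ h ∈ HA A.set ∧ h' ∈ HA A.set ∧ h' ≠ h
  | .b5 A h => OS A.set ∧ h ∈ HA A.set
  | .b6 A h => OS A.set ∧ h ∈ HA A.set
  | .b7 A h => OS A.set ∧ h ∈ HA A.set
  | .c0 A h => OS A.set ∧ h ∈ HA A.set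
  | .c1 A => OS A.set
  | .c2 A => OS A.set
  | .c3 A => OS A.set
  | .c4 A => OS A.set

/-- The ranks. -/
def IS.rk : IS s n K → ℕ
  | .b1 _ _ => 0
  | .b2 _ _ _ => 0
  | .b3 _ _ _ => 0
  | .b4 _ _ _ => 1
  | .b5 _ _ => 2
  | .b6 _ _ => 0
  | .b7 _ _ => 3
  | .c0 _ _ => 4
  | .c1 _ => 5
  | .c2 _ => 0
  | .c3 _ => 1
  | .c4 _ => 6

/-- The lines. -/
def FS (ψ : phpL.Sentence) [HasSits ψ] {s n K : ℕ} : IS s n K → Set (Lit (Nx ψ s n K))
  | .b1 A h => insert ⟨.m1 h, true⟩ (G0 A h)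
  | .b2 A h h' => insert ⟨.M h', true⟩ (insert ⟨.m0 h', true⟩ (G0 A h))
  | .b3 A h h' => insert ⟨.M h', false⟩ (insert ⟨.m0 h', true⟩ (G0 A h))
  | .b4 A h h' => insert ⟨.m0 h', true⟩ (G0 A h)
  | .b5 A h => G0 A h
  | .b6 A h => insert ⟨.p A h, false⟩ (BB A h)
  | .b7 A h => BB A h
  | .c0 A h => insert ⟨.M h, false⟩ (insert ⟨.q A, true⟩ (YB A))
  | .c1 A => insert ⟨.q A, true⟩ (YB A)
  | .c2 A => insert ⟨.q A, false⟩ (YB A) ∪ TH A
  | .c3 A => insert ⟨.q A, false⟩ (YB A)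
  | .c4 A => YB A

theorem IS.ok_act (σ : Equiv.Perm (Fin n)) {k : IS s n K} (h : k.Ok) : (k.act σ).Ok := by
  cases k with
  | b1 A g => exact ⟨os_smul σ h.1, (ha_smul σ).2 h.2⟩
  | b2 A g g' =>
    exact ⟨os_smul σ h.1, (ha_smul σ).2 h.2.1, (ha_smul σ).2 h.2.2.1,
      fun e => h.2.2.2 (MulAction.injective σ e)⟩
  | b3 A g g' =>
    exact ⟨os_smul σ h.1, (ha_smul σ).2 h.2.1, (ha_smul σ).2 h.2.2.1,
      fun e => h.2.2.2 (MulAction.injective σ e)⟩
  | b4 A g g' =>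
    exact ⟨os_smul σ h.1, (ha_smul σ).2 h.2.1, (ha_smul σ).2 h.2.2.1,
      fun e => h.2.2.2 (MulAction.injective σ e)⟩
  | b5 A g => exact ⟨os_smul σ h.1, (ha_smul σ).2 h.2⟩
  | b6 A g => exact ⟨os_smul σ h.1, (ha_smul σ).2 h.2⟩
  | b7 A g => exact ⟨os_smul σ h.1, (ha_smul σ).2 h.2⟩
  | c0 A g => exact ⟨os_smul σ h.1, (ha_smul σ).2 h.2⟩
  | c1 A => exact os_smul σ h
  | c2 A => exact os_smul σ h
  | c3 A => exact os_smul σ h
  | c4 A => exact os_smul σ h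

theorem FS_act (σ : Equiv.Perm (Fin n)) (k : IS s n K) : FS ψ (k.act σ) = σ • FS ψ k := by
  cases k with
  | b1 A h =>
    show insert ⟨.m1 (σ • h), true⟩ (G0 (σ • A) (σ • h)) = σ • insert ⟨.m1 h, true⟩ (G0 A h)
    rw [Set.smul_set_insert, G0_smul]
    rfl
  | b2 A h h' =>
    show insert ⟨.M (σ • h'), true⟩ (insert ⟨.m0 (σ • h'), true⟩ (G0 (σ • A) (σ • h))) =
      σ • insert ⟨.M h', true⟩ (insert ⟨.m0 h', true⟩ (G0 A h))
    rw [Set.smul_set_insert, Set.smul_set_insert, G0_smul]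
    rfl
  | b3 A h h' =>
    show insert ⟨.M (σ • h'), false⟩ (insert ⟨.m0 (σ • h'), true⟩ (G0 (σ • A) (σ • h))) =
      σ • insert ⟨.M h', false⟩ (insert ⟨.m0 h', true⟩ (G0 A h))
    rw [Set.smul_set_insert, Set.smul_set_insert, G0_smul]
    rfl
  | b4 A h h' =>
    show insert ⟨.m0 (σ • h'), true⟩ (G0 (σ • A) (σ • h)) = σ • insert ⟨.m0 h', true⟩ (G0 A h)
    rw [Set.smul_set_insert, G0_smul]
    rfl
  | b5 A h => exact G0_smul σ A h
  | b6 A h =>
    show insert ⟨.p (σ • A) (σ • h), false⟩ (BB (σ • A) (σ • h)) =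
      σ • insert ⟨.p A h, false⟩ (BB A h)
    rw [Set.smul_set_insert, BB_smul]
    rfl
  | b7 A h => exact BB_smul σ A h
  | c0 A h =>
    show insert ⟨.M (σ • h), false⟩ (insert ⟨.q (σ • A), true⟩ (YB (σ • A))) =
      σ • insert ⟨.M h, false⟩ (insert ⟨.q A, true⟩ (YB A))
    rw [Set.smul_set_insert, Set.smul_set_insert, YB_smul]
    rfl
  | c1 A =>
    show insert ⟨.q (σ • A), true⟩ (YB (σ • A)) = σ • insert ⟨.q A, true⟩ (YB A)
    rw [Set.smul_set_insert, YB_smul]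
    rfl
  | c2 A =>
    show insert ⟨.q (σ • A), false⟩ (YB (σ • A)) ∪ TH (σ • A) =
      σ • (insert ⟨.q A, false⟩ (YB A) ∪ TH A)
    rw [Set.smul_set_union, Set.smul_set_insert, YB_smul, TH_smul]
    rfl
  | c3 A =>
    show insert ⟨.q (σ • A), false⟩ (YB (σ • A)) = σ • insert ⟨.q A, false⟩ (YB A)
    rw [Set.smul_set_insert, YB_smul]
    rfl
  | c4 A => exact YB_smul σ A

/-- The residues of the labels of the nodes `m1`. -/
def cM (m : ℕ) : Nx ψ s n K → ZMod m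
  | .m1 _ => 1
  | _ => 0

/-- The sets of the labels of the nodes `m1` and `m0`. -/
def sM : Nx ψ s n K → Set (Lit (Nx ψ s n K))
  | .m1 h => {⟨.M h, true⟩}
  | .m0 h => {⟨.M h, true⟩}
  | _ => ∅

omit [HasSits ψ] in
theorem sum_tp (m : ℕ) (A : Sl (Vx s n) K) (h : Sl (Ed s n) K) :
    ∑ᶠ b ∈ (TP A h : Set (Nx ψ s n K)), cM m b = 1 := by
  rw [finsum_eq_single _ (.m1 h : Nx ψ s n K)]
  · have h1 : (.m1 h : Nx ψ s n K) ∈ (TP A h : Set (Nx ψ s n K)) := Or.inl rfl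
    classical
    rw [finsum_eq_if, if_pos h1]
    rfl
  · intro x hx
    classical
    rw [finsum_eq_if]
    split_ifs with h1
    · rcases h1 with rfl | ⟨h', -, -, rfl⟩
      · exact absurd rfl hx
      · rfl
    · rfl

omit [HasSits ψ] in
theorem union_tp {A : Sl (Vx s n) K} {h : Sl (Ed s n) K} (hA : h ∈ HA A.set) :
    ⋃ b ∈ (TP A h : Set (Nx ψ s n K)), sM b =
      {x : Lit (Nx ψ s n K) | ∃ g ∈ HA A.set, x = ⟨.M g, true⟩} := by
  ext x
  simp only [Set.mem_iUnion]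
  constructor
  · rintro ⟨b, (rfl | ⟨h', h1, h2, rfl⟩), hx⟩
    · exact ⟨h, hA, hx⟩
    · exact ⟨h', h1, hx⟩
  · rintro ⟨g, hg, rfl⟩
    by_cases hgh : g = h
    · exact ⟨.m1 h, Or.inl rfl, by rw [hgh]; exact rfl⟩
    · exact ⟨.m0 g, Or.inr ⟨g, hg, hgh, rfl⟩, rfl⟩

omit [HasSits ψ] in
theorem disj_tp (A : Sl (Vx s n) K) (h : Sl (Ed s n) K) :
    (TP A h : Set (Nx ψ s n K)).PairwiseDisjoint sM := by
  have key : ∀ g g' : Sl (Ed s n) K, g ≠ g' →
      Disjoint ({⟨.M g, true⟩} : Set (Lit (Nx ψ s n K))) {⟨.M g', true⟩} := by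
    intro g g' hne
    rw [Set.disjoint_singleton]
    intro heq
    have h1 : (Nx.M g : Nx ψ s n K) = .M g' := lit_inj heq
    injection h1 with h2
    exact hne h2
  rintro x (rfl | ⟨g, h1, h2, rfl⟩) y (rfl | ⟨g', h3, h4, rfl⟩) hxy
  · exact absurd rfl hxy
  · exact key _ _ (Ne.symm h4)
  · exact key _ _ h2
  · refine key _ _ ?_
    rintro rfl
    exact hxy rfl

theorem single_lines {m : ℕ} {D : Set (Atom phpL (Fin s ⊕ Fin n) × Bool)}
    {Ls : Set (Set (Lit (Nx ψ s n K)))} (hg : GoodD ψ D (pc ψ m s n K) Ls)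
    (hconf : ∀ h h' : Sl (Ed s n) K, (∃ e ∈ h.set, ∃ e' ∈ h'.set, Cf e e') →
      {Mp h false, Mp h' false} ∈ Ls)
    (hcov : ∀ (c : Bool) (A : Sl (Vx s n) K), (∀ v ∈ A.set, sd v = c) →
      insert ⟨.y A, false⟩ (TH A) ∈ Ls) :
    ∃ Ls' : Set (Set (Lit (Nx ψ s n K))), GoodD ψ D (pc ψ m s n K) Ls' ∧ Ls ⊆ Ls' ∧
      (∀ A : Sl (Vx s n) K, OS A.set → YB A ∈ Ls') ∧
      Ls'.ncard ≤ Ls.ncard + Nat.card (IS s n K) := by
  have key : GoodD ψ D (pc ψ m s n K) (Ls ∪ FS ψ '' {k | k.Ok}) := by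
    refine goodD_family (C := pc ψ m s n K) (FS ψ) {k | k.Ok} IS.rk hg ?_ ?_
    · intro σ k hk
      exact ⟨k.act σ, IS.ok_act σ hk, FS_act σ k⟩
    · intro k hk
      cases k with
      | b1 A h =>
        exact .one (a := (.m1 h : Nx ψ s n K)) (x := (Mp h true : Lit (Nx ψ s n K))) rfl
          (Or.inr (Or.inr (Or.inl rfl))) (Or.inl rfl)
      | b2 A h h' =>
        exact .zero (a := (.m0 h' : Nx ψ s n K)) (x := (Mp h' true : Lit (Nx ψ s n K))) rfl
          (Or.inl rfl) (Or.inr (Or.inl rfl))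
      | b3 A h h' =>
        obtain ⟨⟨c, hc⟩, h1, h2, h3⟩ := hk
        refine .weak (Or.inl (hconf h h' (ha_cf hc h1 h2 (Ne.symm h3)))) ?_
        rintro x (rfl | hx)
        · exact Or.inr (Or.inr (Or.inr (Or.inl rfl)))
        · obtain rfl : x = _ := hx
          exact Or.inl rfl
      | b4 A h h' =>
        refine .cut (a := (.M h' : Nx ψ s n K)) (Or.inr ⟨.b2 A h h', hk, ?_, rfl⟩)
          (Or.inr ⟨.b3 A h h', hk, ?_, rfl⟩)
        · show 0 < 1
          norm_num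
        · show 0 < 1
          norm_num
      | b5 A h =>
        refine .andI (a := (.p A h : Nx ψ s n K)) (S := (fun x => ⟨x, true⟩) '' TP A h) rfl
          (Or.inl rfl) ?_
        rintro _ ⟨x, (rfl | ⟨h', h1, h2, rfl⟩), rfl⟩
        · refine Or.inr ⟨.b1 A h, hk, ?_, rfl⟩
          show 0 < 2
          norm_num
        · refine Or.inr ⟨.b4 A h h', ⟨hk.1, hk.2, h1, h2⟩, ?_, rfl⟩
          show 1 < 2
          norm_num
      | b6 A h =>
        refine .sum (a := (.b A : Nx ψ s n K)) (p := (.p A h : Nx ψ s n K))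
          (T := (TP A h : Set (Nx ψ s n K))) (c := cM m) (S := sM) ?_ (disj_tp A h) rfl ?_
          (Or.inl rfl) (Or.inr (Or.inr rfl))
        · rintro b (rfl | ⟨h', -, -, rfl⟩)
          · rfl
          · rfl
        · have h1 : ∑ᶠ b ∈ (TP A h : Set (Nx ψ s n K)), cM m b = 1 := sum_tp m A h
          have h2 := union_tp (ψ := ψ) hk.2
          exact (congrArg₂ Gate.mod h1 h2).symm
      | b7 A h =>
        refine .cut (a := (.p A h : Nx ψ s n K)) (Or.inr ⟨.b5 A h, hk, ?_, rfl⟩)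
          (Or.inr ⟨.b6 A h, hk, ?_, rfl⟩)
        · show 2 < 3
          norm_num
        · show 0 < 3
          norm_num
      | c0 A h =>
        refine .weak (Δ := (BB A h : Set (Lit (Nx ψ s n K)))) (Or.inr ⟨.b7 A h, hk, ?_, rfl⟩) ?_
        · show 3 < 4
          norm_num
        · rintro x (rfl | hx)
          · exact Or.inl rfl
          · obtain rfl : x = _ := hx
            exact Or.inr (Or.inr (Or.inr rfl))
      | c1 A =>
        refine .andI (a := (.q A : Nx ψ s n K))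
          (S := {x | ∃ h ∈ HA A.set, x = ⟨.M h, false⟩}) rfl (Or.inl rfl) ?_
        rintro _ ⟨h, h1, rfl⟩
        refine Or.inr ⟨.c0 A h, ⟨hk, h1⟩, ?_, rfl⟩
        show 4 < 5
        norm_num
      | c2 A =>
        obtain ⟨c, hc⟩ := hk
        refine .weak (Or.inl (hcov c A hc)) ?_
        rintro x (rfl | hx)
        · exact Or.inl (Or.inr (Or.inl rfl))
        · exact Or.inr hx
      | c3 A =>
        refine .andE (a := (.q A : Nx ψ s n K))
          (S := {x | ∃ h ∈ HA A.set, x = ⟨.M h, false⟩}) rfl (Or.inl rfl)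
          (Or.inr ⟨.c2 A, hk, ?_, ?_⟩)
        · show 0 < 1
          norm_num
        · have h1 : Lit.neg '' {x : Lit (Nx ψ s n K) | ∃ h ∈ HA A.set, x = ⟨.M h, false⟩} =
              TH A := by
            ext x
            constructor
            · rintro ⟨_, ⟨h, hh, rfl⟩, rfl⟩
              exact ⟨h, hh, rfl⟩
            · rintro ⟨h, hh, rfl⟩
              exact ⟨⟨.M h, false⟩, ⟨h, hh, rfl⟩, rfl⟩
          exact congrArg (fun T => insert (⟨.q A, false⟩ : Lit (Nx ψ s n K)) (YB A) ∪ T) h1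
      | c4 A =>
        refine .cut (a := (.q A : Nx ψ s n K)) (Or.inr ⟨.c1 A, hk, ?_, rfl⟩)
          (Or.inr ⟨.c3 A, hk, ?_, rfl⟩)
        · show 5 < 6
          norm_num
        · show 1 < 6
          norm_num
  refine ⟨_, key, Set.subset_union_left, ?_, ?_⟩
  · intro A hA
    exact Or.inr ⟨.c4 A, hA, rfl⟩
  · exact (Set.ncard_union_le _ _).trans (Nat.add_le_add_left
      (ncard_family (C := pc ψ m s n K) (FS ψ) {k | k.Ok}) _)

end Pool.H31.PH
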