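import Pool.Agent.H31.PH.Sgl

/-!
# The numbers of the matchings, modulo `m`, if all vertices of a side are matched
-/

set_option autoImplicit false

namespace Pool.H31.PH

open FirstOrder FirstOrder.Language Pool.H93.SY Pool.H31.SY Pool.Agent.H88.SY
open scoped Pointwise

variable {ψ : phpL.Sentence} [HasSits ψ] {s n K : ℕ}

/-- The indices of the lines. -/
inductive IT (s n K : ℕ) : Type
  | d0 (v : Vx s n)
  | d1 (v : Vx s n)
  | d2 (A : Sl (Vx s n) K) (v : Vx s n)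
  | d3 (A : Sl (Vx s n) K)
  | d4 (A : Sl (Vx s n) K)
  | d5 (A : Sl (Vx s n) K)
  | d6 (A : Sl (Vx s n) K)
  | d7 (A : Sl (Vx s n) K)
  | d8 (A : Sl (Vx s n) K) (c : Bool) (i : Fin (K + 1))
  | d9 (c : Bool) (i : Fin (K + 1))
  | d10 (c : Bool) (i : Fin (K + 1))
  | d11 (c : Bool) (i : Fin (K + 1))

/-- The indices as a set of tuples. -/
def IT.code : IT s n K → Fin 12 × Option (Vx s n) × Option (Sl (Vx s n) K) ×
    Option (Bool × Fin (K + 1))
  | .d0 v => (0, some v, none, none)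
  | .d1 v => (1, some v, none, none)
  | .d2 A v => (2, some v, some A, none)
  | .d3 A => (3, none, some A, none)
  | .d4 A => (4, none, some A, none)
  | .d5 A => (5, none, some A, none)
  | .d6 A => (6, none, some A, none)
  | .d7 A => (7, none, some A, none)
  | .d8 A c i => (8, none, some A, some (c, i))
  | .d9 c i => (9, none, none, some (c, i))
  | .d10 c i => (10, none, none, some (c, i))
  | .d11 c i => (11, none, none, some (c, i))

theorem IT.code_injective : Function.Injective (IT.code : IT s n K → _) := by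
  intro x y h
  cases x <;> cases y <;> simp_all [IT.code]

instance : Finite (IT s n K) := Finite.of_injective IT.code IT.code_injective

theorem card_it : Nat.card (IT s n K) ≤
    12 * (Nat.card (Vx s n) + 1) * (Nat.card (Sl (Vx s n) K) + 1) * (2 * (K + 1) + 1) := by
  refine (Nat.card_le_card_of_injective _ IT.code_injective).trans ?_
  rw [Nat.card_prod, Nat.card_prod, Nat.card_prod, Finite.card_option, Finite.card_option,
    Finite.card_option, Nat.card_prod, Nat.card_eq_fintype_card, Nat.card_eq_fintype_card (α := Bool),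
    Nat.card_eq_fintype_card (α := Fin (K + 1)), Fintype.card_fin, Fintype.card_fin,
    Fintype.card_bool]
  exact le_of_eq (by ring)

/-- Permutation of an index. -/
def IT.act (σ : Equiv.Perm (Fin n)) : IT s n K → IT s n K
  | .d0 v => .d0 (σ • v)
  | .d1 v => .d1 (σ • v)
  | .d2 A v => .d2 (σ • A) (σ • v)
  | .d3 A => .d3 (σ • A)
  | .d4 A => .d4 (σ • A)
  | .d5 A => .d5 (σ • A)
  | .d6 A => .d6 (σ • A)
  | .d7 A => .d7 (σ • A)
  | .d8 A c i => .d8 (σ • A) c i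
  | .d9 c i => .d9 c i
  | .d10 c i => .d10 c i
  | .d11 c i => .d11 c i

/-- A set of vertices on one of the sides in `S`. -/
def OT (S : Set Bool) (A : Finset (Vx s n)) : Prop := ∃ c ∈ S, ∀ v ∈ A, sd v = c

theorem ot_smul (σ : Equiv.Perm (Fin n)) {S : Set Bool} {A : Sl (Vx s n) K} (h : OT S A.set) :
    OT S (σ • A).set := by
  obtain ⟨c, hc, h⟩ := h
  exact ⟨c, hc, side_smul σ h⟩

/-- The valid indices. -/
def IT.Ok (S : Set Bool) : IT s n K → Prop
  | .d0 v => sd v ∈ S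
  | .d1 v => sd v ∈ S
  | .d2 A v => OT S A.set ∧ v ∈ A.set
  | .d3 A => OT S A.set
  | .d4 A => OT S A.set
  | .d5 A => OT S A.set
  | .d6 A => OT S A.set
  | .d7 A => OT S A.set
  | .d8 A c i => c ∈ S ∧ (∀ v ∈ A.set, sd v = c) ∧ A.set.card = i
  | .d9 c _ => c ∈ S
  | .d10 c _ => c ∈ S
  | .d11 c _ => c ∈ S

/-- The ranks. -/
def IT.rk : IT s n K → ℕ
  | .d0 _ => 0
  | .d1 _ => 1
  | .d2 _ _ => 2
  | .d3 _ => 3
  | .d4 _ => 4
  | .d5 _ => 5
  | .d6 _ => 4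
  | .d7 _ => 5
  | .d8 _ _ _ => 6
  | .d9 _ _ => 7
  | .d10 _ _ => 0
  | .d11 _ _ => 8

/-- The lines. -/
def FT (ψ : phpL.Sentence) [HasSits ψ] {s n K : ℕ} : IT s n K → Set (Lit (Nx ψ s n K))
  | .d0 v => {⟨.z v, false⟩} ∪ LV v
  | .d1 v => {⟨.z v, false⟩}
  | .d2 A v => insert ⟨.z v, false⟩ {⟨.y A, true⟩}
  | .d3 A => {⟨.y A, true⟩}
  | .d4 A => insert ⟨.y A, true⟩ {⟨.b A, true⟩}
  | .d5 A => {⟨.b A, true⟩}
  | .d6 A => insert ⟨.y A, true⟩ (TH A)
  | .d7 A => TH A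
  | .d8 A c i => insert ⟨.b A, true⟩ (insert ⟨.r c i, true⟩ {⟨.tot c i, true⟩})
  | .d9 c i => insert ⟨.r c i, true⟩ {⟨.tot c i, true⟩}
  | .d10 c i => insert ⟨.r c i, false⟩ {⟨.tot c i, true⟩}
  | .d11 c i => {⟨.tot c i, true⟩}

theorem IT.ok_act (σ : Equiv.Perm (Fin n)) {S : Set Bool} {k : IT s n K} (h : k.Ok S) :
    (k.act σ).Ok S := by
  cases k with
  | d0 v =>
    show sd (σ • v) ∈ S
    rw [sd_smul]
    exact h
  | d1 v =>
    show sd (σ • v) ∈ S
    rw [sd_smul]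
    exact h
  | d2 A v => exact ⟨ot_smul σ h.1, mem_smul_sl.2 ⟨v, h.2, rfl⟩⟩
  | d3 A => exact ot_smul σ h
  | d4 A => exact ot_smul σ h
  | d5 A => exact ot_smul σ h
  | d6 A => exact ot_smul σ h
  | d7 A => exact ot_smul σ h
  | d8 A c i => exact ⟨h.1, side_smul σ h.2.1, (card_smul_sl σ A).trans h.2.2⟩
  | d9 c i => exact h
  | d10 c i => exact h
  | d11 c i => exact h

theorem FT_act (σ : Equiv.Perm (Fin n)) (k : IT s n K) : FT ψ (k.act σ) = σ • FT ψ k := by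
  cases k with
  | d0 v =>
    show {⟨.z (σ • v), false⟩} ∪ LV (σ • v) = σ • ({⟨.z v, false⟩} ∪ LV v)
    rw [Set.smul_set_union, Set.smul_set_singleton, LV_smul]
    rfl
  | d1 v =>
    show _ = σ • ({⟨.z v, false⟩} : Set (Lit (Nx ψ s n K)))
    rw [Set.smul_set_singleton]
    rfl
  | d2 A v =>
    show _ = σ • (insert ⟨.z v, false⟩ {⟨.y A, true⟩} : Set (Lit (Nx ψ s n K)))
    rw [Set.smul_set_insert, Set.smul_set_singleton]
    rfl
  | d3 A =>
    show _ = σ • ({⟨.y A, true⟩} : Set (Lit (Nx ψ s n K)))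
    rw [Set.smul_set_singleton]
    rfl
  | d4 A =>
    show _ = σ • (insert ⟨.y A, true⟩ {⟨.b A, true⟩} : Set (Lit (Nx ψ s n K)))
    rw [Set.smul_set_insert, Set.smul_set_singleton]
    rfl
  | d5 A =>
    show _ = σ • ({⟨.b A, true⟩} : Set (Lit (Nx ψ s n K)))
    rw [Set.smul_set_singleton]
    rfl
  | d6 A =>
    show insert ⟨.y (σ • A), true⟩ (TH (σ • A)) = σ • insert ⟨.y A, true⟩ (TH A)
    rw [Set.smul_set_insert, TH_smul]
    rfl
  | d7 A => exact TH_smul σ A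
  | d8 A c i =>
    show _ = σ • (insert ⟨.b A, true⟩ (insert ⟨.r c i, true⟩ {⟨.tot c i, true⟩}) :
      Set (Lit (Nx ψ s n K)))
    rw [Set.smul_set_insert, Set.smul_set_insert, Set.smul_set_singleton]
    rfl
  | d9 c i =>
    show _ = σ • (insert ⟨.r c i, true⟩ {⟨.tot c i, true⟩} : Set (Lit (Nx ψ s n K)))
    rw [Set.smul_set_insert, Set.smul_set_singleton]
    rfl
  | d10 c i =>
    show _ = σ • (insert ⟨.r c i, false⟩ {⟨.tot c i, true⟩} : Set (Lit (Nx ψ s n K)))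
    rw [Set.smul_set_insert, Set.smul_set_singleton]
    rfl
  | d11 c i =>
    show _ = σ • ({⟨.tot c i, true⟩} : Set (Lit (Nx ψ s n K)))
    rw [Set.smul_set_singleton]
    rfl

omit [HasSits ψ] in
/-- The sets of the labels of the nodes `b`. -/
def sB : Nx ψ s n K → Set (Lit (Nx ψ s n K))
  | .b A => {x | ∃ h ∈ HA A.set, x = ⟨.M h, true⟩}
  | _ => ∅

omit [HasSits ψ] in
theorem b_injective : Function.Injective (Nx.b : Sl (Vx s n) K → Nx ψ s n K) := by
  intro x y h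
  injection h

omit [HasSits ψ] in
theorem sum_tr (m : ℕ) (c : Bool) (i : Fin (K + 1)) :
    ∑ᶠ b ∈ (TR c i : Set (Nx ψ s n K)), (1 : ZMod m) =
      (((if c then n else s).choose i : ℕ) : ZMod m) := by
  have h1 : (TR c i : Set (Nx ψ s n K)) =
      Nx.b '' {A : Sl (Vx s n) K | (∀ v ∈ A.set, sd v = c) ∧ A.set.card = i} := by
    ext x
    constructor
    · rintro ⟨A, hA, rfl⟩
      exact ⟨A, hA, rfl⟩
    · rintro ⟨A, hA, rfl⟩
      exact ⟨A, hA, rfl⟩
  have h2 : (TR c i : Set (Nx ψ s n K)).ncard = (if c then n else s).choose i := by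
    rw [h1, Set.ncard_image_of_injective _ b_injective]
    exact card_side s n (Nat.le_of_lt_succ i.isLt) c
  rw [finsum_mem_eq_finite_toFinset_sum _ (Set.toFinite _), Finset.sum_const,
    ← Set.ncard_eq_toFinset_card, h2, nsmul_eq_mul, mul_one]

omit [HasSits ψ] in
theorem union_tr (c : Bool) (i : Fin (K + 1)) :
    ⋃ b ∈ (TR c i : Set (Nx ψ s n K)), sB b =
      {x : Lit (Nx ψ s n K) | ∃ h : Sl (Ed s n) K, (Mt h.set ∧ h.set.card = i) ∧
        x = ⟨.M h, true⟩} := by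
  ext x
  simp only [Set.mem_iUnion]
  constructor
  · rintro ⟨b, ⟨A, hA, rfl⟩, h, hh, rfl⟩
    exact ⟨h, ⟨hh.2.1, hh.1.trans hA.2⟩, rfl⟩
  · rintro ⟨h, ⟨h1, h2⟩, rfl⟩
    obtain ⟨A, h3, h4, h5⟩ := exists_ha c h1
    exact ⟨.b A, ⟨A, ⟨h3, h4.trans h2⟩, rfl⟩, h, h5, rfl⟩

omit [HasSits ψ] in
theorem disj_tr (c : Bool) (i : Fin (K + 1)) :
    (TR c i : Set (Nx ψ s n K)).PairwiseDisjoint sB := by
  rintro x ⟨A, hA, rfl⟩ y ⟨A', hA', rfl⟩ hxy
  show Disjoint (sB (.b A)) (sB (.b A'))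
  rw [Set.disjoint_left]
  rintro _ ⟨h, h1, rfl⟩ ⟨h', h2, h3⟩
  have h4 : (Nx.M h : Nx ψ s n K) = .M h' := lit_inj h3
  injection h4 with h5
  rw [← h5] at h2
  exact hxy (congrArg Nx.b (Sl.ext (ha_unique hA.1 hA'.1 h1 h2)))

theorem tot_lines {m : ℕ} {D : Set (Atom phpL (Fin s ⊕ Fin n) × Bool)}
    {Ls : Set (Set (Lit (Nx ψ s n K)))} (hg : GoodD ψ D (pc ψ m s n K) Ls) (S : Set Bool)
    (hLV : ∀ v : Vx s n, sd v ∈ S → LV v ∈ Ls)
    (hcov : ∀ (c : Bool) (A : Sl (Vx s n) K), (∀ v ∈ A.set, sd v = c) →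
      insert ⟨.y A, false⟩ (TH A) ∈ Ls)
    (hYB : ∀ A : Sl (Vx s n) K, OS A.set → YB A ∈ Ls) :
    ∃ Ls' : Set (Set (Lit (Nx ψ s n K))), GoodD ψ D (pc ψ m s n K) Ls' ∧ Ls ⊆ Ls' ∧
      (∀ v : Vx s n, sd v ∈ S → {⟨.z v, false⟩} ∈ Ls') ∧
      (∀ A : Sl (Vx s n) K, OT S A.set → {⟨.y A, true⟩} ∈ Ls' ∧ {⟨.b A, true⟩} ∈ Ls' ∧
        TH A ∈ Ls') ∧
      (∀ c ∈ S, ∀ i : Fin (K + 1), {⟨.tot c i, true⟩} ∈ Ls') ∧
      Ls'.ncard ≤ Ls.ncard + Nat.card (IT s n K) := by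
  have key : GoodD ψ D (pc ψ m s n K) (Ls ∪ FT ψ '' {k | k.Ok S}) := by
    refine goodD_family (C := pc ψ m s n K) (FT ψ) {k | k.Ok S} IT.rk hg ?_ ?_
    · intro σ k hk
      exact ⟨k.act σ, IT.ok_act σ hk, FT_act σ k⟩
    · intro k hk
      cases k with
      | d0 v => exact .weak (Or.inl (hLV v hk)) Set.subset_union_right
      | d1 v =>
        refine .andE (a := (.z v : Nx ψ s n K)) (S := {x | ∃ e, Inc v e ∧ x = (R e).neg}) rfl rfl
          (Or.inr ⟨.d0 v, hk, Nat.zero_lt_one, ?_⟩)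
        exact congrArg (fun T => ({⟨.z v, false⟩} : Set (Lit (Nx ψ s n K))) ∪ T) (neg_image_z v)
      | d2 A v =>
        obtain ⟨⟨c, hc, h1⟩, h2⟩ := hk
        refine .weak (Δ := FT ψ (.d1 v : IT s n K)) (Or.inr ⟨.d1 v, ?_, ?_, rfl⟩) ?_
        · show sd v ∈ S
          rw [h1 v h2]
          exact hc
        · show 1 < 2
          norm_num
        · intro x hx
          exact Or.inl hx
      | d3 A =>
        refine .andI (a := (.y A : Nx ψ s n K)) (S := {x | ∃ v ∈ A.set, x = ⟨.z v, false⟩}) rfl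
          rfl ?_
        rintro _ ⟨v, hv, rfl⟩
        refine Or.inr ⟨.d2 A v, ⟨hk, hv⟩, ?_, rfl⟩
        show 2 < 3
        norm_num
      | d4 A =>
        refine .weak (Δ := FT ψ (.d3 A : IT s n K)) (Or.inr ⟨.d3 A, hk, ?_, rfl⟩) ?_
        · show 3 < 4
          norm_num
        · intro x hx
          exact Or.inl hx
      | d5 A =>
        obtain ⟨c, hc, h1⟩ := hk
        refine .cut (a := (.y A : Nx ψ s n K)) (Or.inr ⟨.d4 A, ⟨c, hc, h1⟩, ?_, rfl⟩)
          (Or.inl (hYB A ⟨c, h1⟩))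
        show 4 < 5
        norm_num
      | d6 A =>
        refine .weak (Δ := FT ψ (.d3 A : IT s n K)) (Or.inr ⟨.d3 A, hk, ?_, rfl⟩) ?_
        · show 3 < 4
          norm_num
        · intro x hx
          exact Or.inl hx
      | d7 A =>
        obtain ⟨c, hc, h1⟩ := hk
        refine .cut (a := (.y A : Nx ψ s n K)) (Or.inr ⟨.d6 A, ⟨c, hc, h1⟩, ?_, rfl⟩)
          (Or.inl (hcov c A h1))
        show 4 < 5
        norm_num
      | d8 A c i =>
        refine .weak (Δ := FT ψ (.d5 A : IT s n K)) (Or.inr ⟨.d5 A, ⟨c, hk.1, hk.2.1⟩, ?_, rfl⟩) ?_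
        · show 5 < 6
          norm_num
        · intro x hx
          exact Or.inl hx
      | d9 c i =>
        refine .andI (a := (.r c i : Nx ψ s n K)) (S := (fun x => ⟨x, true⟩) '' TR c i) rfl
          (Or.inl rfl) ?_
        rintro _ ⟨_, ⟨A, hA, rfl⟩, rfl⟩
        refine Or.inr ⟨.d8 A c i, ⟨hk, hA⟩, ?_, rfl⟩
        show 6 < 7
        norm_num
      | d10 c i =>
        refine .sum (a := (.tot c i : Nx ψ s n K)) (p := (.r c i : Nx ψ s n K))
          (T := (TR c i : Set (Nx ψ s n K))) (c := fun _ => (1 : ZMod m)) (S := sB) ?_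
          (disj_tr c i) rfl ?_ (Or.inl rfl) (Or.inr rfl)
        · rintro _ ⟨A, hA, rfl⟩
          rfl
        · exact (congrArg₂ Gate.mod (sum_tr (ψ := ψ) m c i) (union_tr (ψ := ψ) c i)).symm
      | d11 c i =>
        refine .cut (a := (.r c i : Nx ψ s n K)) (Or.inr ⟨.d9 c i, hk, ?_, rfl⟩)
          (Or.inr ⟨.d10 c i, hk, ?_, rfl⟩)
        · show 7 < 8
          norm_num
        · show 0 < 8
          norm_num
  refine ⟨_, key, Set.subset_union_left, ?_, ?_, ?_, ?_⟩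
  · intro v hv
    exact Or.inr ⟨.d1 v, hv, rfl⟩
  · intro A hA
    exact ⟨Or.inr ⟨.d3 A, hA, rfl⟩, Or.inr ⟨.d5 A, hA, rfl⟩, Or.inr ⟨.d7 A, hA, rfl⟩⟩
  · intro c hc i
    exact Or.inr ⟨.d11 c i, hc, rfl⟩
  · exact (Set.ncard_union_le _ _).trans (Nat.add_le_add_left
      (ncard_family (C := pc ψ m s n K) (FT ψ) {k | k.Ok S}) _)

end Pool.H31.PH
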